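import Pool.Agent.R223.RX.Stm
import Pool.Agent.R223.RD.PC
import Pool.Agent.Y282.RB.A1
import Pool.Agent.R892.BR.Class

/-!
# Project RX (MP_dd244f_an), piece ISO: the `L^2` contraction from Plancherel
-/

set_option autoImplicit false

open MeasureTheory Set Filter Topology
open scoped SchwartzMap FourierTransform ContDiff

namespace Pool.Agent.R223.RX.ISO

open Pool.Agent.Y282.RB.A2
open Pool.Agent.R223.RD (Cc)

/-- Plancherel for the iterated Wirtinger derivatives -/
theorem planch (j : ℕ) (u : 𝓢(ℂ, ℂ)) : ∫ z, ‖(dd^[j] u) z‖ ^ 2 = ∫ z, ‖(db^[j] u) z‖ ^ 2 := by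
  rw [← SchwartzMap.integral_norm_sq_fourier (dd^[j] u),
    ← SchwartzMap.integral_norm_sq_fourier (db^[j] u)]
  refine integral_congr_ae (Eventually.of_forall fun ξ => ?_)
  simp only []
  rw [four_db_iter, four_dd_iter]
  congr 1
  rw [norm_mul, norm_mul, norm_pow, norm_pow, norm_mul, norm_mul (Real.pi * Complex.I : ℂ) ξ,
    RCLike.norm_conj]

theorem HH_zero {n : ℕ} {h : ℝ → ℂ} {R : ℝ} (hR : ∀ x, R ≤ x → h x = 0) (j : ℕ) :
    ∀ x, R < x → HH n h j x = 0 := by
  induction j with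
  | zero => exact fun x hx => hR x hx.le
  | succ j ih =>
    intro x hx
    have h1 : deriv (HH n h j) x = 0 := by
      have h2 : HH n h j =ᶠ[𝓝 x] fun _ => (0 : ℂ) := by
        filter_upwards [Ioi_mem_nhds hx] with y hy
        exact ih y hy
      rw [h2.deriv_eq]
      simp
    show ((n - j : ℕ) : ℂ) * HH n h j x + (x : ℂ) * deriv (HH n h j) x = 0
    rw [ih x hx, h1, mul_zero, mul_zero, add_zero]

theorem memLp_half (b : ℝ → ℂ) (hb : Continuous b) (R : ℝ) (hR : ∀ x, R < x → b x = 0) :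
    MemLp b 2 mu := by
  have h1 : MemLp (indicator (Icc 0 R) b) 2 (volume : Measure ℝ) := by
    rw [memLp_indicator_iff_restrict measurableSet_Icc]
    obtain ⟨C, hC⟩ := (isCompact_Icc (a := (0 : ℝ)) (b := R)).exists_bound_of_continuousOn
      hb.continuousOn
    haveI : IsFiniteMeasure ((volume : Measure ℝ).restrict (Icc 0 R)) :=
      ⟨by rw [Measure.restrict_apply_univ]; exact isCompact_Icc.measure_lt_top⟩
    exact MemLp.of_bound hb.aestronglyMeasurable C
      ((ae_restrict_iff' measurableSet_Icc).2 (Eventually.of_forall hC))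
  have h2 : MemLp (indicator (Icc 0 R) b) 2 mu := h1.restrict _
  refine (memLp_congr_ae ?_).1 h2
  refine (ae_restrict_iff' measurableSet_Ioi).2 (Eventually.of_forall fun x hx => ?_)
  by_cases hxR : x ≤ R
  · exact Set.indicator_of_mem (s := Icc 0 R) ⟨le_of_lt hx, hxR⟩ b
  · rw [indicator_of_notMem (fun hc => hxR hc.2), hR x (not_le.1 hxR)]

theorem eLp_eq (b : ℝ → ℂ) (hb : MemLp b 2 mu) :
    eLpNorm b 2 mu = ENNReal.ofReal ((∫ x in Ioi (0 : ℝ), ‖b x‖ ^ 2) ^ ((1 : ℝ) / 2)) := by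
  rw [hb.eLpNorm_eq_integral_rpow_norm (by norm_num) (by norm_num)]
  have e : (2 : ENNReal).toReal = 2 := by norm_num
  rw [e]
  congr 1
  rw [one_div]
  congr 1
  refine integral_congr_ae (Eventually.of_forall fun x => ?_)
  exact Real.rpow_two _

theorem main : S_ISO := by
  intro hker j m a hj hm ha
  obtain ⟨has, δ, R, hδ, hδR, ha1, ha2⟩ := ha
  set e : ℝ := (j : ℝ) + (m : ℝ) / 2 with he
  have he0 : 0 ≤ e := by positivity
  set ψ : ℝ → ℂ := fun s => ((s ^ (-e) : ℝ) : ℂ) * a s with hψ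
  have hψs : ContDiff ℝ ∞ ψ := by
    rw [contDiff_iff_contDiffAt]
    intro x
    rcases lt_or_ge x δ with hx | hx
    · refine (contDiffAt_const (c := (0 : ℂ))).congr_of_eventuallyEq ?_
      filter_upwards [Iio_mem_nhds hx] with y hy
      simp only [hψ]
      rw [ha1 y (le_of_lt hy), mul_zero]
    · have hx0 : 0 < x := by linarith
      refine ContDiffAt.mul ?_ has.contDiffAt
      exact Complex.ofRealCLM.contDiff.contDiffAt.comp x
        (Real.contDiffAt_rpow_const_of_ne hx0.ne')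
  have hψc : HasCompactSupport ψ := by
    refine HasCompactSupport.intro (isCompact_Icc (a := δ) (b := R)) fun x hx => ?_
    simp only [hψ]
    by_cases h1 : x ≤ δ
    · rw [ha1 x h1, mul_zero]
    · by_cases h2 : R ≤ x
      · rw [ha2 x h2, mul_zero]
      · push Not at h1 h2
        exact absurd ⟨h1.le, h2.le⟩ hx
  obtain ⟨h, hh1, ⟨R', hR'⟩, hh2⟩ := Pool.Agent.Y282.RB.A1.main j ψ hψs hψc
  obtain ⟨u, hu⟩ := Pool.Agent.R892.BR.exists_schwartz (j + m) h hh1 R' hR'
  have hafun : (fun s : ℝ => ((s ^ e : ℝ) : ℂ) * iteratedDeriv j h s) = a := by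
    funext s
    rw [hh2]
    simp only [hψ]
    by_cases hs : s ≤ δ
    · rw [ha1 s hs, mul_zero, mul_zero]
    · have hs0 : 0 < s := by push Not at hs; linarith
      rw [← mul_assoc, ← Complex.ofReal_mul, ← Real.rpow_add hs0, add_neg_cancel, Real.rpow_zero,
        Complex.ofReal_one, one_mul]
  -- the function `b`
  set b : ℝ → ℂ := fun t => ((t ^ ((m : ℝ) / 2) : ℝ) : ℂ) * HH (j + m) h j t with hb
  have hopA : opA (kk j m) a =ᵐ[mu] b := by
    refine (ae_restrict_iff' measurableSet_Ioi).2 (Eventually.of_forall fun t ht => ?_)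
    have := hker j m h hj hh1 ⟨R', hR'⟩ t ht
    rw [hafun] at this
    exact this.symm
  have hbc : Continuous b := by
    have h1 : Continuous (fun s : ℝ => s ^ ((m : ℝ) / 2)) := Real.continuous_rpow_const (by positivity)
    exact (Complex.continuous_ofReal.comp h1).mul (HH_smooth (j + m) hh1 j).continuous
  have hbm : MemLp b 2 mu := memLp_half b hbc R' fun x hx => by
    simp only [hb]
    rw [HH_zero hR' j x hx, mul_zero]
  have ham : MemLp a 2 mu := memLp_half a has.continuous R fun x hx => ha2 x hx.le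
  have hdd : ∀ z, ‖(dd^[j] u) z‖ ^ 2 =
      (fun x : ℝ => x ^ m * ‖HH (j + m) h j x‖ ^ 2) (Complex.normSq z) := by
    intro z
    rw [dd_iter hh1 hu j (Nat.le_add_right _ _) z, Nat.add_sub_cancel_left, norm_mul, norm_pow,
      mul_pow, ← pow_mul, mul_comm m 2, pow_mul, ← Complex.normSq_eq_norm_sq]
  have hdb : ∀ z, ‖(db^[j] u) z‖ ^ 2 =
      (fun x : ℝ => x ^ (2 * j + m) * ‖ψ x‖ ^ 2) (Complex.normSq z) := by
    intro z
    rw [db_iter hh1 hu j z, hh2, norm_mul, norm_pow,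
      mul_pow, ← pow_mul, mul_comm (j + m + j) 2, pow_mul, ← Complex.normSq_eq_norm_sq]
    have e1 : j + m + j = 2 * j + m := by ring
    rw [e1]
  have hP := planch j u
  have hI1 : ∫ z, ‖(dd^[j] u) z‖ ^ 2 =
      Real.pi * ∫ x in Ioi (0 : ℝ), x ^ m * ‖HH (j + m) h j x‖ ^ 2 := by
    rw [← Pool.Agent.R223.RD.PC.int_normSq (fun x : ℝ => x ^ m * ‖HH (j + m) h j x‖ ^ 2)]
    exact integral_congr_ae (Eventually.of_forall hdd)
  have hI2 : ∫ z, ‖(db^[j] u) z‖ ^ 2 =
      Real.pi * ∫ x in Ioi (0 : ℝ), x ^ (2 * j + m) * ‖ψ x‖ ^ 2 := by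
    rw [← Pool.Agent.R223.RD.PC.int_normSq (fun x : ℝ => x ^ (2 * j + m) * ‖ψ x‖ ^ 2)]
    exact integral_congr_ae (Eventually.of_forall hdb)
  rw [hI1, hI2] at hP
  have hP2 := mul_left_cancel₀ Real.pi_ne_zero hP
  have hB : ∫ x in Ioi (0 : ℝ), ‖b x‖ ^ 2 = ∫ x in Ioi (0 : ℝ), x ^ m * ‖HH (j + m) h j x‖ ^ 2 := by
    refine setIntegral_congr_fun measurableSet_Ioi fun x hx => ?_
    have hx0 : (0 : ℝ) < x := hx
    simp only [hb]
    rw [norm_mul, mul_pow, Complex.norm_real, Real.norm_of_nonneg (Real.rpow_nonneg hx0.le _)]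
    congr 1
    rw [← Real.rpow_natCast, ← Real.rpow_mul hx0.le, ← Real.rpow_natCast x m]
    congr 1
    push_cast
    ring
  have hA : ∫ x in Ioi (0 : ℝ), ‖a x‖ ^ 2 = ∫ x in Ioi (0 : ℝ), x ^ (2 * j + m) * ‖ψ x‖ ^ 2 := by
    refine setIntegral_congr_fun measurableSet_Ioi fun x hx => ?_
    have hx0 : (0 : ℝ) < x := hx
    simp only [hψ]
    rw [norm_mul, mul_pow, Complex.norm_real, Real.norm_of_nonneg (Real.rpow_nonneg hx0.le _),
      ← mul_assoc, ← Real.rpow_natCast (x ^ (-e)) 2, ← Real.rpow_mul hx0.le,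
      ← Real.rpow_natCast x (2 * j + m), ← Real.rpow_add hx0]
    have e1 : ((2 * j + m : ℕ) : ℝ) + -e * ((2 : ℕ) : ℝ) = 0 := by
      rw [he]
      push_cast
      ring
    rw [e1, Real.rpow_zero, one_mul]
  rw [eLpNorm_congr_ae hopA, eLp_eq b hbm, eLp_eq a ham, hA, hB, hP2]

end Pool.Agent.R223.RX.ISO
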