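import Pool.Agent.R223.RX.Stm

set_option autoImplicit false

/-!
# RX-KER: the kernel formula
-/

open MeasureTheory Set Filter Topology

namespace Pool.Agent.R223.RX.KER

open Pool.Agent.Y282.RB.A2 (HH HH_smooth)

/-- the moments of the translates -/
noncomputable def J (k : ℕ) (F : ℝ → ℂ) (t : ℝ) : ℂ :=
  ∫ y in Ioi (0 : ℝ), (y : ℂ) ^ k * F (t * (1 + y))

lemma shift_zero {F : ℝ → ℂ} {R : ℝ} (hR : ∀ x, R ≤ x → F x = 0) {t : ℝ} (ht : 0 < t) {y : ℝ}
    (hy : |R| / t ≤ y) : F (t * (1 + y)) = 0 := by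
  apply hR
  have h1 : |R| ≤ y * t := by rwa [div_le_iff₀ ht] at hy
  nlinarith [le_abs_self R]

lemma integrable_J {F : ℝ → ℂ} (hF : Continuous F) {R : ℝ} (hR : ∀ x, R ≤ x → F x = 0)
    {t : ℝ} (ht : 0 < t) (k : ℕ) :
    IntegrableOn (fun y : ℝ => (y : ℂ) ^ k * F (t * (1 + y))) (Ioi (0 : ℝ)) := by
  have hcont : Continuous (fun y : ℝ => (y : ℂ) ^ k * F (t * (1 + y))) := by fun_prop
  have h1 : IntegrableOn (fun y : ℝ => (y : ℂ) ^ k * F (t * (1 + y))) (Icc 0 (|R| / t)) :=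
    hcont.continuousOn.integrableOn_Icc
  have h2 : IntegrableOn (fun y : ℝ => (y : ℂ) ^ k * F (t * (1 + y))) (Ioi (|R| / t)) := by
    have h0 : IntegrableOn (fun _ : ℝ => (0 : ℂ)) (Ioi (|R| / t)) := integrableOn_zero
    refine h0.congr_fun (fun y hy => ?_) measurableSet_Ioi
    change 0 = (y : ℂ) ^ k * F (t * (1 + y))
    rw [shift_zero hR ht (le_of_lt hy), mul_zero]
  refine (h1.union h2).mono_set ?_
  intro y hy
  by_cases h : y ≤ |R| / t
  · exact Or.inl ⟨le_of_lt hy, h⟩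
  · exact Or.inr (not_le.mp h)

lemma deriv_vanish {F : ℝ → ℂ} {R : ℝ} (hR : ∀ x, R ≤ x → F x = 0) :
    ∀ x, R + 1 ≤ x → deriv F x = 0 := by
  intro x hx
  have h : F =ᶠ[𝓝 x] fun _ => (0 : ℂ) := by
    filter_upwards [lt_mem_nhds (show R < x by linarith)] with y hy
    exact hR y (le_of_lt hy)
  rw [h.deriv_eq]
  simp

lemma ibp {F : ℝ → ℂ} (hF : ContDiff ℝ 1 F) {R : ℝ} (hR : ∀ x, R ≤ x → F x = 0)
    {t : ℝ} (ht : 0 < t) (k : ℕ) :
    (k : ℂ) * (∫ y in Ioi (0 : ℝ), (y : ℂ) ^ (k - 1) * F (t * (1 + y))) +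
      (t : ℂ) * J k (deriv F) t = - ((0 : ℂ) ^ k * F t) := by
  have hFc : Continuous F := hF.continuous
  have hFd : Differentiable ℝ F := hF.differentiable (by norm_num)
  have hF' : Continuous (deriv F) := hF.continuous_deriv (by norm_num)
  have i1 := (integrable_J hFc hR ht (k - 1)).const_mul (k : ℂ)
  have i2 := (integrable_J hF' (deriv_vanish hR) ht k).const_mul (t : ℂ)
  have hder : ∀ y : ℝ, HasDerivAt (fun y : ℝ => (y : ℂ) ^ k * F (t * (1 + y)))
      ((k : ℂ) * ((y : ℂ) ^ (k - 1) * F (t * (1 + y))) +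
        (t : ℂ) * ((y : ℂ) ^ k * deriv F (t * (1 + y)))) y := by
    intro y
    have h1 : HasDerivAt (fun y : ℝ => (y : ℂ) ^ k) ((k : ℂ) * (y : ℂ) ^ (k - 1)) y := by
      have := (hasDerivAt_pow k (y : ℂ)).comp_ofReal
      exact this
    have h2 : HasDerivAt (fun y : ℝ => t * (1 + y)) t y := by
      have := ((hasDerivAt_id y).const_add 1).const_mul t
      simpa using this
    have h3 : HasDerivAt (fun y : ℝ => F (t * (1 + y))) (t • deriv F (t * (1 + y))) y :=
      HasDerivAt.scomp y (hFd _).hasDerivAt h2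
    have h4 := h1.mul h3
    refine h4.congr_deriv ?_
    rw [Complex.real_smul]
    ring
  have hint := integral_Ioi_of_hasDerivAt_of_tendsto
    (f := fun y : ℝ => (y : ℂ) ^ k * F (t * (1 + y)))
    (f' := fun y : ℝ => (k : ℂ) * ((y : ℂ) ^ (k - 1) * F (t * (1 + y))) +
        (t : ℂ) * ((y : ℂ) ^ k * deriv F (t * (1 + y)))) (a := 0) (m := 0)
    (hder 0).continuousAt.continuousWithinAt (fun x _ => hder x) (i1.add i2) (by
      apply tendsto_const_nhds.congr'
      filter_upwards [eventually_ge_atTop (|R| / t)] with y hy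
      rw [shift_zero hR ht hy, mul_zero])
  rw [integral_add i1 i2, integral_const_mul, integral_const_mul] at hint
  unfold J
  rw [hint]
  simp

lemma vanish_iter {h : ℝ → ℂ} {R : ℝ} (hR : ∀ x, R ≤ x → h x = 0) (i : ℕ) :
    ∃ R' : ℝ, ∀ x, R' ≤ x → iteratedDeriv i h x = 0 := by
  induction i with
  | zero => exact ⟨R, fun x hx => by rw [iteratedDeriv_zero]; exact hR x hx⟩
  | succ i ih =>
    obtain ⟨R', h1⟩ := ih
    refine ⟨R' + 1, ?_⟩
    rw [iteratedDeriv_succ]
    exact deriv_vanish h1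

lemma smooth_iter {h : ℝ → ℂ} (hh : ContDiff ℝ (⊤ : ℕ∞) h) (i : ℕ) :
    ContDiff ℝ (⊤ : ℕ∞) (iteratedDeriv i h) := by
  induction i with
  | zero => rw [iteratedDeriv_zero]; exact hh
  | succ i ih =>
    rw [iteratedDeriv_succ]
    exact ((contDiff_infty_iff_deriv (f := iteratedDeriv i h)).1 ih).2

/-- Taylor formula at infinity -/
lemma taylor {g : ℝ → ℂ} (hg : ContDiff ℝ (⊤ : ℕ∞) g) {R : ℝ} (hR : ∀ x, R ≤ x → g x = 0)
    {t : ℝ} (ht : 0 < t) (i : ℕ) :
    (t : ℂ) ^ (i + 1) * J i (iteratedDeriv (i + 1) g) t = (-1) ^ (i + 1) * (i.factorial : ℂ) * g t := by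
  induction i with
  | zero =>
    have h1 := ibp (hg.of_le (by exact_mod_cast le_top)) hR ht 0
    rw [zero_add, iteratedDeriv_one]
    simp only [Nat.cast_zero, zero_mul, zero_add, pow_zero, one_mul] at h1
    simp only [Nat.factorial_zero, Nat.cast_one, pow_one]
    rw [h1]
    ring
  | succ i ih =>
    obtain ⟨R', hR'⟩ := vanish_iter hR (i + 1)
    have h1 := ibp ((smooth_iter hg (i + 1)).of_le (by exact_mod_cast le_top)) hR' ht (i + 1)
    rw [iteratedDeriv_succ (n := i + 1)]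
    rw [Nat.add_sub_cancel, zero_pow (Nat.succ_ne_zero i), zero_mul, neg_zero] at h1
    change ((i + 1 : ℕ) : ℂ) * J i (iteratedDeriv (i + 1) g) t + _ = 0 at h1
    have h2 : (t : ℂ) * J (i + 1) (deriv (iteratedDeriv (i + 1) g)) t =
        - (((i + 1 : ℕ) : ℂ) * J i (iteratedDeriv (i + 1) g) t) := by
      linear_combination h1
    rw [pow_succ, mul_assoc, h2, Nat.factorial_succ]
    push_cast
    linear_combination (-((i : ℂ) + 1)) * ih

lemma taylor' {h : ℝ → ℂ} (hh : ContDiff ℝ (⊤ : ℕ∞) h) {R : ℝ} (hR : ∀ x, R ≤ x → h x = 0)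
    {t : ℝ} (ht : 0 < t) (j i : ℕ) (hi : i < j) :
    (t : ℂ) ^ (i + 1) * J i (iteratedDeriv j h) t =
      (-1) ^ (i + 1) * (i.factorial : ℂ) * iteratedDeriv (j - 1 - i) h t := by
  obtain ⟨R', hR'⟩ := vanish_iter hR (j - 1 - i)
  have h1 := taylor (smooth_iter hh (j - 1 - i)) hR' ht i
  have h2 : iteratedDeriv (i + 1) (iteratedDeriv (j - 1 - i) h) = iteratedDeriv j h := by
    rw [iteratedDeriv_eq_iterate, iteratedDeriv_eq_iterate, iteratedDeriv_eq_iterate,
      ← Function.iterate_add_apply]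
    congr 2
    omega
  rw [h2] at h1
  exact h1

/-- Leibniz formula -/
lemma leib {h : ℝ → ℂ} (hh : ContDiff ℝ (⊤ : ℕ∞) h) (n j : ℕ) (hj : j ≤ n) (t : ℝ) :
    HH n h j t = ∑ l ∈ Finset.range (j + 1), ((j.choose l : ℂ) * (n.descFactorial (j - l) : ℂ)) *
      ((t : ℂ) ^ l * iteratedDeriv l h t) := by
  induction j generalizing t with
  | zero => simp [HH]
  | succ j ih =>
    have h1 : HH n h j = fun t : ℝ => ∑ l ∈ Finset.range (j + 1),
        ((j.choose l : ℂ) * (n.descFactorial (j - l) : ℂ)) *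
        ((t : ℂ) ^ l * iteratedDeriv l h t) := funext fun t => ih (by omega) t
    have hd : ∀ l : ℕ, HasDerivAt (fun t : ℝ => (t : ℂ) ^ l * iteratedDeriv l h t)
        ((l : ℂ) * (t : ℂ) ^ (l - 1) * iteratedDeriv l h t +
          (t : ℂ) ^ l * iteratedDeriv (l + 1) h t) t := by
      intro l
      have h1 : HasDerivAt (fun y : ℝ => (y : ℂ) ^ l) ((l : ℂ) * (t : ℂ) ^ (l - 1)) t := by
        have := (hasDerivAt_pow l (t : ℂ)).comp_ofReal
        exact this
      have h2 : HasDerivAt (iteratedDeriv l h) (iteratedDeriv (l + 1) h t) t := by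
        rw [iteratedDeriv_succ]
        exact ((smooth_iter hh l).differentiable (by norm_num) t).hasDerivAt
      exact h1.mul h2
    have h2 : HasDerivAt (HH n h j) (∑ l ∈ Finset.range (j + 1),
        ((j.choose l : ℂ) * (n.descFactorial (j - l) : ℂ)) *
        ((l : ℂ) * (t : ℂ) ^ (l - 1) * iteratedDeriv l h t +
          (t : ℂ) ^ l * iteratedDeriv (l + 1) h t)) t := by
      rw [h1]
      exact HasDerivAt.fun_sum fun l _ => (hd l).const_mul _
    change ((n - j : ℕ) : ℂ) * HH n h j t + (t : ℂ) * deriv (HH n h j) t = _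
    rw [h2.deriv, ih (by omega) t, Finset.mul_sum, Finset.mul_sum, ← Finset.sum_add_distrib]
    have h3 : ∀ l ∈ Finset.range (j + 1),
        ((n - j : ℕ) : ℂ) * (((j.choose l : ℂ) * (n.descFactorial (j - l) : ℂ)) *
          ((t : ℂ) ^ l * iteratedDeriv l h t)) +
        (t : ℂ) * (((j.choose l : ℂ) * (n.descFactorial (j - l) : ℂ)) *
          ((l : ℂ) * (t : ℂ) ^ (l - 1) * iteratedDeriv l h t +
          (t : ℂ) ^ l * iteratedDeriv (l + 1) h t)) =
        ((j.choose l : ℂ) * (n.descFactorial (j + 1 - l) : ℂ)) *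
          ((t : ℂ) ^ l * iteratedDeriv l h t) +
        ((j.choose l : ℂ) * (n.descFactorial (j - l) : ℂ)) *
          ((t : ℂ) ^ (l + 1) * iteratedDeriv (l + 1) h t) := by
      intro l hl
      rw [Finset.mem_range] at hl
      have e1 : j + 1 - l = (j - l) + 1 := by omega
      have e2 : (n.descFactorial (j + 1 - l) : ℂ) =
          (((n - j : ℕ) : ℂ) + l) * (n.descFactorial (j - l) : ℂ) := by
        rw [e1, Nat.descFactorial_succ]
        have e3 : n - (j - l) = (n - j) + l := by omega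
        rw [e3]
        push_cast
        ring
      rw [e2]
      rcases Nat.eq_zero_or_pos l with h0 | h0
      · subst h0
        simp
        ring
      · have e4 : (t : ℂ) ^ l = (t : ℂ) ^ (l - 1) * t := by
          rw [← pow_succ]
          congr 1
          omega
        rw [pow_succ, e4]
        ring
    rw [Finset.sum_congr rfl h3, Finset.sum_add_distrib]
    -- the right hand side
    rw [Finset.sum_range_succ' (fun l => (((j + 1).choose l : ℂ) *
      (n.descFactorial (j + 1 - l) : ℂ)) * ((t : ℂ) ^ l * iteratedDeriv l h t)) (j + 1)]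
    have h4 : ∀ l ∈ Finset.range (j + 1),
        (((j + 1).choose (l + 1) : ℂ) * (n.descFactorial (j + 1 - (l + 1)) : ℂ)) *
          ((t : ℂ) ^ (l + 1) * iteratedDeriv (l + 1) h t) =
        ((j.choose (l + 1) : ℂ) * (n.descFactorial (j + 1 - (l + 1)) : ℂ)) *
          ((t : ℂ) ^ (l + 1) * iteratedDeriv (l + 1) h t) +
        ((j.choose l : ℂ) * (n.descFactorial (j - l) : ℂ)) *
          ((t : ℂ) ^ (l + 1) * iteratedDeriv (l + 1) h t) := by
      intro l _
      rw [Nat.choose_succ_succ, Nat.add_sub_add_right]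
      push_cast
      ring
    rw [Finset.sum_congr rfl h4, Finset.sum_add_distrib]
    have h5 : ∑ l ∈ Finset.range (j + 1), ((j.choose l : ℂ) * (n.descFactorial (j + 1 - l) : ℂ)) *
          ((t : ℂ) ^ l * iteratedDeriv l h t) =
        ∑ l ∈ Finset.range (j + 1),
          ((j.choose (l + 1) : ℂ) * (n.descFactorial (j + 1 - (l + 1)) : ℂ)) *
          ((t : ℂ) ^ (l + 1) * iteratedDeriv (l + 1) h t) +
        (((j + 1).choose 0 : ℂ) * (n.descFactorial (j + 1 - 0) : ℂ)) *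
          ((t : ℂ) ^ 0 * iteratedDeriv 0 h t) := by
      rw [Finset.sum_range_succ' (fun l => ((j.choose l : ℂ) *
        (n.descFactorial (j + 1 - l) : ℂ)) * ((t : ℂ) ^ l * iteratedDeriv l h t)) j,
        Finset.sum_range_succ (fun l => ((j.choose (l + 1) : ℂ) *
        (n.descFactorial (j + 1 - (l + 1)) : ℂ)) *
          ((t : ℂ) ^ (l + 1) * iteratedDeriv (l + 1) h t)) j]
      simp
    rw [h5]
    ring

theorem main : S_KER := by
  intro j m h hj hh ⟨R, hR⟩ t ht
  obtain ⟨R', hR'⟩ := vanish_iter hR j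
  have hcont : Continuous (iteratedDeriv j h) := (smooth_iter hh j).continuous
  -- the right hand side
  have hrhs : opA (kk j m) (fun s => ((s ^ ((j : ℝ) + (m : ℝ) / 2) : ℝ) : ℂ) *
      iteratedDeriv j h s) t = ((t ^ ((j : ℝ) + (m : ℝ) / 2) : ℝ) : ℂ) *
      (iteratedDeriv j h t - ∑ i ∈ Finset.range j, ((((-1 : ℝ) ^ i * (((i : ℝ) + 1) *
        (j.choose (i + 1)) * ((j + m).choose (i + 1))) : ℝ)) : ℂ) *
          J i (iteratedDeriv j h) t) := by
    unfold opA
    rw [mul_sub]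
    congr 1
    have e1 : ∀ y ∈ Ioi (0 : ℝ), (kk j m y : ℂ) *
        ((((t * (1 + y)) ^ ((j : ℝ) + (m : ℝ) / 2) : ℝ) : ℂ) *
          iteratedDeriv j h (t * (1 + y))) =
        ((t ^ ((j : ℝ) + (m : ℝ) / 2) : ℝ) : ℂ) * ∑ i ∈ Finset.range j,
          ((((-1 : ℝ) ^ i * (((i : ℝ) + 1) *
        (j.choose (i + 1)) * ((j + m).choose (i + 1))) : ℝ)) : ℂ) *
          ((y : ℂ) ^ i * iteratedDeriv j h (t * (1 + y))) := by
      intro y hy
      have hy' : 0 < y := hy
      have h1 : (0 : ℝ) < 1 + y := by linarith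
      rw [Real.mul_rpow ht.le h1.le]
      unfold kk
      have h2 : (1 + y) ^ (-((j : ℝ) + (m : ℝ) / 2)) * (1 + y) ^ ((j : ℝ) + (m : ℝ) / 2) = 1 := by
        rw [← Real.rpow_add h1, neg_add_cancel, Real.rpow_zero]
      have h3 : (((1 + y) ^ (-((j : ℝ) + (m : ℝ) / 2)) : ℝ) : ℂ) *
          (((1 + y) ^ ((j : ℝ) + (m : ℝ) / 2) : ℝ) : ℂ) = 1 := by
        rw [← Complex.ofReal_mul, h2, Complex.ofReal_one]
      have h4 : ∑ i ∈ Finset.range j, ((((-1 : ℝ) ^ i * (((i : ℝ) + 1) *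
          (j.choose (i + 1)) * ((j + m).choose (i + 1))) : ℝ)) : ℂ) *
          ((y : ℂ) ^ i * iteratedDeriv j h (t * (1 + y))) =
          ((GG j m y : ℝ) : ℂ) * iteratedDeriv j h (t * (1 + y)) := by
        unfold GG
        rw [Complex.ofReal_sum, Finset.sum_mul]
        apply Finset.sum_congr rfl
        intro i _
        rw [Complex.ofReal_mul ((-1 : ℝ) ^ i * (((i : ℝ) + 1) *
          (j.choose (i + 1)) * ((j + m).choose (i + 1)))) (y ^ i), Complex.ofReal_pow y i]
        ring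
      rw [h4, Complex.ofReal_mul, Complex.ofReal_mul (t ^ ((j : ℝ) + (m : ℝ) / 2))]
      linear_combination ((((t ^ ((j : ℝ) + (m : ℝ) / 2) : ℝ)) : ℂ) * ((GG j m y : ℝ) : ℂ) *
        iteratedDeriv j h (t * (1 + y))) * h3
    rw [setIntegral_congr_fun measurableSet_Ioi e1, integral_const_mul,
      integral_finsetSum _ (fun i _ => (integrable_J hcont hR' ht i).const_mul _)]
    congr 1
    apply Finset.sum_congr rfl
    intro i _
    rw [integral_const_mul]
    rfl
  rw [hrhs, leib hh (j + m) j (by omega) t]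
  have hpow : ((t ^ ((j : ℝ) + (m : ℝ) / 2) : ℝ) : ℂ) =
      ((t ^ ((m : ℝ) / 2) : ℝ) : ℂ) * (t : ℂ) ^ j := by
    rw [Real.rpow_add ht, Real.rpow_natCast]
    push_cast
    ring
  have e2 : ∀ i ∈ Finset.range j,
      ((j.choose (j - 1 - i) : ℂ) * ((j + m).descFactorial (j - (j - 1 - i)) : ℂ)) *
        ((t : ℂ) ^ (j - 1 - i) * iteratedDeriv (j - 1 - i) h t) =
      - ((t : ℂ) ^ j * (((((-1 : ℝ) ^ i * (((i : ℝ) + 1) *
        (j.choose (i + 1)) * ((j + m).choose (i + 1))) : ℝ)) : ℂ) *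
          J i (iteratedDeriv j h) t)) := by
    intro i hi
    rw [Finset.mem_range] at hi
    have h1 := taylor' hh hR ht j i hi
    have e3 : j - (j - 1 - i) = i + 1 := by omega
    have e4 : j.choose (j - 1 - i) = j.choose (i + 1) := by
      rw [← Nat.choose_symm (show i + 1 ≤ j by omega)]
      congr 1
      omega
    have e5 : (t : ℂ) ^ j = (t : ℂ) ^ (j - 1 - i) * (t : ℂ) ^ (i + 1) := by
      rw [← pow_add]
      congr 1
      omega
    have e6 : ((j + m).descFactorial (i + 1) : ℂ) =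
        ((i : ℂ) + 1) * (i.factorial : ℂ) * ((j + m).choose (i + 1) : ℂ) := by
      rw [Nat.descFactorial_eq_factorial_mul_choose, Nat.factorial_succ]
      push_cast
      ring
    rw [e3, e4, e5, e6]
    push_cast
    have h2 : ((-1 : ℂ)) ^ i * (-1) ^ i = 1 := by
      rw [← mul_pow]
      norm_num
    have h3 : ((-1 : ℂ)) ^ (i + 1) = - (-1) ^ i := by ring
    rw [h3] at h1
    linear_combination ((t : ℂ) ^ (j - 1 - i) * (-1 : ℂ) ^ i * ((i : ℂ) + 1) *
      (j.choose (i + 1) : ℂ) * ((j + m).choose (i + 1) : ℂ)) * h1 -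
      (((i : ℂ) + 1) * (i.factorial : ℂ) * (j.choose (i + 1) : ℂ) *
        ((j + m).choose (i + 1) : ℂ) * (t : ℂ) ^ (j - 1 - i) *
        iteratedDeriv (j - 1 - i) h t) * h2
  have hsum : ∑ l ∈ Finset.range (j + 1), ((j.choose l : ℂ) *
      ((j + m).descFactorial (j - l) : ℂ)) * ((t : ℂ) ^ l * iteratedDeriv l h t) =
      (t : ℂ) ^ j * (iteratedDeriv j h t - ∑ i ∈ Finset.range j,
        ((((-1 : ℝ) ^ i * (((i : ℝ) + 1) *
        (j.choose (i + 1)) * ((j + m).choose (i + 1))) : ℝ)) : ℂ) *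
          J i (iteratedDeriv j h) t) := by
    rw [Finset.sum_range_succ, ← Finset.sum_range_reflect, Finset.sum_congr rfl e2,
      Finset.sum_neg_distrib, ← Finset.mul_sum, Nat.sub_self,
      Nat.choose_self, Nat.descFactorial_zero]
    push_cast
    ring
  rw [hsum, hpow, mul_assoc]

end Pool.Agent.R223.RX.KER
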