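import Pool.Agent.R223.RX.Stm

/-!
# RX-L1: the `L^1` bound of the kernel
-/

set_option autoImplicit false

open MeasureTheory Set Filter Topology

namespace Pool.Agent.R223.RX.L1

theorem kk_cont (j m : ℕ) : ContinuousOn (kk j m) (Ioi (0 : ℝ)) := by
  unfold kk GG
  apply ContinuousOn.mul
  · apply ContinuousOn.rpow_const
    · fun_prop
    · intro y hy
      left
      have : (0 : ℝ) < y := hy
      linarith
  · apply Continuous.continuousOn
    fun_prop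

/-- domination on a piece -/
theorem piece {f g : ℝ → ℝ} {s : Set ℝ} (hs : MeasurableSet s) (hsub : s ⊆ Ioi 0)
    (hf : ContinuousOn f (Ioi (0 : ℝ))) (hg : IntegrableOn g s) (hfg : ∀ y ∈ s, |f y| ≤ g y) :
    IntegrableOn f s ∧ ∫ y in s, |f y| ≤ ∫ y in s, g y := by
  have hm : AEStronglyMeasurable f (volume.restrict s) :=
    (hf.mono hsub).aestronglyMeasurable hs
  have hi : IntegrableOn f s := by
    refine Integrable.mono' hg hm ?_
    refine (ae_restrict_iff' hs).2 (Eventually.of_forall fun y hy => ?_)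
    rw [Real.norm_eq_abs]
    exact hfg y hy
  exact ⟨hi, setIntegral_mono_on hi.abs hg hs hfg⟩

/-- `j = 1` -/
theorem one (m : ℕ) (hm : 1 ≤ m) :
    IntegrableOn (kk 1 m) (Ioi (0 : ℝ)) ∧ ∫ y in Ioi (0 : ℝ), |kk 1 m y| ≤ 11 / 2 := by
  have hm' : (1 : ℝ) ≤ m := by exact_mod_cast hm
  have he : ∀ y : ℝ, kk 1 m y = (1 + (m : ℝ)) * (1 + y) ^ (-(1 + (m : ℝ) / 2)) := by
    intro y
    unfold kk GG
    rw [Finset.sum_range_one]
    simp
    ring
  have hshift : ∀ y ∈ Ioi (0 : ℝ), (1 + y) ^ (-(1 + (m : ℝ) / 2)) = (y + 1) ^ (-(1 + (m : ℝ) / 2)) := by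
    intro y _
    rw [add_comm]
  have hder : ∀ x ∈ Ici (0 : ℝ), HasDerivAt
      (fun y : ℝ => -((1 + (m : ℝ)) * (2 / m)) * (1 + y) ^ (-((m : ℝ) / 2)))
      ((1 + (m : ℝ)) * (1 + x) ^ (-(1 + (m : ℝ) / 2))) x := by
    intro x hx
    have hx0 : (0 : ℝ) ≤ x := hx
    have h1 : HasDerivAt (fun y : ℝ => 1 + y) 1 x := (hasDerivAt_id x).const_add 1
    have h2 := (h1.rpow_const (p := -((m : ℝ) / 2)) (Or.inl (by linarith))).const_mul
      (-((1 + (m : ℝ)) * (2 / m)))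
    refine h2.congr_deriv ?_
    have e : -((m : ℝ) / 2) - 1 = -(1 + (m : ℝ) / 2) := by ring
    rw [e]
    field_simp
  have hpos : ∀ x ∈ Ioi (0 : ℝ), 0 ≤ (1 + (m : ℝ)) * (1 + x) ^ (-(1 + (m : ℝ) / 2)) := by
    intro x hx
    have : (0 : ℝ) < x := hx
    positivity
  have hlim : Tendsto (fun y : ℝ => -((1 + (m : ℝ)) * (2 / m)) * (1 + y) ^ (-((m : ℝ) / 2))) atTop
      (𝓝 0) := by
    have h1 : Tendsto (fun y : ℝ => (1 + y) ^ (-((m : ℝ) / 2))) atTop (𝓝 0) :=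
      (tendsto_rpow_neg_atTop (by positivity)).comp (tendsto_atTop_add_const_left _ 1 tendsto_id)
    simpa using h1.const_mul (-((1 + (m : ℝ)) * (2 / m)))
  have hint := integrableOn_Ioi_deriv_of_nonneg' hder hpos hlim
  have hval := integral_Ioi_of_hasDerivAt_of_nonneg' hder hpos hlim
  have hk : kk 1 m = fun x => (1 + (m : ℝ)) * (1 + x) ^ (-(1 + (m : ℝ) / 2)) := funext he
  refine ⟨by rw [hk]; exact hint, ?_⟩
  have h2 : ∫ y in Ioi (0 : ℝ), |kk 1 m y| =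
      ∫ y in Ioi (0 : ℝ), (1 + (m : ℝ)) * (1 + y) ^ (-(1 + (m : ℝ) / 2)) := by
    apply setIntegral_congr_fun measurableSet_Ioi
    intro y hy
    simp only
    rw [he, abs_of_nonneg (hpos y hy)]
  rw [h2, hval]
  simp only [add_zero, Real.one_rpow, mul_one, zero_sub, neg_neg]
  have h3 : (1 + (m : ℝ)) * (2 / m) = 2 / m + 2 := by
    field_simp
  rw [h3]
  have h4 : 2 / (m : ℝ) ≤ 2 := by
    rw [div_le_iff₀ (by linarith)]
    linarith
  linarith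

/-- the middle pointwise bound -/
theorem mid_pt {n β δ y u : ℝ} (hn : 6 ≤ n) (hβ : 0 < β) (hδ : 0 < δ) (hδ1 : δ ≤ 1)
    (hy0 : 2 / n < y) (hy1 : y ≤ n / (8 * β))
    (h : Real.sqrt (y + δ) * (n / y - β - (1 - δ) / (8 * (y + δ)) -
      3 * (1 - δ) ^ 2 / (16 * (y + δ) ^ 2)) * u ^ 2 ≤ Real.sqrt δ * n ^ 2) :
    u ^ 2 ≤ (Real.sqrt δ * n * (96 / 73)) * Real.sqrt y := by
  have hn0 : 0 < n := by linarith
  have hy : 0 < y := lt_trans (by positivity) hy0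
  have hz : 0 < y + δ := by linarith
  have h1y : 1 / y ≤ n / 2 := by
    rw [div_lt_iff₀ hn0] at hy0
    rw [div_le_iff₀ hy]
    nlinarith
  have hb : β ≤ n / y * (1 / 8) := by
    rw [le_div_iff₀ (by positivity)] at hy1
    rw [div_mul_eq_mul_div, le_div_iff₀ hy]
    linarith
  have h2 : (1 - δ) / (8 * (y + δ)) ≤ n / y * (1 / 48) := by
    have e1 : (1 - δ) / (8 * (y + δ)) ≤ 1 / (8 * y) := by
      rw [div_le_div_iff₀ (by positivity) (by positivity)]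
      nlinarith
    have e2 : 1 / (8 * y) ≤ n / y * (1 / 48) := by
      rw [div_mul_eq_mul_div, div_le_div_iff₀ (by positivity) hy]
      nlinarith
    exact e1.trans e2
  have h3 : 3 * (1 - δ) ^ 2 / (16 * (y + δ) ^ 2) ≤ n / y * (3 / 32) := by
    have h4 : (1 - δ) ^ 2 ≤ 1 := by
      apply pow_le_one₀ <;> linarith
    have h5 : y ^ 2 ≤ (y + δ) ^ 2 := pow_le_pow_left₀ hy.le (by linarith) 2
    have e1 : 3 * (1 - δ) ^ 2 / (16 * (y + δ) ^ 2) ≤ 3 / (16 * y ^ 2) := by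
      rw [div_le_div_iff₀ (by positivity) (by positivity)]
      nlinarith [mul_le_mul h4 h5 (sq_nonneg y) zero_le_one]
    have e2 : 3 / (16 * y ^ 2) = 3 / 16 * (1 / y) * (1 / y) := by
      field_simp
    have e3 : 3 / 16 * (1 / y) * (1 / y) ≤ 3 / 16 * (1 / y) * (n / 2) :=
      mul_le_mul_of_nonneg_left h1y (by positivity)
    have e4 : 3 / 16 * (1 / y) * (n / 2) = n / y * (3 / 32) := by
      field_simp
      ring
    rw [e2] at e1
    rw [e4] at e3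
    exact e1.trans e3
  have hP : n / y * (73 / 96) ≤ n / y - β - (1 - δ) / (8 * (y + δ)) -
      3 * (1 - δ) ^ 2 / (16 * (y + δ) ^ 2) := by
    have : n / y = n / y * (73 / 96) + n / y * (1 / 8) + n / y * (1 / 48) + n / y * (3 / 32) := by
      ring
    linarith
  have hsz : Real.sqrt y ≤ Real.sqrt (y + δ) := Real.sqrt_le_sqrt (by linarith)
  have hsy : 0 < Real.sqrt y := Real.sqrt_pos.2 hy
  have hL : Real.sqrt y * (n / y * (73 / 96)) * u ^ 2 ≤ Real.sqrt δ * n ^ 2 := by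
    refine le_trans ?_ h
    apply mul_le_mul_of_nonneg_right _ (sq_nonneg _)
    exact mul_le_mul hsz hP (by positivity) (Real.sqrt_nonneg _)
  have hyy : Real.sqrt y * Real.sqrt y = y := Real.mul_self_sqrt hy.le
  have e5 : Real.sqrt y * (n / y * (73 / 96)) * u ^ 2 =
      (n * (73 / 96) / Real.sqrt y) * u ^ 2 := by
    have : Real.sqrt y * (n / y * (73 / 96)) = n * (73 / 96) / Real.sqrt y := by
      rw [eq_div_iff hsy.ne']
      calc Real.sqrt y * (n / y * (73 / 96)) * Real.sqrt y =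
          (Real.sqrt y * Real.sqrt y) * (n / y * (73 / 96)) := by ring
        _ = n * (73 / 96) := by rw [hyy]; field_simp
    rw [this]
  rw [e5, div_mul_eq_mul_div, div_le_iff₀ hsy] at hL
  have h6 : n * (73 / 96) * u ^ 2 ≤ n * (73 / 96) * ((Real.sqrt δ * n * (96 / 73)) * Real.sqrt y) := by
    refine hL.trans (le_of_eq ?_)
    ring
  exact le_of_mul_le_mul_left h6 (by positivity)

/-- the third pointwise bound -/
theorem far_pt {y δ u lam : ℝ} (hy : 0 < y) (hδ : 0 < δ) (hlam : 0 < lam)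
    (hz : y + δ ≤ 35 / 32 * y) :
    |u| / y ≤ (lam * (u ^ 2 / Real.sqrt (y + δ)) + lam⁻¹ * (67 / 64) * y ^ (-(3 / 2) : ℝ)) / 2 := by
  have hz0 : 0 < y + δ := by linarith
  set r := Real.sqrt (y + δ) with hr
  have hr0 : 0 < r := Real.sqrt_pos.2 hz0
  have hr2 : r ^ 2 = y + δ := Real.sq_sqrt hz0.le
  have hsy : 0 < Real.sqrt y := Real.sqrt_pos.2 hy
  have hyy : Real.sqrt y ^ 2 = y := Real.sq_sqrt hy.le
  have hrle : r ≤ 67 / 64 * Real.sqrt y := by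
    apply le_of_sq_le_sq' _ (by positivity)
    rw [hr2, mul_pow, hyy]
    nlinarith
  have e1 : y ^ (-(3 / 2) : ℝ) = Real.sqrt y / y ^ 2 := by
    rw [Real.sqrt_eq_rpow, eq_div_iff (by positivity), ← Real.rpow_natCast y 2,
      ← Real.rpow_add hy]
    norm_num
  rw [e1]
  have h1 : r / y ^ 2 ≤ 67 / 64 * (Real.sqrt y / y ^ 2) := by
    rw [← mul_div_assoc]
    gcongr
  have h2 : lam⁻¹ * (r / y ^ 2) ≤ lam⁻¹ * (67 / 64) * (Real.sqrt y / y ^ 2) := by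
    rw [mul_assoc]
    exact mul_le_mul_of_nonneg_left h1 (by positivity)
  have h3 : 2 * (|u| / y) ≤ lam * (u ^ 2 / r) + lam⁻¹ * (r / y ^ 2) := by
    have h4 : 0 ≤ (lam * |u| / r - 1 / y) ^ 2 * (r / lam) := by positivity
    have h5 : (lam * |u| / r - 1 / y) ^ 2 * (r / lam) =
        lam * (|u| ^ 2 / r) + lam⁻¹ * (r / y ^ 2) - 2 * (|u| / y) := by
      field_simp
      ring
    rw [h5, sq_abs] at h4
    linarith
  linarith
where
  le_of_sq_le_sq' {a b : ℝ} (h : a ^ 2 ≤ b ^ 2) (hb : 0 ≤ b) : a ≤ b :=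
    (abs_le_of_sq_le_sq' h hb).2

/-- the data -/
structure Dt (f : ℝ → ℝ) (n β δ : ℝ) : Prop where
  cont : ContinuousOn f (Ioi (0 : ℝ))
  n6 : 6 ≤ n
  hβ : 0 < β
  hβn : 16 * β ≤ n ^ 2
  hδ : δ = 3 / (16 * n)
  h1 : ∀ y, 0 < y → y ≤ 2 / n → |f y| ≤ n
  h2 : ∀ y, 0 < y → Real.sqrt (y + δ) * (n / y - β - (1 - δ) / (8 * (y + δ)) -
      3 * (1 - δ) ^ 2 / (16 * (y + δ) ^ 2)) * (y * f y) ^ 2 ≤ Real.sqrt δ * n ^ 2
  h3 : ∀ y1, 0 < y1 → IntegrableOn (fun y => (y * f y) ^ 2 / Real.sqrt (y + δ)) (Ioi y1) ∧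
    β * ∫ y in Ioi y1, (y * f y) ^ 2 / Real.sqrt (y + δ) ≤ Real.sqrt δ * n ^ 2

variable {f : ℝ → ℝ} {n β δ : ℝ}

theorem p1 (h : Dt f n β δ) : IntegrableOn f (Ioc 0 (2 / n)) ∧
    ∫ y in Ioc 0 (2 / n), |f y| ≤ 2 := by
  have hn0 : 0 < n := by linarith [h.n6]
  have hy0 : 0 < 2 / n := by positivity
  obtain ⟨ha, hb⟩ := piece (g := fun _ => n) measurableSet_Ioc (fun y hy => hy.1) h.cont
    ((continuousOn_const : ContinuousOn (fun _ : ℝ => n) (Icc 0 (2 / n))).integrableOn_Icc.mono_set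
      Ioc_subset_Icc_self)
    (fun y hy => h.h1 y hy.1 hy.2)
  refine ⟨ha, hb.trans (le_of_eq ?_)⟩
  rw [setIntegral_const, Real.volume_real_Ioc_of_le hy0.le, sub_zero, smul_eq_mul]
  field_simp

theorem p2 (h : Dt f n β δ) {X : ℝ} (hX : 0 < X) (hX4 : X ^ 4 = n ^ 2 / β) :
    IntegrableOn f (Ioc (2 / n) (n / (8 * β))) ∧
    ∫ y in Ioc (2 / n) (n / (8 * β)), |f y| ≤ 1.8 * X - 3.58 := by
  have hn0 : 0 < n := by linarith [h.n6]
  have hβ := h.hβ
  have hδ0 : 0 < δ := by rw [h.hδ]; positivity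
  have hδ1 : δ ≤ 1 := by
    rw [h.hδ, div_le_one (by positivity)]
    linarith [h.n6]
  set y0 := 2 / n with hy0
  set y1 := n / (8 * β) with hy1
  have hy0p : 0 < y0 := by positivity
  have hy1p : 0 < y1 := by positivity
  have hle : y0 ≤ y1 := by
    rw [hy0, hy1, div_le_div_iff₀ hn0 (by positivity)]
    nlinarith [h.hβn]
  set κ := Real.sqrt δ * n * (96 / 73) with hκ
  have hκ0 : 0 < κ := by
    have := Real.sqrt_pos.2 hδ0
    positivity
  have hκ2 : κ ^ 2 = 1728 / 5329 * n := by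
    rw [hκ, mul_pow, mul_pow, Real.sq_sqrt hδ0.le, h.hδ]
    field_simp
    ring
  set sk := Real.sqrt κ with hsk
  have hsk0 : 0 < sk := Real.sqrt_pos.2 hκ0
  have hsk2 : sk ^ 2 = κ := Real.sq_sqrt hκ0.le
  have hpt : ∀ y ∈ Ioc y0 y1, |f y| ≤ sk * y ^ (-(3 / 4) : ℝ) := by
    intro y hy
    have hyp : 0 < y := hy0p.trans hy.1
    have h1 := mid_pt h.n6 hβ hδ0 hδ1 hy.1 hy.2 (h.h2 y hyp)
    rw [← hκ] at h1
    have h2 : (sk * y ^ (1 / 4 : ℝ)) ^ 2 = κ * Real.sqrt y := by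
      rw [mul_pow, hsk2, Real.sqrt_eq_rpow, ← Real.rpow_natCast (y ^ (1 / 4 : ℝ)) 2,
        ← Real.rpow_mul hyp.le]
      norm_num
    have h3 : |y * f y| ≤ sk * y ^ (1 / 4 : ℝ) := by
      apply far_pt.le_of_sq_le_sq' _ (by positivity)
      rw [sq_abs, h2]
      exact h1
    rw [abs_mul, abs_of_pos hyp] at h3
    have h4 : y ^ (1 / 4 : ℝ) = y * y ^ (-(3 / 4) : ℝ) := by
      nth_rewrite 2 [← Real.rpow_one y]
      rw [← Real.rpow_add hyp]
      norm_num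
    rw [h4] at h3
    have h5 : y * |f y| ≤ y * (sk * y ^ (-(3 / 4) : ℝ)) := by
      refine h3.trans (le_of_eq ?_)
      ring
    exact le_of_mul_le_mul_left h5 hyp
  have hcg : ContinuousOn (fun y : ℝ => sk * y ^ (-(3 / 4) : ℝ)) (Icc y0 y1) := by
    apply ContinuousOn.mul continuousOn_const
    apply ContinuousOn.rpow_const continuousOn_id
    intro y hy
    left
    exact (hy0p.trans_le hy.1).ne'
  obtain ⟨ha, hb⟩ := piece measurableSet_Ioc (fun y hy => hy0p.trans hy.1) h.cont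
    ((hcg.integrableOn_Icc).mono_set Ioc_subset_Icc_self) hpt
  refine ⟨ha, hb.trans ?_⟩
  rw [← intervalIntegral.integral_of_le hle, intervalIntegral.integral_const_mul,
    integral_rpow (Or.inl (by norm_num))]
  have e14 : (-(3 / 4) : ℝ) + 1 = 1 / 4 := by norm_num
  rw [e14]
  have b1 : sk * y1 ^ (1 / 4 : ℝ) ≤ 0.45 * X := by
    apply le_of_pow_le_pow_left₀ (n := 4) (by norm_num) (by positivity)
    have : (sk * y1 ^ (1 / 4 : ℝ)) ^ 4 = 216 / 5329 * X ^ 4 := by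
      rw [mul_pow, show sk ^ 4 = (sk ^ 2) ^ 2 by ring, hsk2, hκ2,
        ← Real.rpow_natCast (y1 ^ (1 / 4 : ℝ)) 4, ← Real.rpow_mul hy1p.le]
      norm_num
      rw [hX4, hy1]
      field_simp
      ring
    rw [this, mul_pow]
    have hX4p : 0 < X ^ 4 := by positivity
    nlinarith
  have b0 : 0.895 ≤ sk * y0 ^ (1 / 4 : ℝ) := by
    apply le_of_pow_le_pow_left₀ (n := 4) (by norm_num) (by positivity)
    have : (sk * y0 ^ (1 / 4 : ℝ)) ^ 4 = 3456 / 5329 := by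
      rw [mul_pow, show sk ^ 4 = (sk ^ 2) ^ 2 by ring, hsk2, hκ2,
        ← Real.rpow_natCast (y0 ^ (1 / 4 : ℝ)) 4, ← Real.rpow_mul hy0p.le]
      norm_num
      rw [hy0]
      field_simp
      norm_num
    rw [this]
    norm_num
  have e : sk * ((y1 ^ (1 / 4 : ℝ) - y0 ^ (1 / 4 : ℝ)) / (1 / 4)) =
      4 * (sk * y1 ^ (1 / 4 : ℝ)) - 4 * (sk * y0 ^ (1 / 4 : ℝ)) := by ring
  rw [e]
  linarith

theorem p3 (h : Dt f n β δ) {X : ℝ} (hX : 0 < X) (hX4 : X ^ 4 = n ^ 2 / β) :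
    IntegrableOn f (Ioi (n / (8 * β))) ∧
    ∫ y in Ioi (n / (8 * β)), |f y| ≤ 1.602 * X := by
  have hn0 : 0 < n := by linarith [h.n6]
  have hβ := h.hβ
  have hδ0 : 0 < δ := by rw [h.hδ]; positivity
  set y1 := n / (8 * β) with hy1
  have hy1p : 0 < y1 := by positivity
  obtain ⟨hi, hI⟩ := h.h3 y1 hy1p
  set I1 := ∫ y in Ioi y1, (y * f y) ^ 2 / Real.sqrt (y + δ) with hI1
  have hsd : 0 < Real.sqrt δ := Real.sqrt_pos.2 hδ0
  set lam := 1.602 * X * β / (Real.sqrt δ * n ^ 2) with hlam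
  have hlam0 : 0 < lam := by positivity
  have hpt : ∀ y ∈ Ioi y1, |f y| ≤ (lam * ((y * f y) ^ 2 / Real.sqrt (y + δ)) +
      lam⁻¹ * (67 / 64) * y ^ (-(3 / 2) : ℝ)) / 2 := by
    intro y hy
    have hy' : y1 < y := hy
    have hyp : 0 < y := hy1p.trans hy'
    have hz : y + δ ≤ 35 / 32 * y := by
      have h1 : δ ≤ 3 / 32 * y1 := by
        rw [h.hδ, hy1, div_le_iff₀ (by positivity)]
        have : 3 / 32 * (n / (8 * β)) * (16 * n) = 3 * (n ^ 2 / (16 * β)) := by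
          field_simp
          ring
        rw [this]
        have h2 : 1 ≤ n ^ 2 / (16 * β) := by
          rw [le_div_iff₀ (by positivity)]
          linarith [h.hβn]
        linarith
      linarith
    have := far_pt (u := y * f y) hyp hδ0 hlam0 hz
    rw [abs_mul, abs_of_pos hyp, mul_div_cancel_left₀ _ hyp.ne'] at this
    exact this
  have hri : IntegrableOn (fun y : ℝ => y ^ (-(3 / 2) : ℝ)) (Ioi y1) :=
    integrableOn_Ioi_rpow_of_lt (by norm_num) hy1p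
  have hrv : ∫ y in Ioi y1, y ^ (-(3 / 2) : ℝ) = 2 * y1 ^ (-(1 / 2) : ℝ) := by
    rw [integral_Ioi_rpow_of_lt (by norm_num) hy1p]
    have : (-(3 / 2) : ℝ) + 1 = -(1 / 2) := by norm_num
    rw [this]
    ring
  have hg1 := hi.const_mul lam
  have hg2 := hri.const_mul (lam⁻¹ * (67 / 64))
  obtain ⟨ha, hb⟩ := piece measurableSet_Ioi (fun y hy => hy1p.trans hy) h.cont
    ((hg1.add hg2).div_const 2) hpt
  refine ⟨ha, hb.trans ?_⟩
  have e1 : ∫ y in Ioi y1, (lam * ((y * f y) ^ 2 / Real.sqrt (y + δ)) +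
      lam⁻¹ * (67 / 64) * y ^ (-(3 / 2) : ℝ)) / 2 =
      (lam * I1 + lam⁻¹ * (67 / 64) * (2 * y1 ^ (-(1 / 2) : ℝ))) / 2 := by
    rw [integral_div, integral_add hg1 hg2, integral_const_mul, integral_const_mul, hrv]
  refine le_trans (le_of_eq e1) ?_
  have b1 : lam * I1 ≤ 1.602 * X := by
    have : lam * I1 = 1.602 * X * ((β * I1) / (Real.sqrt δ * n ^ 2)) := by
      rw [hlam]
      ring
    rw [this]
    have h2 : (β * I1) / (Real.sqrt δ * n ^ 2) ≤ 1 := by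
      rw [div_le_one (by positivity)]
      exact hI
    nlinarith
  have b2 : lam⁻¹ * (67 / 64) * (2 * y1 ^ (-(1 / 2) : ℝ)) ≤ 1.602 * X := by
    set W := Real.sqrt δ * n ^ 2 / β * (2 * y1 ^ (-(1 / 2) : ℝ)) with hW
    have hv2 : (y1 ^ (-(1 / 2) : ℝ)) ^ 2 = y1⁻¹ := by
      rw [← Real.rpow_natCast (y1 ^ (-(1 / 2) : ℝ)) 2, ← Real.rpow_mul hy1p.le]
      norm_num
      exact Real.rpow_neg_one y1
    have hW2 : W ^ 2 = 6 * (X ^ 2) ^ 2 := by
      rw [hW, mul_pow, mul_pow, div_pow, mul_pow, Real.sq_sqrt hδ0.le, hv2,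
        show (X ^ 2) ^ 2 = X ^ 4 by ring, hX4, h.hδ, hy1]
      field_simp
      norm_num
    have hWle : W ≤ 2.4495 * X ^ 2 := by
      apply far_pt.le_of_sq_le_sq' _ (by positivity)
      rw [hW2, mul_pow]
      have : 0 ≤ (X ^ 2) ^ 2 := by positivity
      nlinarith
    have e2 : lam⁻¹ * (67 / 64) * (2 * y1 ^ (-(1 / 2) : ℝ)) = 67 / 64 * W / (1.602 * X) := by
      rw [hW, hlam]
      field_simp
    rw [e2, div_le_iff₀ (by positivity)]
    nlinarith [sq_nonneg X]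
  linarith

theorem total (h : Dt f n β δ) {X : ℝ} (hX : 0 < X) (hX4 : X ^ 4 = n ^ 2 / β) :
    IntegrableOn f (Ioi 0) ∧ ∫ y in Ioi (0 : ℝ), |f y| ≤ 3.402 * X - 1.58 := by
  have hn0 : 0 < n := by linarith [h.n6]
  have hβ := h.hβ
  obtain ⟨a1, b1⟩ := p1 h
  obtain ⟨a2, b2⟩ := p2 h hX hX4
  obtain ⟨a3, b3⟩ := p3 h hX hX4
  have hle : 2 / n ≤ n / (8 * β) := by
    rw [div_le_div_iff₀ hn0 (by positivity)]
    nlinarith [h.hβn]
  have hy0 : 0 ≤ 2 / n := by positivity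
  have u1 : Ioc (2 / n) (n / (8 * β)) ∪ Ioi (n / (8 * β)) = Ioi (2 / n) := Ioc_union_Ioi_eq_Ioi hle
  have u0 : Ioc 0 (2 / n) ∪ Ioi (2 / n) = Ioi 0 := Ioc_union_Ioi_eq_Ioi hy0
  have d1 : Disjoint (Ioc (2 / n) (n / (8 * β))) (Ioi (n / (8 * β))) :=
    Ioc_disjoint_Ioi le_rfl
  have d0 : Disjoint (Ioc 0 (2 / n)) (Ioi (2 / n)) := Ioc_disjoint_Ioi le_rfl
  have a4 : IntegrableOn f (Ioi (2 / n)) := by
    rw [← u1]
    exact a2.union a3
  have a5 : IntegrableOn f (Ioi 0) := by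
    rw [← u0]
    exact a1.union a4
  refine ⟨a5, ?_⟩
  rw [← u0, setIntegral_union d0 measurableSet_Ioi a1.abs a4.abs, ← u1,
    setIntegral_union d1 measurableSet_Ioi a2.abs a3.abs]
  linarith

theorem main : S_L1 := by
  intro hV j m hj hm
  obtain rfl | hj2 : j = 1 ∨ 2 ≤ j := by omega
  · have := one m hm
    refine ⟨this.1, this.2.trans ?_⟩
    norm_num
  obtain ⟨v1, v2, v3⟩ := hV j m hj hm
  have hj' : (2 : ℝ) ≤ j := by exact_mod_cast hj2
  have hm' : (1 : ℝ) ≤ m := by exact_mod_cast hm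
  have hnn : nn j m = (j : ℝ) * ((j : ℝ) + m) := rfl
  have hn6 : 6 ≤ nn j m := by rw [hnn]; nlinarith
  have hn2m : 2 * (m : ℝ) + 4 ≤ nn j m := by rw [hnn]; nlinarith
  have hβ : bet m = (4 * (m : ℝ) ^ 2 - 1) / 16 := rfl
  have hβ0 : 0 < bet m := by rw [hβ]; nlinarith
  have hD : Dt (kk j m) (nn j m) (bet m) (del j m) := by
    refine ⟨kk_cont j m, hn6, hβ0, ?_, rfl, ?_, ?_, ?_⟩
    · rw [hβ]
      nlinarith
    · intro y hy hyn
      have h1 : (m : ℝ) ^ 2 * y ≤ 4 * nn j m := by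
        have h2 : (m : ℝ) ^ 2 * y ≤ (m : ℝ) ^ 2 * (2 / nn j m) :=
          mul_le_mul_of_nonneg_left hyn (by positivity)
        refine h2.trans ?_
        rw [mul_div_assoc', div_le_iff₀ (by linarith)]
        nlinarith
      have h3 := v1 y hy h1
      unfold UU at h3
      rw [abs_mul, abs_of_pos hy, mul_comm (nn j m) y] at h3
      exact le_of_mul_le_mul_left h3 hy
    · exact v2
    · exact v3
  set q := nn j m ^ 2 / bet m with hq
  have hq0 : 0 < q := by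
    have : 0 < nn j m := by linarith
    positivity
  have hX4 : (Real.sqrt (Real.sqrt q)) ^ 4 = q := by
    have : (Real.sqrt (Real.sqrt q)) ^ 4 = ((Real.sqrt (Real.sqrt q)) ^ 2) ^ 2 := by ring
    rw [this, Real.sq_sqrt (Real.sqrt_nonneg _), Real.sq_sqrt hq0.le]
  have hX0 : 0 < Real.sqrt (Real.sqrt q) := Real.sqrt_pos.2 (Real.sqrt_pos.2 hq0)
  obtain ⟨t1, t2⟩ := total hD hX0 hX4
  refine ⟨t1, t2.trans ?_⟩
  have hXb : Real.sqrt (Real.sqrt q) ≤ 1.52 * ((j : ℝ) + 1 / 2) := by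
    apply le_of_pow_le_pow_left₀ (n := 4) (by norm_num) (by positivity)
    rw [hX4, hq, div_le_iff₀ hβ0]
    have k1 : ((j : ℝ) + m) ^ 2 ≤ (m : ℝ) ^ 2 * ((j : ℝ) + 1) ^ 2 := by
      rw [← mul_pow]
      apply pow_le_pow_left₀ (by positivity)
      nlinarith
    have k2 : 3 * ((j : ℝ) + m) ^ 2 ≤ (4 * (m : ℝ) ^ 2 - 1) * ((j : ℝ) + 1) ^ 2 := by
      nlinarith [sq_nonneg ((j : ℝ) + 1), mul_nonneg (sub_nonneg.2 (one_le_pow₀ hm' : (1 : ℝ) ≤ (m : ℝ) ^ 2)) (sq_nonneg ((j : ℝ) + 1))]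
    have k3 : ((j : ℝ) * ((j : ℝ) + 1)) ^ 2 ≤ (((j : ℝ) + 1 / 2) ^ 2) ^ 2 := by
      apply pow_le_pow_left₀ (by positivity)
      nlinarith
    have k4 : nn j m ^ 2 ≤ 16 / 3 * ((j : ℝ) * ((j : ℝ) + 1)) ^ 2 * bet m := by
      rw [hnn, hβ]
      have : 16 / 3 * ((j : ℝ) * ((j : ℝ) + 1)) ^ 2 * ((4 * (m : ℝ) ^ 2 - 1) / 16) =
          (j : ℝ) ^ 2 * (((4 * (m : ℝ) ^ 2 - 1) * ((j : ℝ) + 1) ^ 2) / 3) := by ring
      rw [this, mul_pow]
      apply mul_le_mul_of_nonneg_left _ (sq_nonneg _)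
      linarith
    refine k4.trans ?_
    apply mul_le_mul_of_nonneg_right _ hβ0.le
    have k5 : (1.52 * ((j : ℝ) + 1 / 2)) ^ 4 = 1.52 ^ 4 * (((j : ℝ) + 1 / 2) ^ 2) ^ 2 := by ring
    rw [k5]
    have k6 : 0 ≤ (((j : ℝ) + 1 / 2) ^ 2) ^ 2 := by positivity
    nlinarith
  nlinarith

end Pool.Agent.R223.RX.L1
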