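import Pool.Agent.R223.RX.Stm

/-!
# RX-ODE (helper139): the differential equation of the kernel
-/

set_option autoImplicit false

open MeasureTheory Set Filter Topology Polynomial

namespace Pool.Agent.R223.RX.ODE

noncomputable section

/-- the coefficients of `y GG y` -/
def g (j m n : ℕ) : ℝ := (-1) ^ (n + 1) * n * (j.choose n) * ((j + m).choose n)

theorem choose_real (a i : ℕ) : ((a.choose (i + 1) : ℕ) : ℝ) * (i + 1) = a.choose i * ((a : ℝ) - i) := by
  rcases le_or_gt i a with h | h
  · have h1 := Nat.choose_succ_right_eq a i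
    have h2 : (((a.choose (i + 1) * (i + 1) : ℕ)) : ℝ) = ((a.choose i * (a - i) : ℕ) : ℝ) := by
      rw [h1]
    push_cast [Nat.cast_sub h] at h2
    exact h2
  · rw [Nat.choose_eq_zero_of_lt h, Nat.choose_eq_zero_of_lt (by omega : a < i + 1)]
    simp

theorem g_rec (j m i : ℕ) : ((i : ℝ) + 1) * i * g j m (i + 1) =
    -(((j : ℝ) - i) * ((j : ℝ) + m - i)) * g j m i := by
  have h1 := choose_real j i
  have h2 := choose_real (j + m) i
  unfold g
  push_cast at h2 ⊢
  have e : (-1 : ℝ) ^ (i + 1 + 1) = -(-1) ^ (i + 1) := by ring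
  rw [e]
  linear_combination (-((-1 : ℝ) ^ (i + 1)) * i * (((j + m).choose (i + 1) : ℕ) : ℝ) * (i + 1)) * h1 +
    (-((-1 : ℝ) ^ (i + 1)) * i * ((j.choose i : ℕ) : ℝ) * (j - i)) * h2

theorem g_zero (j m : ℕ) : g j m 0 = 0 := by simp [g]

theorem g_big (j m n : ℕ) (h : j < n) : g j m n = 0 := by
  simp [g, Nat.choose_eq_zero_of_lt h]

/-- the polynomial `y GG y` -/
def P (j m : ℕ) : ℝ[X] := ∑ n ∈ Finset.range (j + 1), C (g j m n) * X ^ n

theorem coeff_P (j m n : ℕ) : (P j m).coeff n = g j m n := by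
  unfold P
  rw [Polynomial.finset_sum_coeff]
  simp only [Polynomial.coeff_C_mul, Polynomial.coeff_X_pow, mul_ite, mul_one, mul_zero]
  rw [Finset.sum_ite_eq (Finset.range (j + 1)) n (fun i => g j m i)]
  by_cases h : n ∈ Finset.range (j + 1)
  · rw [if_pos h]
  · rw [if_neg h, g_big]
    rw [Finset.mem_range] at h
    omega

theorem eval_P (j m : ℕ) (y : ℝ) : (P j m).eval y = y * GG j m y := by
  unfold P GG
  rw [Polynomial.eval_finset_sum, Finset.sum_range_succ', Finset.mul_sum]
  simp only [Polynomial.eval_mul, Polynomial.eval_C, Polynomial.eval_pow, Polynomial.eval_X,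
    g_zero, zero_mul, add_zero]
  refine Finset.sum_congr rfl fun i _ => ?_
  unfold g
  push_cast
  ring

theorem ode (j m : ℕ) : X * derivative (derivative (P j m)) +
    X * (X * derivative (derivative (P j m))) +
    C (1 - 2 * (j : ℝ) - m) * (X * derivative (P j m)) + C (nn j m) * P j m = 0 := by
  ext n
  rcases n with _ | n
  · simp [coeff_P, g_zero]
  · simp only [Polynomial.coeff_add, Polynomial.coeff_X_mul, Polynomial.coeff_C_mul,
      Polynomial.coeff_derivative, coeff_P, Polynomial.coeff_zero]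
    have h := g_rec j m (n + 1)
    have h2 : (X * derivative (derivative (P j m))).coeff n = g j m (n + 1) * (n + 1) * n := by
      rcases n with _ | n
      · simp
      · simp only [Polynomial.coeff_X_mul, Polynomial.coeff_derivative, coeff_P]
        push_cast
        ring
    rw [h2]
    unfold nn
    push_cast at h ⊢
    linear_combination h

/-- the numerator of `U1` -/
def Q (j m : ℕ) : ℝ[X] :=
  (1 + X) * derivative (P j m) - C ((j : ℝ) + (m : ℝ) / 2) * P j m

theorem deg_P (j m : ℕ) : (P j m).natDegree ≤ j := by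
  rw [Polynomial.natDegree_le_iff_coeff_eq_zero]
  intro n hn
  rw [coeff_P, g_big _ _ _ hn]

theorem deg_Q (j m : ℕ) (hj : 1 ≤ j) : (Q j m).natDegree ≤ j := by
  unfold Q
  refine (Polynomial.natDegree_sub_le_of_le (m := j) (n := j) ?_ ?_).trans (by simp)
  · refine (Polynomial.natDegree_mul_le_of_le (m := 1) (n := j - 1) ?_ ?_).trans (by omega)
    · refine (Polynomial.natDegree_add_le_of_degree_le (n := 1) ?_ ?_)
      · simp
      · simp
    · exact (Polynomial.natDegree_derivative_le _).trans (Nat.sub_le_sub_right (deg_P j m) 1)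
  · exact (Polynomial.natDegree_C_mul_le _ _).trans (deg_P j m)

theorem bound (q : ℝ[X]) (d : ℕ) (h : q.natDegree ≤ d) (y : ℝ) (hy : 0 < y) :
    |q.eval y| ≤ (∑ i ∈ Finset.range (d + 1), |q.coeff i|) * (1 + y) ^ d := by
  rw [Polynomial.eval_eq_sum_range' (Nat.lt_succ_of_le h), Finset.sum_mul]
  refine (Finset.abs_sum_le_sum_abs _ _).trans (Finset.sum_le_sum fun i hi => ?_)
  rw [abs_mul, abs_of_nonneg (pow_nonneg hy.le i)]
  refine mul_le_mul_of_nonneg_left ?_ (abs_nonneg _)
  calc y ^ i ≤ (1 + y) ^ i := pow_le_pow_left₀ hy.le (by linarith) i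
    _ ≤ (1 + y) ^ d := pow_le_pow_right₀ (by linarith) (Nat.lt_succ_iff.1 (Finset.mem_range.1 hi))

theorem bound_GG (j m : ℕ) (hj : 1 ≤ j) (y : ℝ) (hy : 0 < y) :
    |GG j m y| ≤ (∑ i ∈ Finset.range j,
      |(-1 : ℝ) ^ i * (((i : ℝ) + 1) * (j.choose (i + 1)) * ((j + m).choose (i + 1)))|) *
      (1 + y) ^ (j - 1) := by
  unfold GG
  rw [Finset.sum_mul]
  refine (Finset.abs_sum_le_sum_abs _ _).trans (Finset.sum_le_sum fun i hi => ?_)
  rw [abs_mul, abs_of_nonneg (pow_nonneg hy.le i)]
  refine mul_le_mul_of_nonneg_left ?_ (abs_nonneg _)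
  have hi' := Finset.mem_range.1 hi
  calc y ^ i ≤ (1 + y) ^ i := pow_le_pow_left₀ hy.le (by linarith) i
    _ ≤ (1 + y) ^ (j - 1) := pow_le_pow_right₀ (by linarith) (by omega)

theorem hasDeriv_pow (lam y : ℝ) (hy : 0 < y) :
    HasDerivAt (fun y : ℝ => (1 + y) ^ (-lam)) (-lam * ((1 + y) ^ (-lam) / (1 + y))) y := by
  have h1 : HasDerivAt (fun y : ℝ => 1 + y) 1 y := (hasDerivAt_id y).const_add 1
  have h2 := h1.rpow_const (p := -lam) (Or.inl (by positivity))
  refine h2.congr_deriv ?_
  rw [Real.rpow_sub_one (by positivity)]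
  ring

theorem main : S_ODE := by
  intro j m hj
  set lam : ℝ := (j : ℝ) + (m : ℝ) / 2 with hlam
  set C1 : ℝ := ∑ i ∈ Finset.range j,
      |(-1 : ℝ) ^ i * (((i : ℝ) + 1) * (j.choose (i + 1)) * ((j + m).choose (i + 1)))| with hC1
  set C2 : ℝ := ∑ i ∈ Finset.range (j + 1), |(Q j m).coeff i| with hC2
  have hC10 : 0 ≤ C1 := Finset.sum_nonneg fun i _ => abs_nonneg _
  have hC20 : 0 ≤ C2 := Finset.sum_nonneg fun i _ => abs_nonneg _
  have hUU : ∀ y, UU j m y = (1 + y) ^ (-lam) * (P j m).eval y := by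
    intro y
    rw [eval_P]
    unfold UU kk
    ring
  refine ⟨fun y => (1 + y) ^ (-lam) * (Q j m).eval y, C1 + C2, ?_, ?_, ?_, ?_, ?_⟩
  · intro y hy
    have h1 := (hasDeriv_pow lam y hy).mul ((P j m).hasDerivAt y)
    have e : UU j m = fun y => (1 + y) ^ (-lam) * (P j m).eval y := funext hUU
    rw [e]
    refine h1.congr_deriv ?_
    have hy1 : (1 + y) ≠ 0 := by positivity
    unfold Q
    simp only [Polynomial.eval_sub, Polynomial.eval_mul, Polynomial.eval_add, Polynomial.eval_one,
      Polynomial.eval_X, Polynomial.eval_C]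
    rw [← hlam]
    field_simp
    ring
  · intro y hy
    have h1 := (hasDeriv_pow lam y hy).mul ((Q j m).hasDerivAt y)
    refine h1.congr_deriv ?_
    have hy1 : (1 + y) ≠ 0 := by positivity
    have hy0 : y ≠ 0 := hy.ne'
    rw [hUU]
    have ho := congrArg (Polynomial.eval y) (ode j m)
    simp only [Polynomial.eval_mul, Polynomial.eval_add, Polynomial.eval_X, Polynomial.eval_C,
      Polynomial.eval_zero] at ho
    have hQ : (Q j m).eval y = (1 + y) * (derivative (P j m)).eval y - lam * (P j m).eval y := by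
      unfold Q
      simp only [Polynomial.eval_sub, Polynomial.eval_mul, Polynomial.eval_add,
        Polynomial.eval_one, Polynomial.eval_X, Polynomial.eval_C]
      rw [← hlam]
    have hQ' : (derivative (Q j m)).eval y = (derivative (P j m)).eval y +
        (1 + y) * (derivative (derivative (P j m))).eval y - lam * (derivative (P j m)).eval y := by
      unfold Q
      simp only [Polynomial.derivative_sub, Polynomial.derivative_mul, Polynomial.derivative_add,
        Polynomial.derivative_one, Polynomial.derivative_X, Polynomial.derivative_C,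
        Polynomial.eval_sub, Polynomial.eval_mul, Polynomial.eval_add,
        Polynomial.eval_one, Polynomial.eval_X, Polynomial.eval_C, Polynomial.eval_zero]
      ring
    rw [hQ, hQ']
    generalize (derivative (derivative (P j m))).eval y = p2 at *
    generalize (derivative (P j m)).eval y = p1 at *
    generalize (P j m).eval y = p0 at *
    generalize (1 + y) ^ (-lam) = E at *
    unfold nn at ho ⊢
    have key : -lam * ((1 + y) * p1 - lam * p0) + (1 + y) * (p1 + (1 + y) * p2 - lam * p1) =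
        -((j : ℝ) * (j + m) / y - (m : ℝ) ^ 2 / 4) * p0 := by
      apply mul_left_cancel₀ hy0
      have e1 : y * (-((j : ℝ) * (j + m) / y - (m : ℝ) ^ 2 / 4) * p0) =
          -((j : ℝ) * (j + m)) * p0 + (m : ℝ) ^ 2 / 4 * y * p0 := by
        field_simp
        ring
      rw [e1, hlam]
      linear_combination (1 + y) * ho
    have e2 : -lam * (E / (1 + y)) * ((1 + y) * p1 - lam * p0) +
        E * (p1 + (1 + y) * p2 - lam * p1) =
        E / (1 + y) * (-lam * ((1 + y) * p1 - lam * p0) +
          (1 + y) * (p1 + (1 + y) * p2 - lam * p1)) := by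
      field_simp
    rw [e2, key]
    ring
  · have hcont : ContinuousAt (fun y : ℝ => (1 + y) ^ (-lam) * (Q j m).eval y) 0 := by
      refine ContinuousAt.mul ?_ (Q j m).continuous.continuousAt
      refine ContinuousAt.rpow_const (by fun_prop) (Or.inl (by norm_num))
    have h1 : (1 + (0 : ℝ)) ^ (-lam) * (Q j m).eval 0 = nn j m := by
      have h2 : (Q j m).eval 0 = g j m 1 := by
        unfold Q
        simp only [Polynomial.eval_sub, Polynomial.eval_mul, Polynomial.eval_add,
          Polynomial.eval_one, Polynomial.eval_X, Polynomial.eval_C]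
        rw [← Polynomial.coeff_zero_eq_eval_zero, ← Polynomial.coeff_zero_eq_eval_zero,
          Polynomial.coeff_derivative, coeff_P, coeff_P, g_zero]
        simp
      rw [h2, add_zero, Real.one_rpow, one_mul]
      unfold g nn
      simp
    have h3 := hcont.tendsto
    rw [h1] at h3
    exact h3.mono_left nhdsWithin_le_nhds
  · intro y hy
    have hy1 : (0 : ℝ) < 1 + y := by positivity
    have h1 := bound_GG j m hj y hy
    rw [← hC1] at h1
    have h2 : UU j m y = y * ((1 + y) ^ (-lam) * GG j m y) := rfl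
    rw [h2, abs_mul, abs_of_pos hy, abs_mul, abs_of_pos (Real.rpow_pos_of_pos hy1 _)]
    have h3 : (1 + y) ^ (-lam) * (1 + y) ^ (j - 1) = (1 + y) ^ (-1 - (m : ℝ) / 2) := by
      rw [← Real.rpow_natCast, ← Real.rpow_add hy1]
      congr 1
      rw [Nat.cast_sub hj, hlam]
      push_cast
      ring
    calc y * ((1 + y) ^ (-lam) * |GG j m y|)
        ≤ y * ((1 + y) ^ (-lam) * (C1 * (1 + y) ^ (j - 1))) := by
          refine mul_le_mul_of_nonneg_left ?_ hy.le
          exact mul_le_mul_of_nonneg_left h1 (Real.rpow_pos_of_pos hy1 _).le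
      _ = C1 * y * ((1 + y) ^ (-lam) * (1 + y) ^ (j - 1)) := by ring
      _ = C1 * y * (1 + y) ^ (-1 - (m : ℝ) / 2) := by rw [h3]
      _ ≤ (C1 + C2) * y * (1 + y) ^ (-1 - (m : ℝ) / 2) := by
          refine mul_le_mul_of_nonneg_right ?_ (Real.rpow_pos_of_pos hy1 _).le
          nlinarith
  · intro y hy
    have hy1 : (0 : ℝ) < 1 + y := by positivity
    have h1 := bound (Q j m) j (deg_Q j m hj) y hy
    rw [← hC2] at h1
    simp only
    rw [abs_mul, abs_of_pos (Real.rpow_pos_of_pos hy1 _)]
    have h3 : (1 + y) ^ (-lam) * (1 + y) ^ j = (1 + y) ^ (-(m : ℝ) / 2) := by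
      rw [← Real.rpow_natCast, ← Real.rpow_add hy1]
      congr 1
      rw [hlam]
      ring
    calc (1 + y) ^ (-lam) * |(Q j m).eval y|
        ≤ (1 + y) ^ (-lam) * (C2 * (1 + y) ^ j) :=
          mul_le_mul_of_nonneg_left h1 (Real.rpow_pos_of_pos hy1 _).le
      _ = C2 * ((1 + y) ^ (-lam) * (1 + y) ^ j) := by ring
      _ = C2 * (1 + y) ^ (-(m : ℝ) / 2) := by rw [h3]
      _ ≤ (C1 + C2) * (1 + y) ^ (-(m : ℝ) / 2) :=
          mul_le_mul_of_nonneg_right (by linarith) (Real.rpow_pos_of_pos hy1 _).le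

end

end Pool.Agent.R223.RX.ODE
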