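import Pool.Agent.R223.RX.Stm
import Pool.Agent.R223.RD.PC
import Pool.Agent.R892.BR.Plane
import Pool.Agent.Y282.RB.A1

/-!
# Project RX (MP_dd244f_an), piece PLN: from the half line to the plane
-/

set_option autoImplicit false

open MeasureTheory Set Filter Topology
open scoped SchwartzMap ContDiff

namespace Pool.Agent.R223.RX.PLN

open Pool.Agent.Y282.RB (Tn)
open Pool.Agent.Y282.RB.A2 (HH db dd db_iter dd_iter Tn_db HH_smooth)
open Pool.Agent.R223.RD (Cc)
open Pool.Agent.R223.RX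

theorem HH_supp (N : ℕ) {h : ℝ → ℂ} {R : ℝ} (hR : ∀ x, R ≤ x → h x = 0) (r : ℕ) :
    ∀ x, R < x → HH N h r x = 0 := by
  induction r with
  | zero => exact fun x hx => hR x hx.le
  | succ r ih =>
    intro x hx
    have h1 : HH N h (r + 1) x = ((N - r : ℕ) : ℂ) * HH N h r x + (x : ℂ) * deriv (HH N h r) x := rfl
    have h2 : deriv (HH N h r) x = 0 := by
      have h3 : HH N h r =ᶠ[𝓝 x] fun _ => (0 : ℂ) := by
        filter_upwards [Ioi_mem_nhds hx] with y hy
        exact ih y hy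
      rw [h3.deriv_eq, deriv_const]
    rw [h1, ih x hx, h2, mul_zero, mul_zero, add_zero]

/-- the norm on the half line as an integral -/
theorem conv (p s : ℝ) (hp : 2 ≤ p) (hs : 0 ≤ s) (F : ℝ → ℂ) (hF : Continuous F) (R : ℝ)
    (hR : ∀ x, R ≤ x → F x = 0) :
    ENNReal.ofReal ((Real.pi * ∫ x in Ioi (0 : ℝ), (x ^ (s / 2) * ‖F x‖) ^ p) ^ (1 / p)) =
      ENNReal.ofReal (Real.pi ^ (1 / p)) *
        eLpNorm (fun x : ℝ => ((x ^ (s / 2) : ℝ) : ℂ) * F x) (ENNReal.ofReal p) mu := by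
  have hp0 : 0 < p := by linarith
  set G : ℝ → ℂ := fun x : ℝ => ((x ^ (s / 2) : ℝ) : ℂ) * F x with hG
  have hGc : Continuous G := by
    have : Continuous fun x : ℝ => x ^ (s / 2) := Real.continuous_rpow_const (by linarith)
    exact (Complex.continuous_ofReal.comp this).mul hF
  set G₂ : ℝ → ℂ := fun x => ((max 0 (min 1 (x + 1)) : ℝ) : ℂ) * G x with hG₂
  have hG₂c : Continuous G₂ := by
    have : Continuous fun x : ℝ => max 0 (min 1 (x + 1)) := by fun_prop
    exact (Complex.continuous_ofReal.comp this).mul hGc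
  have hG₂s : HasCompactSupport G₂ := by
    refine HasCompactSupport.intro (isCompact_Icc (a := -1) (b := R)) fun x hx => ?_
    simp only [hG₂, hG]
    rcases le_or_gt R x with h1 | h1
    · rw [hR x h1, mul_zero, mul_zero]
    · have h2 : x < -1 := by
        by_contra h3
        push Not at h3
        exact hx ⟨h3, h1.le⟩
      have h3 : max 0 (min 1 (x + 1)) = (0 : ℝ) := by
        apply max_eq_left
        exact (min_le_right _ _).trans (by linarith)
      rw [h3]
      simp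
  have hmem : MemLp G₂ (ENNReal.ofReal p) (volume : Measure ℝ) :=
    hG₂c.memLp_of_hasCompactSupport hG₂s
  have hmem2 : MemLp G₂ (ENNReal.ofReal p) mu := hmem.restrict _
  have hae : G₂ =ᵐ[mu] G := by
    rw [mu, Filter.EventuallyEq, ae_restrict_iff' measurableSet_Ioi]
    refine Eventually.of_forall fun x hx => ?_
    have hx' : (0 : ℝ) < x := hx
    simp only [hG₂]
    have h3 : max 0 (min 1 (x + 1)) = (1 : ℝ) := by
      rw [min_eq_left (by linarith)]
      norm_num
    rw [h3]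
    simp
  have hmem3 : MemLp G (ENNReal.ofReal p) mu := hmem2.ae_eq hae
  have hp1 : ENNReal.ofReal p ≠ 0 := by
    rw [Ne, ENNReal.ofReal_eq_zero, not_le]
    exact hp0
  rw [hmem3.eLpNorm_eq_integral_rpow_norm hp1 ENNReal.ofReal_ne_top,
    ENNReal.toReal_ofReal hp0.le, ← ENNReal.ofReal_mul (by positivity)]
  congr 1
  have hI : ∫ x in Ioi (0 : ℝ), (x ^ (s / 2) * ‖F x‖) ^ p = ∫ x, ‖G x‖ ^ p ∂mu := by
    rw [mu]
    refine setIntegral_congr_fun measurableSet_Ioi fun x hx => ?_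
    have hx' : (0 : ℝ) < x := hx
    simp only [hG, norm_mul, Complex.norm_real, Real.norm_eq_abs]
    rw [abs_of_nonneg (Real.rpow_nonneg hx'.le _)]
  have hI0 : 0 ≤ ∫ x, ‖G x‖ ^ p ∂mu := integral_nonneg fun x => Real.rpow_nonneg (norm_nonneg _) _
  rw [hI, Real.mul_rpow Real.pi_pos.le hI0, one_div]

/-- the function `a` is smooth with compact support in the open half line -/
theorem Cc_mul (c : ℝ) (w : ℝ → ℂ) (hw : Cc w) :
    Cc fun s : ℝ => ((s ^ c : ℝ) : ℂ) * w s := by
  obtain ⟨hw1, a, R, ha, haR, hwa, hwR⟩ := hw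
  refine ⟨?_, a, R, ha, haR, fun x hx => ?_, fun x hx => ?_⟩
  · rw [contDiff_iff_contDiffAt]
    intro x
    rcases lt_or_ge x a with hx | hx
    · refine (contDiffAt_const (c := (0 : ℂ))).congr_of_eventuallyEq ?_
      filter_upwards [Iio_mem_nhds hx] with y hy
      rw [hwa y (le_of_lt hy), mul_zero]
    · have hx0 : 0 < x := by linarith
      refine ContDiffAt.mul ?_ hw1.contDiffAt
      exact Complex.ofRealCLM.contDiff.contDiffAt.comp x
        (Real.contDiffAt_rpow_const_of_ne hx0.ne')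
  · simp only
    rw [hwa x hx, mul_zero]
  · simp only
    rw [hwR x hx, mul_zero]

theorem kk_cont (j m : ℕ) : ContinuousOn (kk j m) (Ioi (0 : ℝ)) := by
  refine ContinuousOn.mul ?_ ?_
  · refine ContinuousOn.rpow_const (by fun_prop) fun y hy => Or.inl ?_
    have : (0 : ℝ) < y := hy
    linarith
  · have : Continuous (GG j m) := by
      unfold GG
      fun_prop
    exact this.continuousOn

theorem main : S_PLN := by
  intro hK hI hRT hL j m p w f hj hm hp hw hf
  have hw' := hw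
  obtain ⟨hw1, a, R, ha, haR, hwa, hwR⟩ := hw'
  have hwc : HasCompactSupport w := by
    refine HasCompactSupport.intro (isCompact_Icc (a := a) (b := R)) fun x hx => ?_
    rcases le_or_gt R x with h1 | h1
    · exact hwR x h1
    · apply hwa
      by_contra hcon
      push Not at hcon
      exact hx ⟨hcon.le, h1.le⟩
  obtain ⟨h, hh1, ⟨R', hR'⟩, hh2⟩ := Pool.Agent.Y282.RB.A1.main j w hw1 hwc
  obtain ⟨u, hu⟩ := Pool.Agent.R892.BR.exists_schwartz (j + m) h hh1 R' hR'
  have e1 : f = db^[j] u := by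
    ext z
    rw [db_iter hh1 hu j z, hh2, hf z]
    congr 2
    ring
  have e2 : ∀ z, Tn j f z = z ^ m * HH (j + m) h j (Complex.normSq z) := by
    intro z
    rw [e1, Tn_db, dd_iter hh1 hu j (by omega) z, Nat.add_sub_cancel_left]
  have hHc : Continuous (HH (j + m) h j) := (HH_smooth (j + m) hh1 j).continuous
  have hHs : ∀ x, R' + 1 ≤ x → HH (j + m) h j x = 0 := fun x hx =>
    HH_supp (j + m) hR' j x (by linarith)
  have hTm : AEStronglyMeasurable (Tn j f) (volume : Measure ℂ) := by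
    have h3 : Continuous (Tn j f) := by
      have h4 : Tn j f = fun z => z ^ m * HH (j + m) h j (Complex.normSq z) := funext e2
      rw [h4]
      exact (continuous_pow m).mul (hHc.comp Complex.continuous_normSq)
    exact h3.aestronglyMeasurable
  have n1 : eLpNorm (Tn j f) (ENNReal.ofReal p) (volume : Measure ℂ) =
      ENNReal.ofReal (Real.pi ^ (1 / p)) *
        eLpNorm (fun x : ℝ => ((x ^ ((m : ℝ) / 2) : ℝ) : ℂ) * HH (j + m) h j x)
          (ENNReal.ofReal p) mu := by
    rw [← conv p m hp (Nat.cast_nonneg m) _ hHc (R' + 1) hHs]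
    refine Pool.Agent.R223.RD.PC.main p m hp (Nat.cast_nonneg m) _ hHc ⟨R' + 1, hHs⟩ _
      (fun z => ?_) hTm
    rw [e2, norm_mul, norm_pow, Real.rpow_natCast]
  have hcast : ((2 * j + m : ℕ) : ℝ) / 2 = (j : ℝ) + (m : ℝ) / 2 := by
    push_cast
    ring
  have n2 : eLpNorm (⇑f) (ENNReal.ofReal p) (volume : Measure ℂ) =
      ENNReal.ofReal (Real.pi ^ (1 / p)) *
        eLpNorm (fun x : ℝ => ((x ^ ((j : ℝ) + (m : ℝ) / 2) : ℝ) : ℂ) * w x)
          (ENNReal.ofReal p) mu := by
    have h3 := conv p ((2 * j + m : ℕ) : ℝ) hp (Nat.cast_nonneg _) w hw1.continuous R hwR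
    rw [hcast] at h3
    rw [← h3]
    have h4 := Pool.Agent.R223.RD.PC.main p ((2 * j + m : ℕ) : ℝ) hp (Nat.cast_nonneg _) w
      hw1.continuous ⟨R, hwR⟩ f (fun z => by
        rw [hf, norm_mul, norm_pow, Real.rpow_natCast]) f.continuous.aestronglyMeasurable
    rw [hcast] at h4
    exact h4
  have hCa : Cc fun s : ℝ => ((s ^ ((j : ℝ) + (m : ℝ) / 2) : ℝ) : ℂ) * w s := Cc_mul _ w hw
  have hRT' := hRT (kk j m) (13 / 2 * (j : ℝ) - 1) p (kk_cont j m) (hL j m hj hm).1
    (hL j m hj hm).2 hp (fun a ha => hI j m a hj hm ha) _ hCa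
  have h13 : (1 : ℝ) + (13 / 2 * (j : ℝ) - 1) = 13 / 2 * j := by ring
  rw [h13] at hRT'
  have n3 : eLpNorm (fun x : ℝ => ((x ^ ((m : ℝ) / 2) : ℝ) : ℂ) * HH (j + m) h j x)
      (ENNReal.ofReal p) mu = eLpNorm (opA (kk j m)
        fun s : ℝ => ((s ^ ((j : ℝ) + (m : ℝ) / 2) : ℝ) : ℂ) * w s) (ENNReal.ofReal p) mu := by
    apply eLpNorm_congr_ae
    rw [mu, Filter.EventuallyEq, ae_restrict_iff' measurableSet_Ioi]
    refine Eventually.of_forall fun t ht => ?_
    have h3 := hK j m h hj hh1 ⟨R', hR'⟩ t ht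
    rw [hh2] at h3
    exact h3
  rw [n1, n2, n3, mul_left_comm]
  exact mul_le_mul_right hRT' _

end Pool.Agent.R223.RX.PLN
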