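import Pool.Agent.R223.RX.Stm

/-! Project RX, piece RT: Riesz-Thorin interpolation for a kernel operator. -/

set_option autoImplicit false

open MeasureTheory Set Filter Topology
open Pool.Agent.R223.RD (Cc)

namespace Pool.Agent.R223.RX.RT

/-- Integrals of exponentials are entire functions. -/
theorem hol {X : Type} [MeasurableSpace X] {μ : Measure X} {c : X → ℂ} {φ : X → ℝ} {M : ℝ}
    (hc : Integrable c μ) (hφ : AEStronglyMeasurable φ μ) (hM0 : 0 ≤ M) (hM : ∀ x, |φ x| ≤ M) :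
    Differentiable ℂ fun z : ℂ => ∫ x, c x * Complex.exp (z * (φ x : ℂ)) ∂μ := by
  intro z0
  have hφc : AEStronglyMeasurable (fun x => ((φ x : ℝ) : ℂ)) μ :=
    Complex.continuous_ofReal.comp_aestronglyMeasurable hφ
  have hmeas : ∀ z : ℂ, AEStronglyMeasurable (fun x => Complex.exp (z * (φ x : ℂ))) μ := fun z =>
    Complex.continuous_exp.comp_aestronglyMeasurable (hφc.const_mul z)
  have hexp : ∀ (z : ℂ) x, ‖Complex.exp (z * (φ x : ℂ))‖ ≤ Real.exp (‖z‖ * M) := by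
    intro z x
    rw [Complex.norm_exp]
    refine Real.exp_le_exp.2 ?_
    rw [Complex.re_mul_ofReal]
    calc z.re * φ x ≤ |z.re * φ x| := le_abs_self _
      _ = |z.re| * |φ x| := abs_mul _ _
      _ ≤ ‖z‖ * M := mul_le_mul (Complex.abs_re_le_norm z) (hM x) (abs_nonneg _) (norm_nonneg _)
  refine (hasDerivAt_integral_of_dominated_loc_of_deriv_le (μ := μ) (s := Metric.ball z0 1)
    (F := fun z x => c x * Complex.exp (z * (φ x : ℂ)))
    (F' := fun z x => c x * (Complex.exp (z * (φ x : ℂ)) * (φ x : ℂ)))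
    (bound := fun x => ‖c x‖ * (Real.exp ((‖z0‖ + 1) * M) * M))
    (Metric.ball_mem_nhds z0 one_pos) ?_ ?_ ?_ ?_ ?_ ?_).2.differentiableAt
  · exact Eventually.of_forall fun z => hc.aestronglyMeasurable.mul (hmeas z)
  · refine (hc.norm.mul_const (Real.exp (‖z0‖ * M))).mono'
      (hc.aestronglyMeasurable.mul (hmeas z0)) (Eventually.of_forall fun x => ?_)
    rw [norm_mul]
    exact mul_le_mul_of_nonneg_left (hexp z0 x) (norm_nonneg _)
  · exact hc.aestronglyMeasurable.mul ((hmeas z0).mul hφc)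
  · refine Eventually.of_forall fun x z hz => ?_
    rw [norm_mul, norm_mul]
    refine mul_le_mul_of_nonneg_left ?_ (norm_nonneg _)
    refine mul_le_mul ((hexp z x).trans (Real.exp_le_exp.2 (mul_le_mul_of_nonneg_right ?_ hM0)))
      ?_ (norm_nonneg _) (Real.exp_pos _).le
    · have h1 : ‖z - z0‖ < 1 := mem_ball_iff_norm.1 hz
      have h2 : ‖z‖ ≤ ‖z0‖ + ‖z - z0‖ := by
        calc ‖z‖ = ‖z0 + (z - z0)‖ := by rw [add_sub_cancel]
          _ ≤ _ := norm_add_le _ _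
      linarith
    · rw [Complex.norm_real]
      exact hM x
  · exact hc.norm.mul_const _
  · refine Eventually.of_forall fun x z _ => ?_
    have h1 : HasDerivAt (fun w : ℂ => w * (φ x : ℂ)) (φ x : ℂ) z := by
      have h2 := (hasDerivAt_id z).mul_const (φ x : ℂ)
      rwa [one_mul] at h2
    exact (h1.cexp).const_mul (c x)

theorem hol_bound {X : Type} [MeasurableSpace X] {μ : Measure X} {c : X → ℂ} {φ : X → ℝ} {M : ℝ}
    (hc : Integrable c μ) (hM : ∀ x, |φ x| ≤ M) {z : ℂ} (h0 : 0 ≤ z.re)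
    (h1 : z.re ≤ 1) : ‖∫ x, c x * Complex.exp (z * (φ x : ℂ)) ∂μ‖ ≤ (∫ x, ‖c x‖ ∂μ) * Real.exp M := by
  rw [← integral_mul_const]
  refine norm_integral_le_of_norm_le (hc.norm.mul_const _) (Eventually.of_forall fun x => ?_)
  rw [norm_mul, Complex.norm_exp, Complex.re_mul_ofReal]
  refine mul_le_mul_of_nonneg_left (Real.exp_le_exp.2 ?_) (norm_nonneg _)
  calc z.re * φ x ≤ |z.re * φ x| := le_abs_self _
    _ = |z.re| * |φ x| := abs_mul _ _
    _ ≤ 1 * M := mul_le_mul (by rw [abs_of_nonneg h0]; exact h1) (hM x) (abs_nonneg _) zero_le_one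
    _ = M := one_mul _

/-- the averaging part of the operator is continuous -/
theorem avg_cont {k : ℝ → ℝ} {a : ℝ → ℂ} {C : ℝ} (hk : IntegrableOn k (Ioi (0 : ℝ)))
    (ha : Continuous a) (hC : ∀ x, ‖a x‖ ≤ C) :
    Continuous fun t : ℝ => ∫ y in Ioi (0 : ℝ), (k y : ℂ) * a (t * (1 + y)) := by
  have hkc : AEStronglyMeasurable (fun y => ((k y : ℝ) : ℂ)) (volume.restrict (Ioi (0 : ℝ))) :=
    Complex.continuous_ofReal.comp_aestronglyMeasurable hk.aestronglyMeasurable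
  refine continuous_of_dominated (bound := fun y => ‖k y‖ * C) (fun t => ?_) (fun t => ?_)
    (hk.norm.mul_const C) ?_
  · exact hkc.mul (ha.comp (by fun_prop)).aestronglyMeasurable
  · refine Eventually.of_forall fun y => ?_
    rw [norm_mul, Complex.norm_real]
    exact mul_le_mul_of_nonneg_left (hC _) (norm_nonneg _)
  · refine Eventually.of_forall fun y => ?_
    exact continuous_const.mul (ha.comp (by fun_prop))

theorem avg_bound {k : ℝ → ℝ} {a : ℝ → ℂ} {C : ℝ} (hk : IntegrableOn k (Ioi (0 : ℝ)))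
    (hC : ∀ x, ‖a x‖ ≤ C) (t : ℝ) :
    ‖∫ y in Ioi (0 : ℝ), (k y : ℂ) * a (t * (1 + y))‖ ≤ (∫ y in Ioi (0 : ℝ), |k y|) * C := by
  rw [← integral_mul_const]
  refine norm_integral_le_of_norm_le (hk.norm.mul_const _) (Eventually.of_forall fun y => ?_)
  rw [norm_mul, Complex.norm_real]
  exact mul_le_mul_of_nonneg_left (hC _) (norm_nonneg _)

/-- norms on the half line of functions which vanish far away -/
theorem eLp {f : ℝ → ℂ} {R p : ℝ} (hf : Continuous f) (hf0 : ∀ x, R ≤ x → f x = 0)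
    (hp : 1 ≤ p) : MemLp f (ENNReal.ofReal p) (volume.restrict (Ioi (0 : ℝ))) ∧
    eLpNorm f (ENNReal.ofReal p) (volume.restrict (Ioi (0 : ℝ))) =
      ENNReal.ofReal ((∫ x in Ioc (0 : ℝ) R, ‖f x‖ ^ p) ^ (1 / p)) := by
  have hp0 : 0 < p := by linarith
  have hind : f =ᵐ[volume.restrict (Ioi (0 : ℝ))] (Icc (0 : ℝ) R).indicator f := by
    filter_upwards [ae_restrict_mem measurableSet_Ioi] with x hx
    by_cases h : x ≤ R
    · rw [indicator_of_mem (show x ∈ Icc (0 : ℝ) R from ⟨le_of_lt hx, h⟩)]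
    · rw [indicator_of_notMem fun h' => h h'.2, hf0 x (by linarith)]
  have hmem : MemLp f (ENNReal.ofReal p) (volume.restrict (Ioi (0 : ℝ))) := by
    refine MemLp.ae_eq hind.symm ?_
    rw [memLp_indicator_iff_restrict measurableSet_Icc]
    obtain ⟨C, hC⟩ := (isCompact_Icc (a := (0 : ℝ)) (b := R)).exists_bound_of_continuousOn
      hf.continuousOn
    have hfin : IsFiniteMeasure ((volume.restrict (Ioi (0 : ℝ))).restrict (Icc (0 : ℝ) R)) := by
      refine ⟨?_⟩
      rw [Measure.restrict_apply MeasurableSet.univ, univ_inter]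
      exact (Measure.restrict_apply_le _ _).trans_lt measure_Icc_lt_top
    refine MemLp.of_bound hf.aestronglyMeasurable C ?_
    filter_upwards [ae_restrict_mem measurableSet_Icc] with x hx
    exact hC x hx
  refine ⟨hmem, ?_⟩
  rw [hmem.eLpNorm_eq_integral_rpow_norm (by
    rw [Ne, ENNReal.ofReal_eq_zero, not_le]; exact hp0) ENNReal.ofReal_ne_top,
    ENNReal.toReal_ofReal hp0.le, one_div]
  congr 2
  refine setIntegral_eq_of_subset_of_forall_sdiff_eq_zero measurableSet_Ioi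
    (fun x hx => hx.1) fun x hx => ?_
  have h1 : R ≤ x := by
    by_contra h
    push Not at h
    exact hx.2 ⟨hx.1, h.le⟩
  rw [hf0 x h1, norm_zero, Real.zero_rpow hp0.ne']

/-- Cauchy-Schwarz on a bounded interval -/
theorem cs {u v : ℝ → ℂ} {R : ℝ} (hu : Continuous u) (hv : Continuous v) :
    ‖∫ t in Ioc (0 : ℝ) R, u t * v t‖ ≤ (∫ t in Ioc (0 : ℝ) R, ‖u t‖ ^ (2 : ℝ)) ^ (1 / 2 : ℝ) *
      (∫ t in Ioc (0 : ℝ) R, ‖v t‖ ^ (2 : ℝ)) ^ (1 / 2 : ℝ) := by
  have hm : ∀ {w : ℝ → ℂ}, Continuous w →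
      MemLp w (ENNReal.ofReal 2) (volume.restrict (Ioc (0 : ℝ) R)) := by
    intro w hw
    obtain ⟨C, hC⟩ := (isCompact_Icc (a := (0 : ℝ)) (b := R)).exists_bound_of_continuousOn
      hw.continuousOn
    refine MemLp.of_bound hw.aestronglyMeasurable C ?_
    filter_upwards [ae_restrict_mem measurableSet_Ioc] with x hx
    exact hC x ⟨hx.1.le, hx.2⟩
  refine (norm_integral_le_integral_norm _).trans ?_
  simp only [norm_mul]
  exact integral_mul_norm_le_Lp_mul_Lq Real.HolderConjugate.two_two (hm hu) (hm hv)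


/-- the logarithm of the regularized square -/
noncomputable def Lg (ε : ℝ) (a : ℝ → ℂ) (s : ℝ) : ℝ := Real.log (‖a s‖ ^ 2 + ε)

/-- the phase -/
noncomputable def ph (p ε : ℝ) (a : ℝ → ℂ) (s : ℝ) : ℝ := p / 4 * Lg ε a s

/-- the coefficient -/
noncomputable def al (p ε : ℝ) (a : ℝ → ℂ) (s : ℝ) : ℂ :=
  a s * ((Real.exp ((p / 4 - 1 / 2) * Lg ε a s) : ℝ) : ℂ)

/-- the analytic family -/
noncomputable def az (p ε : ℝ) (a : ℝ → ℂ) (z : ℂ) (s : ℝ) : ℂ :=
  al p ε a s * Complex.exp (z * ((-ph p ε a s : ℝ) : ℂ))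

/-- the dual family -/
noncomputable def gz (p ε : ℝ) (b : ℝ → ℂ) (z : ℂ) (t : ℝ) : ℂ :=
  (starRingEnd ℂ) (al p ε b t) * Complex.exp (z * (ph p ε b t : ℂ))

section

variable {p ε : ℝ} {a : ℝ → ℂ}

theorem pos_sq (hε : 0 < ε) (s : ℝ) : 0 < ‖a s‖ ^ 2 + ε := by positivity

theorem exp_Lg (hε : 0 < ε) (s : ℝ) : Real.exp (Lg ε a s) = ‖a s‖ ^ 2 + ε :=
  Real.exp_log (pos_sq hε s)

theorem Lg_cont (hε : 0 < ε) (ha : Continuous a) : Continuous (Lg ε a) := by
  unfold Lg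
  exact Continuous.log ((ha.norm.pow 2).add continuous_const) fun s => (pos_sq hε s).ne'

theorem Lg_bound (hε : 0 < ε) {C : ℝ} (hC : ∀ x, ‖a x‖ ≤ C) (s : ℝ) :
    |Lg ε a s| ≤ |Real.log ε| + |Real.log (C ^ 2 + ε)| := by
  have h1 : Real.log ε ≤ Lg ε a s := by
    refine Real.log_le_log hε ?_
    have := sq_nonneg ‖a s‖
    linarith
  have h2 : Lg ε a s ≤ Real.log (C ^ 2 + ε) := by
    refine Real.log_le_log (pos_sq hε s) ?_
    have := pow_le_pow_left₀ (norm_nonneg _) (hC s) 2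
    linarith
  rw [abs_le]
  constructor
  · have h3 := neg_abs_le (Real.log ε)
    have h4 := abs_nonneg (Real.log (C ^ 2 + ε))
    linarith
  · have h3 := le_abs_self (Real.log (C ^ 2 + ε))
    have h4 := abs_nonneg (Real.log ε)
    linarith

theorem ph_cont (hε : 0 < ε) (ha : Continuous a) : Continuous (ph p ε a) :=
  continuous_const.mul (Lg_cont hε ha)

theorem al_cont (hε : 0 < ε) (ha : Continuous a) : Continuous (al p ε a) :=
  ha.mul (Complex.continuous_ofReal.comp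
    (Real.continuous_exp.comp (continuous_const.mul (Lg_cont hε ha))))

theorem az_cont (hε : 0 < ε) (ha : Continuous a) (z : ℂ) : Continuous (az p ε a z) :=
  (al_cont hε ha).mul (Complex.continuous_exp.comp (continuous_const.mul
    (Complex.continuous_ofReal.comp (ph_cont hε ha).neg)))

theorem gz_cont (hε : 0 < ε) (ha : Continuous a) (z : ℂ) : Continuous (gz p ε a z) :=
  (Complex.continuous_conj.comp (al_cont hε ha)).mul
    (Complex.continuous_exp.comp (continuous_const.mul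
    (Complex.continuous_ofReal.comp (ph_cont hε ha))))

theorem al_le (hε : 0 < ε) (s : ℝ) : ‖al p ε a s‖ ≤ Real.exp (ph p ε a s) := by
  unfold al ph
  rw [norm_mul, Complex.norm_real, Real.norm_eq_abs, abs_of_pos (Real.exp_pos _)]
  have h1 : ‖a s‖ ≤ Real.exp (1 / 2 * Lg ε a s) := by
    have h2 : Real.exp (1 / 2 * Lg ε a s) ^ 2 = ‖a s‖ ^ 2 + ε := by
      rw [← exp_Lg (a := a) hε s, ← Real.exp_nat_mul]
      congr 1
      push_cast
      ring
    refine (sq_le_sq₀ (norm_nonneg _) (Real.exp_pos _).le).1 ?_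
    rw [h2]
    linarith
  calc ‖a s‖ * Real.exp ((p / 4 - 1 / 2) * Lg ε a s)
      ≤ Real.exp (1 / 2 * Lg ε a s) * Real.exp ((p / 4 - 1 / 2) * Lg ε a s) :=
        mul_le_mul_of_nonneg_right h1 (Real.exp_pos _).le
    _ = Real.exp (p / 4 * Lg ε a s) := by
        rw [← Real.exp_add]
        congr 1
        ring

theorem exp_ph (hε : 0 < ε) (s : ℝ) :
    Real.exp (ph p ε a s) ^ 2 = (‖a s‖ ^ 2 + ε) ^ (p / 2) := by
  rw [Real.rpow_def_of_pos (pos_sq hε s), ← Real.exp_nat_mul]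
  congr 1
  unfold ph Lg
  push_cast
  ring

theorem az_norm (z : ℂ) (s : ℝ) :
    ‖az p ε a z s‖ = ‖al p ε a s‖ * Real.exp (-(z.re * ph p ε a s)) := by
  unfold az
  rw [norm_mul, Complex.norm_exp, Complex.re_mul_ofReal, mul_neg]

theorem gz_norm (z : ℂ) (s : ℝ) :
    ‖gz p ε a z s‖ = ‖al p ε a s‖ * Real.exp (z.re * ph p ε a s) := by
  unfold gz
  rw [norm_mul, Complex.norm_exp, Complex.re_mul_ofReal, RCLike.norm_conj]

theorem az_theta (hp : 2 ≤ p) (s : ℝ) : az p ε a ((1 - 2 / p : ℝ) : ℂ) s = a s := by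
  have hp0 : p ≠ 0 := by linarith
  unfold az al
  rw [← Complex.ofReal_mul, ← Complex.ofReal_exp, mul_assoc, ← Complex.ofReal_mul, ← Real.exp_add]
  have h1 : (p / 4 - 1 / 2) * Lg ε a s + (1 - 2 / p) * -ph p ε a s = 0 := by
    unfold ph
    field_simp
    ring
  rw [h1, Real.exp_zero, Complex.ofReal_one, mul_one]

theorem gz_theta (hp : 2 ≤ p) (hε : 0 < ε) (s : ℝ) :
    ‖a s‖ ^ p ≤ (a s * gz p ε a ((1 - 2 / p : ℝ) : ℂ) s).re := by
  have hp0 : p ≠ 0 := by linarith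
  have h1 : a s * gz p ε a ((1 - 2 / p : ℝ) : ℂ) s =
      ((‖a s‖ ^ 2 * Real.exp ((p / 2 - 1) * Lg ε a s) : ℝ) : ℂ) := by
    unfold gz al
    rw [map_mul, Complex.conj_ofReal, ← Complex.ofReal_mul, ← Complex.ofReal_exp, mul_assoc,
      ← Complex.ofReal_mul, ← Real.exp_add, ← mul_assoc, Complex.mul_conj, Complex.normSq_eq_norm_sq,
      ← Complex.ofReal_mul]
    congr 3
    unfold ph
    field_simp
    ring
  rw [h1, Complex.ofReal_re]
  rcases (norm_nonneg (a s)).eq_or_lt with h0 | h0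
  · rw [← h0, Real.zero_rpow hp0]
    positivity
  · have h2 : ‖a s‖ ^ p = ‖a s‖ ^ 2 * Real.exp ((p / 2 - 1) * Real.log (‖a s‖ ^ 2)) := by
      rw [Real.log_pow, Real.rpow_def_of_pos h0]
      have h3 : ‖a s‖ ^ 2 = Real.exp (2 * Real.log ‖a s‖) := by
        rw [two_mul, Real.exp_add, Real.exp_log h0, sq]
      rw [h3, ← Real.exp_add]
      congr 1
      push_cast
      ring
    rw [h2]
    refine mul_le_mul_of_nonneg_left (Real.exp_le_exp.2 (mul_le_mul_of_nonneg_left ?_ ?_))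
      (by positivity)
    · unfold Lg
      exact Real.log_le_log (by positivity) (by linarith)
    · linarith

theorem az_Cc (hε : 0 < ε) (ha : Cc a) (z : ℂ) : Cc (az p ε a z) := by
  obtain ⟨has, c0, R, hc0, hcR, ha0, haR⟩ := ha
  have hL : ContDiff ℝ (⊤ : ℕ∞) (Lg ε a) := by
    unfold Lg
    exact ContDiff.log ((has.norm_sq ℝ).add contDiff_const) fun s => (pos_sq hε s).ne'
  have hofR : ContDiff ℝ (⊤ : ℕ∞) (fun x : ℝ => (x : ℂ)) := Complex.ofRealCLM.contDiff
  refine ⟨?_, c0, R, hc0, hcR, fun x hx => ?_, fun x hx => ?_⟩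
  · unfold az al ph
    exact (has.mul (hofR.comp (Real.contDiff_exp.comp (contDiff_const.mul hL)))).mul
      (ContDiff.cexp (contDiff_const.mul (hofR.comp (contDiff_const.mul hL).neg)))
  · unfold az al
    rw [ha0 x hx, zero_mul, zero_mul]
  · unfold az al
    rw [haR x hx, zero_mul, zero_mul]

end



section

variable {p ε R C : ℝ} {k : ℝ → ℝ} {a b : ℝ → ℂ}

/-- the first coefficient -/
noncomputable def c1 (p ε : ℝ) (a b : ℝ → ℂ) (t : ℝ) : ℂ :=
  al p ε a t * (starRingEnd ℂ) (al p ε b t)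

/-- the second coefficient -/
noncomputable def c2 (p ε : ℝ) (k : ℝ → ℝ) (a b : ℝ → ℂ) (x : ℝ × ℝ) : ℂ :=
  (k x.2 : ℂ) * (al p ε a (x.1 * (1 + x.2)) * (starRingEnd ℂ) (al p ε b x.1))

/-- the pairing -/
noncomputable def FF (p ε R : ℝ) (k : ℝ → ℝ) (a b : ℝ → ℂ) (z : ℂ) : ℂ :=
  ∫ t in Ioc (0 : ℝ) R, opA k (az p ε a z) t * gz p ε b z t

theorem c1_int (hε : 0 < ε) (ha : Continuous a) (hb : Continuous b) :
    Integrable (c1 p ε a b) (volume.restrict (Ioc (0 : ℝ) R)) :=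
  ((al_cont hε ha).mul (Complex.continuous_conj.comp (al_cont hε hb))).integrableOn_Ioc

theorem al_bound (hε : 0 < ε) (hp : 2 ≤ p) (hC : ∀ x, ‖a x‖ ≤ C) :
    ∃ D : ℝ, 0 ≤ D ∧ ∀ s, ‖al p ε a s‖ ≤ D := by
  refine ⟨Real.exp (p / 4 * (|Real.log ε| + |Real.log (C ^ 2 + ε)|)), (Real.exp_pos _).le,
    fun s => (al_le hε s).trans (Real.exp_le_exp.2 ?_)⟩
  exact mul_le_mul_of_nonneg_left ((le_abs_self _).trans (Lg_bound hε hC s)) (by linarith)

theorem ph_bound (hε : 0 < ε) (hp : 2 ≤ p) (hC : ∀ x, ‖a x‖ ≤ C) :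
    ∃ D : ℝ, 0 ≤ D ∧ ∀ s, |ph p ε a s| ≤ D := by
  refine ⟨p / 4 * (|Real.log ε| + |Real.log (C ^ 2 + ε)|), by positivity, fun s => ?_⟩
  unfold ph
  rw [abs_mul, abs_of_nonneg (by linarith : (0 : ℝ) ≤ p / 4)]
  exact mul_le_mul_of_nonneg_left (Lg_bound hε hC s) (by linarith)

theorem c2_int (hε : 0 < ε) (hp : 2 ≤ p) (hk : IntegrableOn k (Ioi (0 : ℝ)))
    (ha : Continuous a) (hb : Continuous b)
    (hC : ∀ x, ‖a x‖ ≤ C) (hC' : ∀ x, ‖b x‖ ≤ C) :
    Integrable (c2 p ε k a b)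
      ((volume.restrict (Ioc (0 : ℝ) R)).prod (volume.restrict (Ioi (0 : ℝ)))) := by
  obtain ⟨D, hD0, hD⟩ := al_bound hε hp hC
  obtain ⟨D', hD0', hD'⟩ := al_bound hε hp hC'
  have hkc : AEStronglyMeasurable (fun y => ((k y : ℝ) : ℂ)) (volume.restrict (Ioi (0 : ℝ))) :=
    Complex.continuous_ofReal.comp_aestronglyMeasurable hk.aestronglyMeasurable
  have h1 : Integrable (fun x : ℝ × ℝ => (D * D') * |k x.2|)
      ((volume.restrict (Ioc (0 : ℝ) R)).prod (volume.restrict (Ioi (0 : ℝ)))) := by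
    have h2 : Integrable (fun _ : ℝ => D * D') (volume.restrict (Ioc (0 : ℝ) R)) :=
      integrable_const _
    exact h2.mul_prod hk.norm
  refine h1.mono' ?_ (Eventually.of_forall fun x => ?_)
  · refine AEStronglyMeasurable.mul hkc.comp_snd ?_
    refine (Continuous.mul ?_ ?_).aestronglyMeasurable
    · exact (al_cont hε ha).comp (by fun_prop)
    · exact Complex.continuous_conj.comp ((al_cont hε hb).comp continuous_fst)
  · unfold c2
    rw [norm_mul, norm_mul, Complex.norm_real, RCLike.norm_conj, mul_comm]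
    exact mul_le_mul_of_nonneg_right (mul_le_mul (hD _) (hD' _) (norm_nonneg _) hD0)
      (norm_nonneg _)

theorem az_bound (hε : 0 < ε) (hp : 2 ≤ p) (hC : ∀ x, ‖a x‖ ≤ C) (z : ℂ) :
    ∃ D : ℝ, ∀ s, ‖az p ε a z s‖ ≤ D := by
  obtain ⟨D, hD0, hD⟩ := al_bound hε hp hC
  obtain ⟨D', hD0', hD'⟩ := ph_bound hε hp hC
  refine ⟨D * Real.exp (|z.re| * D'), fun s => ?_⟩
  rw [az_norm]
  refine mul_le_mul (hD s) (Real.exp_le_exp.2 ?_) (Real.exp_pos _).le hD0
  calc -(z.re * ph p ε a s) ≤ |z.re * ph p ε a s| := neg_le_abs _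
    _ = |z.re| * |ph p ε a s| := abs_mul _ _
    _ ≤ _ := mul_le_mul_of_nonneg_left (hD' s) (abs_nonneg _)

theorem FF_eq (hε : 0 < ε) (hp : 2 ≤ p) (hk : IntegrableOn k (Ioi (0 : ℝ)))
    (ha : Continuous a) (hb : Continuous b)
    (hC : ∀ x, ‖a x‖ ≤ C) (hC' : ∀ x, ‖b x‖ ≤ C) (z : ℂ) :
    FF p ε R k a b z =
      (∫ t in Ioc (0 : ℝ) R, c1 p ε a b t *
        Complex.exp (z * ((ph p ε b t - ph p ε a t : ℝ) : ℂ))) -
      ∫ x, c2 p ε k a b x *
        Complex.exp (z * ((ph p ε b x.1 - ph p ε a (x.1 * (1 + x.2)) : ℝ) : ℂ))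
          ∂((volume.restrict (Ioc (0 : ℝ) R)).prod (volume.restrict (Ioi (0 : ℝ)))) := by
  obtain ⟨Da, hDa⟩ := az_bound (p := p) hε hp hC z
  obtain ⟨D1, hD10, hD1⟩ := ph_bound hε hp hC
  obtain ⟨D2, hD20, hD2⟩ := ph_bound hε hp hC'
  have hint : Integrable (fun x : ℝ × ℝ => c2 p ε k a b x *
      Complex.exp (z * ((ph p ε b x.1 - ph p ε a (x.1 * (1 + x.2)) : ℝ) : ℂ)))
      ((volume.restrict (Ioc (0 : ℝ) R)).prod (volume.restrict (Ioi (0 : ℝ)))) := by
    have h0 := c2_int (R := R) hε hp hk ha hb hC hC'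
    have hcont : Continuous fun x : ℝ × ℝ =>
        Complex.exp (z * ((ph p ε b x.1 - ph p ε a (x.1 * (1 + x.2)) : ℝ) : ℂ)) := by
      have e1 := ph_cont (p := p) hε hb
      have e2 := ph_cont (p := p) hε ha
      refine Complex.continuous_exp.comp (continuous_const.mul
        (Complex.continuous_ofReal.comp ((e1.comp continuous_fst).sub (e2.comp ?_))))
      fun_prop
    refine (h0.norm.mul_const (Real.exp (|z.re| * (D2 + D1)))).mono'
      (h0.aestronglyMeasurable.mul hcont.aestronglyMeasurable) (Eventually.of_forall fun x => ?_)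
    rw [norm_mul, Complex.norm_exp, Complex.re_mul_ofReal]
    refine mul_le_mul_of_nonneg_left (Real.exp_le_exp.2 ?_) (norm_nonneg _)
    refine (le_abs_self _).trans ?_
    rw [abs_mul]
    refine mul_le_mul_of_nonneg_left ?_ (abs_nonneg _)
    exact (abs_sub _ _).trans (add_le_add (hD2 _) (hD1 _))
  rw [integral_prod _ hint]
  unfold FF opA
  simp only [sub_mul]
  rw [integral_sub]
  · congr 1
    · refine setIntegral_congr_fun measurableSet_Ioc fun t _ => ?_
      simp only [az, gz, c1]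
      rw [Complex.ofReal_sub, mul_sub, sub_eq_add_neg, Complex.exp_add, Complex.ofReal_neg, mul_neg]
      ring
    · refine setIntegral_congr_fun measurableSet_Ioc fun t _ => ?_
      rw [← integral_mul_const]
      refine setIntegral_congr_fun measurableSet_Ioi fun y _ => ?_
      simp only [az, gz, c2]
      rw [Complex.ofReal_sub, mul_sub, sub_eq_add_neg, Complex.exp_add, Complex.ofReal_neg, mul_neg]
      ring
  · exact ((az_cont hε ha z).mul (gz_cont hε hb z)).integrableOn_Ioc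
  · exact ((avg_cont hk (az_cont hε ha z) hDa).mul (gz_cont hε hb z)).integrableOn_Ioc

/-- the pairing is entire, and bounded on the strip -/
theorem FF_hol (hε : 0 < ε) (hp : 2 ≤ p) (hk : IntegrableOn k (Ioi (0 : ℝ)))
    (ha : Continuous a) (hb : Continuous b)
    (hC : ∀ x, ‖a x‖ ≤ C) (hC' : ∀ x, ‖b x‖ ≤ C) :
    Differentiable ℂ (FF p ε R k a b) ∧
      ∃ D : ℝ, ∀ z : ℂ, 0 ≤ z.re → z.re ≤ 1 → ‖FF p ε R k a b z‖ ≤ D := by
  obtain ⟨D1, hD10, hD1⟩ := ph_bound hε hp hC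
  obtain ⟨D2, hD20, hD2⟩ := ph_bound hε hp hC'
  have e1 := ph_cont (p := p) hε hb
  have e2 := ph_cont (p := p) hε ha
  have hi1 := c1_int (p := p) (R := R) hε ha hb
  have hi2 := c2_int (R := R) hε hp hk ha hb hC hC'
  have hb1 : ∀ t, |ph p ε b t - ph p ε a t| ≤ D2 + D1 := fun t =>
    (abs_sub _ _).trans (add_le_add (hD2 _) (hD1 _))
  have hb2 : ∀ x : ℝ × ℝ, |ph p ε b x.1 - ph p ε a (x.1 * (1 + x.2))| ≤ D2 + D1 := fun x =>
    (abs_sub _ _).trans (add_le_add (hD2 _) (hD1 _))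
  have hcont2 : Continuous fun x : ℝ × ℝ => ph p ε b x.1 - ph p ε a (x.1 * (1 + x.2)) :=
    (e1.comp continuous_fst).sub (e2.comp (by fun_prop))
  have heq : FF p ε R k a b = fun z => _ := funext fun z => FF_eq hε hp hk ha hb hC hC' z
  have h0 : 0 ≤ D2 + D1 := by linarith
  constructor
  · rw [heq]
    exact (hol hi1 (e1.sub e2).aestronglyMeasurable h0 hb1).sub
      (hol hi2 hcont2.aestronglyMeasurable h0 hb2)
  · refine ⟨(∫ t in Ioc (0 : ℝ) R, ‖c1 p ε a b t‖) * Real.exp (D2 + D1) +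
      (∫ x, ‖c2 p ε k a b x‖
        ∂((volume.restrict (Ioc (0 : ℝ) R)).prod (volume.restrict (Ioi (0 : ℝ))))) *
        Real.exp (D2 + D1), fun z hz0 hz1 => ?_⟩
    rw [FF_eq hε hp hk ha hb hC hC' z]
    exact (norm_sub_le _ _).trans (add_le_add (hol_bound hi1 hb1 hz0 hz1)
      (hol_bound hi2 hb2 hz0 hz1))

end



/-- the final computation -/
theorem fin_alg {p κ X Y : ℝ} (hp : 2 ≤ p) (hκ : 0 < κ) (hX : 0 ≤ X) (hY : 0 ≤ Y)
    (h : X ≤ (Y ^ (1 / 2 : ℝ) * X ^ (1 / 2 : ℝ)) ^ (1 - (1 - 2 / p)) * (κ * X) ^ (1 - 2 / p)) :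
    X ^ (1 / p) ≤ κ ^ (1 - 2 / p) * Y ^ (1 / p) := by
  have hp0 : 0 < p := by linarith
  rcases hX.eq_or_lt with h0 | h0
  · rw [← h0, Real.zero_rpow (by positivity)]
    positivity
  · have h1 : (Y ^ (1 / 2 : ℝ) * X ^ (1 / 2 : ℝ)) ^ (1 - (1 - 2 / p)) =
        Y ^ (1 / p) * X ^ (1 / p) := by
      rw [Real.mul_rpow (by positivity) (by positivity), ← Real.rpow_mul hY, ← Real.rpow_mul hX]
      have h2 : (1 / 2 : ℝ) * (1 - (1 - 2 / p)) = 1 / p := by ring
      rw [h2]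
    have h3 : (κ * X) ^ (1 - 2 / p) = κ ^ (1 - 2 / p) * X ^ (1 - 2 / p) :=
      Real.mul_rpow hκ.le hX
    have h4 : X ^ (1 / p) * X ^ (1 - 2 / p) = X ^ (1 - 1 / p) := by
      rw [← Real.rpow_add h0]
      congr 1
      ring
    have h5 : X ^ (1 / p) * X ^ (1 - 1 / p) = X := by
      rw [← Real.rpow_add h0]
      have h6 : 1 / p + (1 - 1 / p) = 1 := by ring
      rw [h6, Real.rpow_one]
    rw [h1, h3] at h
    have h7 : X ^ (1 / p) * X ^ (1 - 1 / p) ≤ (κ ^ (1 - 2 / p) * Y ^ (1 / p)) * X ^ (1 - 1 / p) := by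
      rw [h5, ← h4]
      calc X ≤ _ := h
        _ = _ := by ring
    exact le_of_mul_le_mul_right h7 (Real.rpow_pos_of_pos h0 _)

/-- the power integrals depend continuously on the regularization -/
theorem Pf_cont {p R : ℝ} (hp : 2 ≤ p) (hR : 0 < R) {f : ℝ → ℂ} (hf : Continuous f) :
    Continuous fun ε : ℝ => ∫ t in Ioc (0 : ℝ) R, (‖f t‖ ^ 2 + |ε|) ^ (p / 2) := by
  have h1 : Continuous fun ε : ℝ => ∫ t in (0 : ℝ)..R, (‖f t‖ ^ 2 + |ε|) ^ (p / 2) := by
    refine intervalIntegral.continuous_parametric_intervalIntegral_of_continuous' ?_ 0 R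
    refine Continuous.rpow_const ?_ fun x => Or.inr (by linarith)
    exact ((hf.comp continuous_snd).norm.pow 2).add (continuous_abs.comp continuous_fst)
  refine h1.congr fun ε => ?_
  rw [intervalIntegral.integral_of_le hR.le]

/-- **Riesz-Thorin interpolation for the kernel operators.** -/
theorem main : S_RT := by
  intro k B p _ hk hkB hp h2 a ha
  have hCc := ha
  obtain ⟨has, c0, R, hc0, hcR, ha0, haR⟩ := ha
  have hR : 0 < R := hc0.trans hcR
  have hac : Continuous a := has.continuous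
  have hp0 : 0 < p := by linarith
  have hkn : 0 ≤ ∫ y in Ioi (0 : ℝ), |k y| := integral_nonneg fun _ => abs_nonneg _
  have hB0 : 0 ≤ B := hkn.trans hkB
  obtain ⟨C0, hC0⟩ : ∃ C : ℝ, ∀ x, ‖a x‖ ≤ C := by
    obtain ⟨C, hC⟩ := (isCompact_Icc (a := (0 : ℝ)) (b := R)).exists_bound_of_continuousOn
      hac.continuousOn
    refine ⟨max C 0, fun x => ?_⟩
    by_cases h : x ∈ Icc (0 : ℝ) R
    · exact (hC x h).trans (le_max_left _ _)
    · have h0 : a x = 0 := by
        by_cases h1 : x < 0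
        · exact ha0 x (by linarith)
        · refine haR x ?_
          by_contra h2
          push Not at h1 h2
          exact h ⟨h1, h2.le⟩
      rw [h0, norm_zero]
      exact le_max_right _ _
  have hvan : ∀ a' : ℝ → ℂ, (∀ x, R ≤ x → a' x = 0) → ∀ t, R ≤ t → opA k a' t = 0 := by
    intro a' ha' t ht
    unfold opA
    rw [ha' t ht, setIntegral_eq_zero_of_forall_eq_zero, sub_zero]
    intro y hy
    have hy0 : (0 : ℝ) < y := hy
    rw [ha' _ (by nlinarith), mul_zero]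
  obtain ⟨b, hbdef⟩ : ∃ b : ℝ → ℂ, b = opA k a := ⟨_, rfl⟩
  have hbc : Continuous b := by
    rw [hbdef]
    exact hac.sub (avg_cont hk hac hC0)
  have hb0 : ∀ x, R ≤ x → b x = 0 := by
    rw [hbdef]
    exact hvan a haR
  obtain ⟨C, hC, hC'⟩ : ∃ C : ℝ, (∀ x, ‖a x‖ ≤ C) ∧ ∀ x, ‖b x‖ ≤ C := by
    refine ⟨max C0 (C0 + (∫ y in Ioi (0 : ℝ), |k y|) * C0),
      fun x => (hC0 x).trans (le_max_left _ _), fun x => ?_⟩
    refine le_trans ?_ (le_max_right _ _)
    rw [hbdef]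
    exact (norm_sub_le _ _).trans (add_le_add (hC0 x) (avg_bound hk hC0 x))
  -- the key inequality
  have key : ∀ ε : ℝ, 0 < ε → ∫ t in Ioc (0 : ℝ) R, ‖b t‖ ^ p ≤
      ((∫ t in Ioc (0 : ℝ) R, (‖a t‖ ^ 2 + ε) ^ (p / 2)) ^ (1 / 2 : ℝ) *
        (∫ t in Ioc (0 : ℝ) R, (‖b t‖ ^ 2 + ε) ^ (p / 2)) ^ (1 / 2 : ℝ)) ^ (1 - (1 - 2 / p)) *
      ((1 + B) * ∫ t in Ioc (0 : ℝ) R, (‖b t‖ ^ 2 + ε) ^ (p / 2)) ^ (1 - 2 / p) := by
    intro ε hε
    obtain ⟨hF, D, hD⟩ := FF_hol (R := R) hε hp hk hac hbc hC hC'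
    have hth0 : 0 ≤ 1 - 2 / p := by
      rw [sub_nonneg, div_le_one hp0]
      exact hp
    have hth1 : 1 - 2 / p ≤ 1 := by
      have : 0 < 2 / p := by positivity
      linarith
    have hle2 : ∀ {f : ℝ → ℂ}, Continuous f → ∀ (u : ℝ → ℂ), Continuous u →
        (∀ t, ‖u t‖ ≤ Real.exp (ph p ε f t)) →
        ∫ t in Ioc (0 : ℝ) R, ‖u t‖ ^ (2 : ℝ) ≤ ∫ t in Ioc (0 : ℝ) R, (‖f t‖ ^ 2 + ε) ^ (p / 2) := by
      intro f hf u hu hle
      refine setIntegral_mono ?_ ?_ fun t => ?_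
      · exact (Continuous.rpow_const hu.norm fun x => Or.inr zero_le_two).integrableOn_Ioc
      · exact (Continuous.rpow_const ((hf.norm.pow 2).add continuous_const) fun x =>
          Or.inr (by linarith)).integrableOn_Ioc
      · rw [Real.rpow_two, ← exp_ph hε]
        exact pow_le_pow_left₀ (norm_nonneg _) (hle t) 2
    have h3 := Complex.HadamardThreeLines.norm_le_interp_of_mem_verticalClosedStrip₀₁'
      (FF p ε R k a b) (z := ((1 - 2 / p : ℝ) : ℂ))
      (a := (∫ t in Ioc (0 : ℝ) R, (‖a t‖ ^ 2 + ε) ^ (p / 2)) ^ (1 / 2 : ℝ) *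
        (∫ t in Ioc (0 : ℝ) R, (‖b t‖ ^ 2 + ε) ^ (p / 2)) ^ (1 / 2 : ℝ))
      (b := (1 + B) * ∫ t in Ioc (0 : ℝ) R, (‖b t‖ ^ 2 + ε) ^ (p / 2))
      (by
        change (((1 - 2 / p : ℝ) : ℂ)).re ∈ Icc (0 : ℝ) 1
        rw [Complex.ofReal_re]
        exact ⟨hth0, hth1⟩) hF.diffContOnCl
      ⟨D, by
        rintro _ ⟨z, hz, rfl⟩
        exact hD z hz.1 hz.2⟩ ?_ ?_
    · rw [Complex.ofReal_re] at h3
      refine le_trans ?_ h3
      have haz : az p ε a ((1 - 2 / p : ℝ) : ℂ) = a := funext fun s => az_theta hp s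
      have hFt : FF p ε R k a b ((1 - 2 / p : ℝ) : ℂ) =
          ∫ t in Ioc (0 : ℝ) R, b t * gz p ε b ((1 - 2 / p : ℝ) : ℂ) t := by
        unfold FF
        rw [haz, hbdef]
      have hint : Integrable (fun t => b t * gz p ε b ((1 - 2 / p : ℝ) : ℂ) t)
          (volume.restrict (Ioc (0 : ℝ) R)) := (hbc.mul (gz_cont hε hbc _)).integrableOn_Ioc
      have hre : (∫ t in Ioc (0 : ℝ) R, b t * gz p ε b ((1 - 2 / p : ℝ) : ℂ) t).re =
          ∫ t in Ioc (0 : ℝ) R, (b t * gz p ε b ((1 - 2 / p : ℝ) : ℂ) t).re :=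
        (integral_re hint).symm
      rw [hFt]
      refine le_trans ?_ (Complex.re_le_norm _)
      rw [hre]
      refine setIntegral_mono ?_ ?_ fun t => gz_theta hp hε t
      · exact (Continuous.rpow_const hbc.norm fun x => Or.inr hp0.le).integrableOn_Ioc
      · exact (Complex.continuous_re.comp (hbc.mul (gz_cont hε hbc _))).integrableOn_Ioc
    · -- the line with real part zero
      intro z hz
      have hz0 : z.re = 0 := hz
      have hazc := az_Cc (p := p) hε hCc z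
      obtain ⟨Da, hDa⟩ := az_bound (p := p) hε hp hC z
      have hazcont := az_cont (p := p) hε hac z
      have hoc : Continuous (opA k (az p ε a z)) := hazcont.sub (avg_cont hk hazcont hDa)
      have haz0 : ∀ x, R ≤ x → az p ε a z x = 0 := by
        intro x hx
        unfold az al
        rw [haR x hx, zero_mul, zero_mul]
      refine (cs hoc (gz_cont hε hbc z)).trans ?_
      have h5 := h2 (az p ε a z) hazc
      have h22 : (2 : ENNReal) = ENNReal.ofReal 2 := by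
        rw [ENNReal.ofReal_ofNat]
      unfold mu at h5
      rw [h22, (eLp hoc (hvan _ haz0) one_le_two).2, (eLp hazcont haz0 one_le_two).2,
        ENNReal.ofReal_le_ofReal_iff (by positivity)] at h5
      have h6 : ∫ t in Ioc (0 : ℝ) R, ‖az p ε a z t‖ ^ (2 : ℝ) ≤
          ∫ t in Ioc (0 : ℝ) R, (‖a t‖ ^ 2 + ε) ^ (p / 2) := by
        refine hle2 hac _ hazcont fun t => ?_
        rw [az_norm, hz0, zero_mul, neg_zero, Real.exp_zero, mul_one]
        exact al_le hε t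
      have h7 : ∫ t in Ioc (0 : ℝ) R, ‖gz p ε b z t‖ ^ (2 : ℝ) ≤
          ∫ t in Ioc (0 : ℝ) R, (‖b t‖ ^ 2 + ε) ^ (p / 2) := by
        refine hle2 hbc _ (gz_cont hε hbc z) fun t => ?_
        rw [gz_norm, hz0, zero_mul, Real.exp_zero, mul_one]
        exact al_le hε t
      refine mul_le_mul (h5.trans (Real.rpow_le_rpow ?_ h6 (by norm_num)))
        (Real.rpow_le_rpow ?_ h7 (by norm_num)) ?_ ?_
      · exact integral_nonneg fun t => by positivity
      · exact integral_nonneg fun t => by positivity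
      · positivity
      · positivity
    · -- the line with real part one
      intro z hz
      have hz1 : z.re = 1 := hz
      have hazn : ∀ s, ‖az p ε a z s‖ ≤ 1 := by
        intro s
        rw [az_norm, hz1, one_mul]
        calc ‖al p ε a s‖ * Real.exp (-ph p ε a s)
            ≤ Real.exp (ph p ε a s) * Real.exp (-ph p ε a s) :=
              mul_le_mul_of_nonneg_right (al_le hε s) (Real.exp_pos _).le
          _ = 1 := by rw [← Real.exp_add, add_neg_cancel, Real.exp_zero]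
      have hgzn : ∀ t, ‖gz p ε b z t‖ ≤ (‖b t‖ ^ 2 + ε) ^ (p / 2) := by
        intro t
        rw [gz_norm, hz1, one_mul, ← exp_ph hε, sq]
        exact mul_le_mul_of_nonneg_right (al_le hε t) (Real.exp_pos _).le
      have hop : ∀ t, ‖opA k (az p ε a z) t‖ ≤ 1 + B := by
        intro t
        refine (norm_sub_le _ _).trans (add_le_add (hazn t) ?_)
        refine (avg_bound hk hazn t).trans ?_
        rw [mul_one]
        exact hkB
      rw [← integral_const_mul]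
      refine norm_integral_le_of_norm_le ?_ (Eventually.of_forall fun t => ?_)
      · exact (continuous_const.mul (Continuous.rpow_const
          ((hbc.norm.pow 2).add continuous_const) fun x => Or.inr (by linarith))).integrableOn_Ioc
      · rw [norm_mul]
        exact mul_le_mul (hop t) (hgzn t) (norm_nonneg _) (by linarith)
  -- the limit
  have hlim : ∫ t in Ioc (0 : ℝ) R, ‖b t‖ ^ p ≤
      ((∫ t in Ioc (0 : ℝ) R, (‖a t‖ ^ 2 + |0|) ^ (p / 2)) ^ (1 / 2 : ℝ) *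
        (∫ t in Ioc (0 : ℝ) R, (‖b t‖ ^ 2 + |0|) ^ (p / 2)) ^ (1 / 2 : ℝ)) ^ (1 - (1 - 2 / p)) *
      ((1 + B) * ∫ t in Ioc (0 : ℝ) R, (‖b t‖ ^ 2 + |0|) ^ (p / 2)) ^ (1 - 2 / p) := by
    have hca := Pf_cont hp hR hac
    have hcb := Pf_cont hp hR hbc
    have hth0 : 0 ≤ 1 - 2 / p := by
      rw [sub_nonneg, div_le_one hp0]
      exact hp
    have hc : Continuous fun ε : ℝ =>
        ((∫ t in Ioc (0 : ℝ) R, (‖a t‖ ^ 2 + |ε|) ^ (p / 2)) ^ (1 / 2 : ℝ) *
          (∫ t in Ioc (0 : ℝ) R, (‖b t‖ ^ 2 + |ε|) ^ (p / 2)) ^ (1 / 2 : ℝ)) ^ (1 - (1 - 2 / p)) *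
        ((1 + B) * ∫ t in Ioc (0 : ℝ) R, (‖b t‖ ^ 2 + |ε|) ^ (p / 2)) ^ (1 - 2 / p) := by
      refine Continuous.mul (Continuous.rpow_const (Continuous.mul
        (Continuous.rpow_const hca fun _ => Or.inr (by norm_num))
        (Continuous.rpow_const hcb fun _ => Or.inr (by norm_num))) fun _ => Or.inr ?_)
        (Continuous.rpow_const (continuous_const.mul hcb) fun _ => Or.inr hth0)
      have : 0 < 2 / p := by positivity
      linarith
    refine ge_of_tendsto ((hc.tendsto 0).mono_left (nhdsWithin_le_nhds (s := Ioi (0 : ℝ)))) ?_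
    filter_upwards [self_mem_nhdsWithin] with ε hε
    have hε' : (0 : ℝ) < ε := hε
    rw [abs_of_pos hε']
    exact key ε hε'
  have hpow : ∀ f : ℝ → ℂ, (∫ t in Ioc (0 : ℝ) R, (‖f t‖ ^ 2 + |(0 : ℝ)|) ^ (p / 2)) =
      ∫ t in Ioc (0 : ℝ) R, ‖f t‖ ^ p := by
    intro f
    refine setIntegral_congr_fun measurableSet_Ioc fun t _ => ?_
    rw [abs_zero, add_zero, ← Real.rpow_natCast, ← Real.rpow_mul (norm_nonneg _)]
    congr 1
    push_cast
    ring
  rw [hpow, hpow] at hlim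
  have hfin := fin_alg hp (by linarith : 0 < 1 + B)
    (integral_nonneg fun t => by positivity) (integral_nonneg fun t => by positivity) hlim
  rw [← hbdef]
  unfold mu
  rw [(eLp hbc hb0 (by linarith)).2, (eLp hac haR (by linarith)).2, ← ENNReal.ofReal_mul
    (by positivity)]
  exact ENNReal.ofReal_le_ofReal hfin


end Pool.Agent.R223.RX.RT
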