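import Pool.Agent.R223.RX.Stm
import Pool.Agent.R223.RD.CH
import Pool.Agent.Y282.RB.A1

/-!
# RX-SH (helper451): `T^(j + m)` and `T^j` have the same modulus on the type `2 j + m`
-/

set_option autoImplicit false

open MeasureTheory Set Filter Topology
open scoped SchwartzMap ContDiff

namespace Pool.Agent.R223.RX.SH

open Pool.Agent.Y282.RB (Tn)
open Pool.Agent.Y282.RB.A2
open Pool.Agent.R223.RD (Cc)
open Pool.Agent.R223.RD.CH (hs iter_zero iter_smooth)

/-- the Schwartz function `z ^ k F(|z| ^ 2)` -/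
lemma mkS (k : ℕ) {F : ℝ → ℂ} (hF : ContDiff ℝ (⊤ : ℕ∞) F) {R : ℝ} (hR : ∀ x, R ≤ x → F x = 0) :
    ∃ u : 𝓢(ℂ, ℂ), ∀ z, u z = z ^ k * F (Complex.normSq z) := by
  have hs : ContDiff ℝ ∞ (fun z : ℂ => z ^ k * F (Complex.normSq z)) := by
    have h1 : ContDiff ℝ ∞ (Complex.normSq : ℂ → ℝ) := by
      have e : (Complex.normSq : ℂ → ℝ) = fun z => z.re * z.re + z.im * z.im := by
        funext z
        exact Complex.normSq_apply z
      rw [e]
      exact (Complex.reCLM.contDiff.mul Complex.reCLM.contDiff).add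
        (Complex.imCLM.contDiff.mul Complex.imCLM.contDiff)
    exact (contDiff_id.pow k).mul (hF.comp h1)
  have hc : HasCompactSupport (fun z : ℂ => z ^ k * F (Complex.normSq z)) := by
    refine HasCompactSupport.intro (isCompact_closedBall (0 : ℂ) (|R| + 1)) fun w hw => ?_
    rw [Metric.mem_closedBall, dist_zero_right, not_le] at hw
    have h1 : R ≤ Complex.normSq w := by
      rw [Complex.normSq_eq_norm_sq]
      nlinarith [le_abs_self R, abs_nonneg R]
    rw [hR _ h1, mul_zero]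
  exact ⟨hc.toSchwartzMap hs, fun z => rfl⟩

theorem fd_conj (m : ℕ) (F : ℝ → ℂ) (z : ℂ) (hF : DifferentiableAt ℝ F (Complex.normSq z))
    (v : ℂ) :
    fderiv ℝ (fun z : ℂ => ((starRingEnd ℂ) z) ^ m * F (Complex.normSq z)) z v =
      m * ((starRingEnd ℂ) z) ^ (m - 1) * (starRingEnd ℂ) v * F (Complex.normSq z) +
      ((starRingEnd ℂ) z) ^ m *
        (((2 * z.re * v.re + 2 * z.im * v.im : ℝ) : ℂ) * deriv F (Complex.normSq z)) := by
  have h0 : HasFDerivAt (fun z : ℂ => z ^ m)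
      ((ContinuousLinearMap.toSpanSingleton ℂ
        (m * ((starRingEnd ℂ) z) ^ (m - 1) : ℂ)).restrictScalars ℝ) ((starRingEnd ℂ) z) :=
    (hasDerivAt_pow m ((starRingEnd ℂ) z)).hasFDerivAt.restrictScalars ℝ
  have h0' : HasFDerivAt (fun z : ℂ => (starRingEnd ℂ) z) (Complex.conjCLE : ℂ →L[ℝ] ℂ) z :=
    Complex.conjCLE.hasFDerivAt
  have h1 : HasFDerivAt (fun z : ℂ => ((starRingEnd ℂ) z) ^ m)
      (((ContinuousLinearMap.toSpanSingleton ℂ
        (m * ((starRingEnd ℂ) z) ^ (m - 1) : ℂ)).restrictScalars ℝ).comp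
          (Complex.conjCLE : ℂ →L[ℝ] ℂ)) z := HasFDerivAt.comp z h0 h0'
  have h2 : HasFDerivAt (fun z : ℂ => F (Complex.normSq z))
      ((ContinuousLinearMap.toSpanSingleton ℝ (deriv F (Complex.normSq z))).comp
        ((2 * z.re) • Complex.reCLM + (2 * z.im) • Complex.imCLM)) z :=
    HasFDerivAt.comp z hF.hasDerivAt.hasFDerivAt (fd_normSq z)
  have h3 := h1.mul h2
  have h4 : HasFDerivAt (fun z : ℂ => ((starRingEnd ℂ) z) ^ m * F (Complex.normSq z)) _ z := h3
  rw [h4.fderiv]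
  simp [Complex.real_smul]
  ring

theorem dd_conj {m : ℕ} {F : ℝ → ℂ} (hF : Differentiable ℝ F) {f : 𝓢(ℂ, ℂ)}
    (hf : ∀ z, f z = ((starRingEnd ℂ) z) ^ m * F (Complex.normSq z)) (z : ℂ) :
    dd f z = ((starRingEnd ℂ) z) ^ (m + 1) * deriv F (Complex.normSq z) := by
  have h1 : (f : ℂ → ℂ) = fun z : ℂ => ((starRingEnd ℂ) z) ^ m * F (Complex.normSq z) := funext hf
  rw [dd_apply, h1, fd_conj m F z (hF _), fd_conj m F z (hF _)]
  have h2 : (starRingEnd ℂ) z = (z.re : ℂ) - z.im * Complex.I := by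
    apply Complex.ext <;> simp
  simp only [Complex.one_re, Complex.one_im, Complex.I_re, Complex.I_im, mul_zero, mul_one,
    add_zero, zero_add, map_one, Complex.conj_I]
  push_cast
  rw [pow_succ]
  linear_combination (1 / 2 * m * ((starRingEnd ℂ) z) ^ (m - 1) * F (Complex.normSq z)) *
    Complex.I_sq - ((starRingEnd ℂ) z) ^ m * deriv F (Complex.normSq z) * h2

theorem dd_conj_iter {F : ℝ → ℂ} (hF : ContDiff ℝ (⊤ : ℕ∞) F) {f : 𝓢(ℂ, ℂ)}
    (hf : ∀ z, f z = F (Complex.normSq z)) (j : ℕ) (z : ℂ) :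
    dd^[j] f z = ((starRingEnd ℂ) z) ^ j * iteratedDeriv j F (Complex.normSq z) := by
  induction j generalizing z with
  | zero => simpa using hf z
  | succ j ih =>
    rw [Function.iterate_succ_apply', dd_conj (m := j) (F := iteratedDeriv j F) ?_ ih,
      iteratedDeriv_succ]
    exact hF.differentiable_iteratedDeriv j (by exact_mod_cast ENat.natCast_lt_top j)

theorem HH_iter {Ht : ℝ → ℂ} (hH : ContDiff ℝ (⊤ : ℕ∞) Ht) (j m : ℕ) :
    iteratedDeriv m (HH j Ht j) = HH (j + m) (iteratedDeriv m Ht) j := by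
  induction m with
  | zero => simp
  | succ m ih =>
    rw [iteratedDeriv_succ, ih, iteratedDeriv_succ,
      ← hs (j + m) j (iteratedDeriv m Ht) (iter_smooth hH m) (by omega)]
    rfl

theorem iter_add {Ht : ℝ → ℂ} (j m : ℕ) :
    iteratedDeriv j (iteratedDeriv m Ht) = iteratedDeriv (j + m) Ht := by
  rw [iteratedDeriv_eq_iterate, iteratedDeriv_eq_iterate, iteratedDeriv_eq_iterate,
    Function.iterate_add_apply]

theorem main : S_SH := by
  intro j m w f hj hw hf z
  obtain ⟨hw1, a, R, -, -, -, hR⟩ := hw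
  obtain ⟨Ht, hH1, hH2, hH3⟩ := Pool.Agent.Y282.RB.A1.key (j + m) R w hw1 hR
  have hh1 : ContDiff ℝ (⊤ : ℕ∞) (iteratedDeriv m Ht) := iter_smooth hH1 m
  have hh2 : ∀ x, R + 1 ≤ x → iteratedDeriv m Ht x = 0 := fun x hx =>
    iter_zero (R := R) (fun y hy => hH2 y hy.le) m x (by linarith)
  obtain ⟨u, hu⟩ := mkS (j + m) hh1 hh2
  obtain ⟨v, hv⟩ := mkS j hH1 hH2
  have hfu : f = db^[j] u := by
    ext z
    rw [db_iter hh1 hu j z, iter_add, hH3, hf]
    congr 2
    omega
  have hfv : f = db^[j + m] v := by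
    ext z
    rw [db_iter hH1 hv (j + m) z, hH3, hf]
    congr 2
    omega
  have h1 : Tn j f z = z ^ m * HH (j + m) (iteratedDeriv m Ht) j (Complex.normSq z) := by
    rw [hfu, Tn_db, dd_iter hh1 hu j (by omega) z]
    congr 2
    omega
  have h2 : Tn (j + m) f z = ((starRingEnd ℂ) z) ^ m *
      HH (j + m) (iteratedDeriv m Ht) j (Complex.normSq z) := by
    rw [hfv, Tn_db, show j + m = m + j by omega, Function.iterate_add_apply,
      dd_conj_iter (F := HH j Ht j) (HH_smooth j hH1 j) ?_ m z, HH_iter hH1 j m]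
    · rw [show j + m = m + j by omega]
    · intro z
      rw [dd_iter hH1 hv j le_rfl z]
      simp
  rw [h1, h2, norm_mul, norm_mul, norm_pow, norm_pow, RCLike.norm_conj]

end Pool.Agent.R223.RX.SH
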