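import Pool.Agent.R223.RX.Stm

/-!
# RX-VIR: the virial estimates
-/

set_option autoImplicit false

open MeasureTheory Set Filter Topology

namespace Pool.Agent.R223.RX.VIR

/-- the algebraic identity for the derivative of `H` -/
theorem alg (s δ n c U V : ℝ) (hs : s ≠ 0) (hy : s ^ 2 - δ ≠ 0) (h1 : 1 + (s ^ 2 - δ) ≠ 0) :
    (1 / (2 * s)) * V ^ 2 + s * (2 * V * (-(n / (s ^ 2 - δ) - c) * U / (1 + (s ^ 2 - δ)))) +
      (((1 / (2 * s)) * (n / (s ^ 2 - δ) - c) + s * (-(n / (s ^ 2 - δ) ^ 2)) +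
        ((1 / (2 * s)) + 3 * (1 - δ) ^ 2 * (1 / (2 * s)) / s ^ 4) / 8) * U ^ 2 +
      (s * (n / (s ^ 2 - δ) - c) + (s - (1 - δ) ^ 2 / s ^ 3) / 8) *
        (2 * U * (V / (1 + (s ^ 2 - δ))))) -
      ((1 * (2 * s) - (1 + (s ^ 2 - δ)) * (2 * (1 / (2 * s)))) / (2 * s) ^ 2 * (U * V) +
        (1 + (s ^ 2 - δ)) / (2 * s) * (V / (1 + (s ^ 2 - δ)) * V +
          U * (-(n / (s ^ 2 - δ) - c) * U / (1 + (s ^ 2 - δ))))) =
    -(1 / s) * (c - 1 / 16 + δ * n / (s ^ 2 - δ) ^ 2 - 3 * (1 - δ) ^ 2 / (16 * s ^ 4)) * U ^ 2 := by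
  field_simp
  ring

/-- the virial function -/
noncomputable def Hf (δ n c : ℝ) (U V : ℝ → ℝ) (y : ℝ) : ℝ :=
  Real.sqrt (y + δ) * V y ^ 2 +
    (Real.sqrt (y + δ) * (n / y - c) +
      (Real.sqrt (y + δ) - (1 - δ) ^ 2 / Real.sqrt (y + δ) ^ 3) / 8) * U y ^ 2 -
    (1 + y) / (2 * Real.sqrt (y + δ)) * (U y * V y)

theorem Hf_deriv {δ n c : ℝ} {U V : ℝ → ℝ} {y : ℝ} (hδ : 0 < δ) (hy : 0 < y)
    (hU : HasDerivAt U (V y / (1 + y)) y)
    (hV : HasDerivAt V (-(n / y - c) * U y / (1 + y)) y) :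
    HasDerivAt (Hf δ n c U V)
      (-(1 / Real.sqrt (y + δ)) * (c - 1 / 16 + δ * n / y ^ 2 -
        3 * (1 - δ) ^ 2 / (16 * (y + δ) ^ 2)) * U y ^ 2) y := by
  have hz : 0 < y + δ := by linarith
  set s := Real.sqrt (y + δ) with hs
  have hs0 : 0 < s := Real.sqrt_pos.2 hz
  have hs2 : s ^ 2 = y + δ := Real.sq_sqrt hz.le
  have hS : HasDerivAt (fun y => Real.sqrt (y + δ)) (1 / (2 * s)) y := by
    have h1 : HasDerivAt (fun y : ℝ => y + δ) 1 y := (hasDerivAt_id y).add_const δ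
    exact h1.sqrt hz.ne'
  have hq : HasDerivAt (fun y : ℝ => n / y - c) (-(n / y ^ 2)) y := by
    have h1 := ((hasDerivAt_inv hy.ne').const_mul n).sub_const c
    have h2 : n * -(y ^ 2)⁻¹ = -(n / y ^ 2) := by
      rw [mul_neg, div_eq_mul_inv]
    rw [h2] at h1
    have h3 : (fun y : ℝ => n / y - c) = fun y : ℝ => n * y⁻¹ - c := by
      funext t
      rw [div_eq_mul_inv]
    rw [h3]
    exact h1
  have hS3 : HasDerivAt (fun y => (1 - δ) ^ 2 / Real.sqrt (y + δ) ^ 3)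
      (-(3 * (1 - δ) ^ 2 * (1 / (2 * s)) / s ^ 4)) y := by
    have h1 := (hS.pow 3).inv (by positivity : Real.sqrt (y + δ) ^ 3 ≠ 0)
    have h2 := h1.const_mul ((1 - δ) ^ 2)
    have h3 : (fun y => (1 - δ) ^ 2 / Real.sqrt (y + δ) ^ 3) =
        fun y => (1 - δ) ^ 2 * (fun y => Real.sqrt (y + δ) ^ 3)⁻¹ y := by
      funext t
      simp only [Pi.inv_apply]
      rw [div_eq_mul_inv]
    rw [h3]
    refine h2.congr_deriv ?_
    simp only [Pi.pow_apply]
    rw [← hs]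
    push_cast
    field_simp
  have hA : HasDerivAt (fun y => Real.sqrt (y + δ) * V y ^ 2)
      ((1 / (2 * s)) * V y ^ 2 + s * (2 * V y * (-(n / y - c) * U y / (1 + y)))) y := by
    have := hS.mul (hV.pow 2)
    refine this.congr_deriv ?_
    simp only [Pi.pow_apply]
    rw [← hs]
    push_cast
    ring
  have hB : HasDerivAt (fun y => (Real.sqrt (y + δ) * (n / y - c) +
      (Real.sqrt (y + δ) - (1 - δ) ^ 2 / Real.sqrt (y + δ) ^ 3) / 8) * U y ^ 2)
      (((1 / (2 * s)) * (n / y - c) + s * (-(n / y ^ 2)) +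
        ((1 / (2 * s)) + 3 * (1 - δ) ^ 2 * (1 / (2 * s)) / s ^ 4) / 8) * U y ^ 2 +
      (s * (n / y - c) + (s - (1 - δ) ^ 2 / s ^ 3) / 8) * (2 * U y * (V y / (1 + y)))) y := by
    have h1 := ((hS.mul hq).add ((hS.sub hS3).div_const 8)).mul (hU.pow 2)
    refine h1.congr_deriv ?_
    simp only [Pi.pow_apply, Pi.add_apply, Pi.mul_apply, Pi.sub_apply]
    rw [← hs]
    push_cast
    ring
  have hCc : HasDerivAt (fun y => (1 + y) / (2 * Real.sqrt (y + δ)) * (U y * V y))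
      ((1 * (2 * s) - (1 + y) * (2 * (1 / (2 * s)))) / (2 * s) ^ 2 * (U y * V y) +
        (1 + y) / (2 * s) * (V y / (1 + y) * V y + U y * (-(n / y - c) * U y / (1 + y)))) y := by
    have h1 : HasDerivAt (fun y : ℝ => 1 + y) 1 y := (hasDerivAt_id y).const_add 1
    have h2 := (h1.div (hS.const_mul 2) (by positivity : (2 * Real.sqrt (y + δ)) ≠ 0)).mul
      (hU.mul hV)
    refine h2.congr_deriv ?_
    simp only [Pi.mul_apply, Pi.div_apply]
    rfl
  have hT := (hA.add hB).sub hCc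
  refine hT.congr_deriv ?_
  have h5 := alg s δ n c (U y) (V y) hs0.ne' (by rw [hs2]; simp [hy.ne'])
    (by rw [hs2]; have : (0 : ℝ) < 1 + y := by linarith
        rw [add_sub_cancel_right]; exact this.ne')
  have h6 : s ^ 2 - δ = y := by rw [hs2]; ring
  rw [h6] at h5
  rw [h5]
  have h7 : s ^ 4 = (y + δ) ^ 2 := by rw [← hs2]; ring
  rw [h7]

/-- a decreasing function is at most its limit at `0` -/
theorem le_of_lim {f f' : ℝ → ℝ} {l y : ℝ} (hy : 0 < y) (hf : ∀ t, 0 < t → t ≤ y → HasDerivAt f (f' t) t)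
    (hn : ∀ t, 0 < t → t ≤ y → f' t ≤ 0) (hl : Tendsto f (𝓝[>] 0) (𝓝 l)) : f y ≤ l := by
  have hanti : AntitoneOn f (Ioc 0 y) := by
    apply antitoneOn_of_deriv_nonpos (convex_Ioc 0 y)
    · intro t ht
      exact (hf t ht.1 ht.2).continuousAt.continuousWithinAt
    · intro t ht
      rw [interior_Ioc] at ht
      exact (hf t ht.1 ht.2.le).differentiableAt.differentiableWithinAt
    · intro t ht
      rw [interior_Ioc] at ht
      rw [(hf t ht.1 ht.2.le).deriv]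
      exact hn t ht.1 ht.2.le
  refine ge_of_tendsto hl ?_
  have h1 : ∀ᶠ t in 𝓝[>] (0 : ℝ), t < y := by
    exact nhdsWithin_le_nhds (Iio_mem_nhds hy)
  filter_upwards [h1, self_mem_nhdsWithin] with t ht1 ht2
  exact hanti ⟨ht2, ht1.le⟩ ⟨hy, le_rfl⟩ ht1.le

/-- a function with nonpositive derivative tending to `0` at infinity -/
theorem tail_facts {f f' : ℝ → ℝ} {a : ℝ} (hf : ∀ t, a ≤ t → HasDerivAt f (f' t) t)
    (hn : ∀ t, a ≤ t → f' t ≤ 0) (hl : Tendsto f atTop (𝓝 0)) :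
    IntegrableOn f' (Ioi a) ∧ ∫ t in Ioi a, f' t = - f a := by
  have h1 : ∀ x ∈ Ici a, HasDerivAt f (f' x) x := fun x hx => hf x hx
  have h2 : ∀ x ∈ Ioi a, f' x ≤ 0 := fun x hx => hn x (le_of_lt hx)
  refine ⟨integrableOn_Ioi_deriv_of_nonpos' h1 h2 hl, ?_⟩
  rw [integral_Ioi_of_hasDerivAt_of_nonpos' h1 h2 hl, zero_sub]

/-- the data of the differential equation -/
structure Dat (δ n c C : ℝ) (U V : ℝ → ℝ) : Prop where
  hδ : 0 < δ
  hδ1 : δ ≤ 1
  hn : 0 < n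
  hc : 0 ≤ c
  hC : 0 ≤ C
  hU : ∀ y, 0 < y → HasDerivAt U (V y / (1 + y)) y
  hV : ∀ y, 0 < y → HasDerivAt V (-(n / y - c) * U y / (1 + y)) y
  lim : Tendsto V (𝓝[>] 0) (𝓝 n)
  bU : ∀ y, 0 < y → |U y| ≤ C * y
  bU' : ∀ y, 0 < y → |U y| ≤ C / Real.sqrt (1 + y)
  bV' : ∀ y, 0 < y → |V y| ≤ C / Real.sqrt (1 + y)

variable {δ n c C : ℝ} {U V : ℝ → ℝ}

theorem Dat.limU (h : Dat δ n c C U V) : Tendsto U (𝓝[>] 0) (𝓝 0) := by
  rw [tendsto_zero_iff_abs_tendsto_zero]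
  have h1 : Tendsto (fun y : ℝ => C * y) (𝓝[>] 0) (𝓝 0) := by
    have : Tendsto (fun y : ℝ => C * y) (𝓝 0) (𝓝 (C * 0)) := (continuous_const_mul C).tendsto 0
    rw [mul_zero] at this
    exact this.mono_left nhdsWithin_le_nhds
  refine squeeze_zero' (Eventually.of_forall fun _ => abs_nonneg _) ?_ h1
  filter_upwards [self_mem_nhdsWithin] with y hy
  exact h.bU y hy

theorem Dat.limqU (h : Dat δ n c C U V) :
    Tendsto (fun y => (n / y - c) * U y ^ 2) (𝓝[>] 0) (𝓝 0) := by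
  rw [tendsto_zero_iff_abs_tendsto_zero]
  have h1 : Tendsto (fun y : ℝ => C ^ 2 * (n * y + c * y ^ 2)) (𝓝[>] 0) (𝓝 0) := by
    have : Tendsto (fun y : ℝ => C ^ 2 * (n * y + c * y ^ 2)) (𝓝 0)
        (𝓝 (C ^ 2 * (n * 0 + c * 0 ^ 2))) := by
      apply Continuous.tendsto
      fun_prop
    have e : C ^ 2 * (n * 0 + c * 0 ^ 2) = 0 := by ring
    rw [e] at this
    exact this.mono_left nhdsWithin_le_nhds
  refine squeeze_zero' (Eventually.of_forall fun _ => abs_nonneg _) ?_ h1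
  filter_upwards [self_mem_nhdsWithin] with y hy
  have hy' : 0 < y := hy
  have h2 := h.bU y hy'
  have h3 : U y ^ 2 ≤ (C * y) ^ 2 := by
    rw [← sq_abs]
    exact pow_le_pow_left₀ (abs_nonneg _) h2 2
  have h4 : |n / y - c| ≤ n / y + c := by
    have : 0 < n / y := div_pos h.hn hy'
    rw [abs_le]
    constructor <;> linarith [h.hc]
  simp only [Function.comp]
  rw [abs_mul, abs_of_nonneg (sq_nonneg (U y))]
  calc |n / y - c| * U y ^ 2 ≤ (n / y + c) * (C * y) ^ 2 :=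
        mul_le_mul h4 h3 (sq_nonneg _) (add_nonneg (div_nonneg h.hn.le hy'.le) h.hc)
    _ = C ^ 2 * (n * y + c * y ^ 2) := by field_simp

theorem Dat.W_le (h : Dat δ n c C U V) {y : ℝ} (hy : 0 < y) :
    V y ^ 2 + (n / y - c) * U y ^ 2 ≤ n ^ 2 := by
  have hd : ∀ t, 0 < t → HasDerivAt (fun y => V y ^ 2 + (n / y - c) * U y ^ 2)
      (-(n / t ^ 2) * U t ^ 2) t := by
    intro t ht
    have hq : HasDerivAt (fun y : ℝ => n / y - c) (-(n / t ^ 2)) t := by
      have h1 := ((hasDerivAt_inv ht.ne').const_mul n).sub_const c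
      have h2 : n * -(t ^ 2)⁻¹ = -(n / t ^ 2) := by
        rw [mul_neg, div_eq_mul_inv]
      rw [h2] at h1
      have h3 : (fun y : ℝ => n / y - c) = fun y : ℝ => n * y⁻¹ - c := by
        funext t
        rw [div_eq_mul_inv]
      rw [h3]
      exact h1
    have h1 := ((h.hV t ht).pow 2).add (hq.mul ((h.hU t ht).pow 2))
    refine h1.congr_deriv ?_
    simp only [Pi.pow_apply]
    have : (1 : ℝ) + t ≠ 0 := by linarith
    push_cast
    field_simp
    ring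
  have hl : Tendsto (fun y => V y ^ 2 + (n / y - c) * U y ^ 2) (𝓝[>] 0) (𝓝 (n ^ 2)) := by
    have := (h.lim.pow 2).add h.limqU
    rw [add_zero] at this
    exact this
  refine le_of_lim (f := fun y => V y ^ 2 + (n / y - c) * U y ^ 2) hy (fun t ht _ => hd t ht)
    (fun t ht _ => ?_) hl
  have : 0 ≤ n / t ^ 2 * U t ^ 2 := mul_nonneg (div_nonneg h.hn.le (sq_nonneg _)) (sq_nonneg _)
  linarith

/-- part (i) -/
theorem Dat.part1 (h : Dat δ n c C U V) {y : ℝ} (hy : 0 < y) (hq : c * y ≤ n) :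
    |U y| ≤ n * y := by
  have hVb : ∀ t, 0 < t → t ≤ y → |V t| ≤ n := by
    intro t ht hty
    have h1 := h.W_le ht
    have h2 : 0 ≤ n / t - c := by
      rw [sub_nonneg, le_div_iff₀ ht]
      exact (mul_le_mul_of_nonneg_left hty h.hc).trans hq
    have h3 : V t ^ 2 ≤ n ^ 2 := by
      have := mul_nonneg h2 (sq_nonneg (U t))
      linarith
    exact abs_le_of_sq_le_sq h3 h.hn.le
  have hUl := h.limU
  have hyl : Tendsto (fun t : ℝ => n * t) (𝓝[>] 0) (𝓝 0) := by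
    have : Tendsto (fun y : ℝ => n * y) (𝓝 0) (𝓝 (n * 0)) := (continuous_const_mul n).tendsto 0
    rw [mul_zero] at this
    exact this.mono_left nhdsWithin_le_nhds
  have hbd : ∀ t, 0 < t → t ≤ y → |V t / (1 + t)| ≤ n := by
    intro t ht hty
    rw [abs_div, abs_of_pos (by linarith : (0 : ℝ) < 1 + t), div_le_iff₀ (by linarith)]
    have := hVb t ht hty
    nlinarith [h.hn]
  have hA : U y - n * y ≤ 0 := by
    refine le_of_lim (f := fun t => U t - n * t) (f' := fun t => V t / (1 + t) - n) hy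
      (fun t ht _ => ?_) (fun t ht hty => ?_) (by simpa using hUl.sub hyl)
    · have h1 : HasDerivAt (fun t : ℝ => n * t) n t := by
        simpa using (hasDerivAt_id t).const_mul n
      exact (h.hU t ht).sub h1
    · have := (abs_le.1 (hbd t ht hty)).2
      linarith
  have hB : -U y - n * y ≤ 0 := by
    refine le_of_lim (f := fun t => -U t - n * t) (f' := fun t => -(V t / (1 + t)) - n) hy
      (fun t ht _ => ?_) (fun t ht hty => ?_) (by simpa using hUl.neg.sub hyl)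
    · have h1 : HasDerivAt (fun t : ℝ => n * t) n t := by
        simpa using (hasDerivAt_id t).const_mul n
      exact (h.hU t ht).neg.sub h1
    · have := (abs_le.1 (hbd t ht hty)).1
      linarith
  rw [abs_le]
  constructor <;> linarith

theorem Dat.limH0 (h : Dat δ n c C U V) :
    Tendsto (Hf δ n c U V) (𝓝[>] 0) (𝓝 (Real.sqrt δ * n ^ 2)) := by
  have hs0 : 0 < Real.sqrt δ := Real.sqrt_pos.2 h.hδ
  have hS : Tendsto (fun y : ℝ => Real.sqrt (y + δ)) (𝓝[>] 0) (𝓝 (Real.sqrt δ)) := by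
    have h1 : Tendsto (fun y : ℝ => Real.sqrt (y + δ)) (𝓝 0) (𝓝 (Real.sqrt (0 + δ))) := by
      apply Continuous.tendsto
      fun_prop
    rw [zero_add] at h1
    exact h1.mono_left nhdsWithin_le_nhds
  have hY : Tendsto (fun y : ℝ => 1 + y) (𝓝[>] 0) (𝓝 1) := by
    have h1 : Tendsto (fun y : ℝ => 1 + y) (𝓝 0) (𝓝 (1 + 0)) := by
      apply Continuous.tendsto
      fun_prop
    rw [add_zero] at h1
    exact h1.mono_left nhdsWithin_le_nhds
  have h1 := hS.mul (h.lim.pow 2)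
  have h2 := hS.mul h.limqU
  have hS3 : Tendsto (fun y : ℝ => (1 - δ) ^ 2 / Real.sqrt (y + δ) ^ 3) (𝓝[>] 0)
      (𝓝 ((1 - δ) ^ 2 / Real.sqrt δ ^ 3)) :=
    (tendsto_const_nhds (x := (1 - δ) ^ 2)).div (hS.pow 3) (by positivity)
  have h3 := ((hS.sub hS3).div_const 8).mul (h.limU.pow 2)
  have h4 := (hY.div (hS.const_mul 2) (by positivity)).mul (h.limU.mul h.lim)
  have h5 := ((h1.add h2).add h3).sub h4
  have e : Real.sqrt δ * n ^ 2 + Real.sqrt δ * 0 +
      (Real.sqrt δ - (1 - δ) ^ 2 / Real.sqrt δ ^ 3) / 8 * 0 ^ 2 -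
      1 / (2 * Real.sqrt δ) * (0 * n) = Real.sqrt δ * n ^ 2 := by ring
  rw [e] at h5
  refine h5.congr fun y => ?_
  simp only [Pi.div_apply]
  unfold Hf
  ring

theorem Dat.limHinf (h : Dat δ n c C U V) : Tendsto (Hf δ n c U V) atTop (𝓝 0) := by
  rw [tendsto_zero_iff_abs_tendsto_zero]
  have h1 : Tendsto (fun y : ℝ => C ^ 2 * (3 + (n + c)) / Real.sqrt (1 + y)) atTop (𝓝 0) := by
    apply Tendsto.const_div_atTop
    exact Real.tendsto_sqrt_atTop.comp (tendsto_atTop_add_const_left _ 1 tendsto_id)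
  refine squeeze_zero' (Eventually.of_forall fun _ => abs_nonneg _) ?_ h1
  filter_upwards [eventually_ge_atTop (1 : ℝ)] with y hy
  have hy0 : 0 < y := by linarith
  set S := Real.sqrt (1 + y) with hSdef
  set s := Real.sqrt (y + δ) with hsdef
  have hS0 : 0 < S := Real.sqrt_pos.2 (by linarith)
  have hS2 : S ^ 2 = 1 + y := Real.sq_sqrt (by linarith)
  have hs2 : s ^ 2 = y + δ := Real.sq_sqrt (by linarith [h.hδ])
  have hs1 : 1 ≤ s := by
    rw [hsdef, Real.one_le_sqrt]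
    linarith [h.hδ]
  have hs0 : 0 < s := by linarith
  have hsS : s ≤ S := Real.sqrt_le_sqrt (by linarith [h.hδ1])
  have hS1 : 1 ≤ S := hs1.trans hsS
  have hSs : S ≤ 2 * s := by
    apply abs_le_of_sq_le_sq' _ (by linarith) |>.2
    rw [mul_pow, hS2, hs2]
    linarith [h.hδ]
  have bU := h.bU' y hy0
  have bV := h.bV' y hy0
  rw [← hSdef] at bU bV
  have hU2 : U y ^ 2 ≤ C ^ 2 / S ^ 2 := by
    rw [← sq_abs, ← div_pow]
    exact pow_le_pow_left₀ (abs_nonneg _) bU 2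
  have hV2 : V y ^ 2 ≤ C ^ 2 / S ^ 2 := by
    rw [← sq_abs, ← div_pow]
    exact pow_le_pow_left₀ (abs_nonneg _) bV 2
  have hUV : |U y * V y| ≤ C ^ 2 / S ^ 2 := by
    rw [abs_mul, ← div_pow, sq]
    exact mul_le_mul bU bV (abs_nonneg _) (div_nonneg h.hC hS0.le)
  have hK : 0 ≤ C ^ 2 / S ^ 2 := by positivity
  have t1 : |s * V y ^ 2| ≤ S * (C ^ 2 / S ^ 2) := by
    rw [abs_of_nonneg (by positivity)]
    exact mul_le_mul hsS hV2 (sq_nonneg _) hS0.le
  have t2 : |s * (n / y - c)| ≤ S * (n + c) := by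
    rw [abs_mul, abs_of_pos hs0]
    apply mul_le_mul hsS _ (abs_nonneg _) hS0.le
    have h2 : n / y ≤ n := div_le_self h.hn.le hy
    have h3 : 0 < n / y := div_pos h.hn hy0
    rw [abs_le]
    constructor <;> linarith [h.hc]
  have t3 : |(s - (1 - δ) ^ 2 / s ^ 3) / 8| ≤ S := by
    have h2 : (1 - δ) ^ 2 / s ^ 3 ≤ 1 := by
      rw [div_le_one (by positivity)]
      have h3 : (1 - δ) ^ 2 ≤ 1 := by
        apply pow_le_one₀ <;> linarith [h.hδ, h.hδ1]
      exact h3.trans (one_le_pow₀ hs1)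
    have h3 : 0 ≤ (1 - δ) ^ 2 / s ^ 3 := by positivity
    rw [abs_le]
    constructor <;> linarith
  have t4 : |(1 + y) / (2 * s)| ≤ S := by
    rw [abs_of_nonneg (by positivity), div_le_iff₀ (by positivity), ← hS2, sq]
    exact mul_le_mul_of_nonneg_left hSs hS0.le
  have t5 : |(s * (n / y - c) + (s - (1 - δ) ^ 2 / s ^ 3) / 8) * U y ^ 2| ≤
      (S * (n + c) + S) * (C ^ 2 / S ^ 2) := by
    rw [abs_mul, abs_of_nonneg (sq_nonneg (U y))]
    exact mul_le_mul ((abs_add_le _ _).trans (add_le_add t2 t3)) hU2 (sq_nonneg _)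
      (add_nonneg (mul_nonneg hS0.le (add_nonneg h.hn.le h.hc)) hS0.le)
  have t6 : |(1 + y) / (2 * s) * (U y * V y)| ≤ S * (C ^ 2 / S ^ 2) := by
    rw [abs_mul]
    exact mul_le_mul t4 hUV (abs_nonneg _) hS0.le
  have e : C ^ 2 * (3 + (n + c)) / S = S * (C ^ 2 / S ^ 2) +
      (S * (n + c) + S) * (C ^ 2 / S ^ 2) + S * (C ^ 2 / S ^ 2) := by
    field_simp
    ring
  simp only [Function.comp]
  rw [e]
  unfold Hf
  rw [← hsdef]
  calc |s * V y ^ 2 + (s * (n / y - c) + (s - (1 - δ) ^ 2 / s ^ 3) / 8) * U y ^ 2 -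
        (1 + y) / (2 * s) * (U y * V y)| ≤
      |s * V y ^ 2 + (s * (n / y - c) + (s - (1 - δ) ^ 2 / s ^ 3) / 8) * U y ^ 2| +
        |(1 + y) / (2 * s) * (U y * V y)| := abs_sub _ _
    _ ≤ |s * V y ^ 2| + |(s * (n / y - c) + (s - (1 - δ) ^ 2 / s ^ 3) / 8) * U y ^ 2| +
        |(1 + y) / (2 * s) * (U y * V y)| := by
      gcongr
      exact abs_add_le _ _
    _ ≤ _ := by
      gcongr

/-- the derivative of `H` -/
noncomputable def Hd (δ n c : ℝ) (U : ℝ → ℝ) (y : ℝ) : ℝ :=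
  -(1 / Real.sqrt (y + δ)) * (c - 1 / 16 + δ * n / y ^ 2 -
        3 * (1 - δ) ^ 2 / (16 * (y + δ) ^ 2)) * U y ^ 2

theorem Dat.Hd_le (h : Dat δ n c C U V) (hδn : δ * n = 3 / 16) {y : ℝ} (hy : 0 < y) :
    Hd δ n c U y ≤ -((c - 1 / 16) * (U y ^ 2 / Real.sqrt (y + δ))) := by
  have hz : 0 < y + δ := by linarith [h.hδ]
  have hs : 0 < Real.sqrt (y + δ) := Real.sqrt_pos.2 hz
  have h1 : 3 * (1 - δ) ^ 2 / (16 * (y + δ) ^ 2) ≤ δ * n / y ^ 2 := by
    rw [hδn, div_le_div_iff₀ (by positivity) (by positivity)]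
    have h2 : (1 - δ) ^ 2 ≤ 1 := by
      apply pow_le_one₀ <;> linarith [h.hδ, h.hδ1]
    have h3 : y ^ 2 ≤ (y + δ) ^ 2 := pow_le_pow_left₀ hy.le (by linarith [h.hδ]) 2
    nlinarith [mul_le_mul h2 h3 (sq_nonneg y) zero_le_one]
  unfold Hd
  have h4 : 0 ≤ 1 / Real.sqrt (y + δ) * U y ^ 2 := by positivity
  have h5 : (c - 1 / 16) ≤ (c - 1 / 16 + δ * n / y ^ 2 - 3 * (1 - δ) ^ 2 / (16 * (y + δ) ^ 2)) := by
    linarith
  have h6 := mul_le_mul_of_nonneg_left h5 h4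
  have e1 : (c - 1 / 16) * (U y ^ 2 / Real.sqrt (y + δ)) =
      1 / Real.sqrt (y + δ) * U y ^ 2 * (c - 1 / 16) := by
    field_simp
  rw [e1]
  linarith

theorem Dat.part2 (h : Dat δ n c C U V) (hδn : δ * n = 3 / 16) (hc : 1 / 16 ≤ c) {y : ℝ}
    (hy : 0 < y) : Hf δ n c U V y ≤ Real.sqrt δ * n ^ 2 ∧
    Real.sqrt (y + δ) * (n / y - (c - 1 / 16) - (1 - δ) / (8 * (y + δ)) -
      3 * (1 - δ) ^ 2 / (16 * (y + δ) ^ 2)) * U y ^ 2 ≤ Hf δ n c U V y := by
  constructor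
  · refine le_of_lim (f' := Hd δ n c U) hy (fun t ht _ => Hf_deriv h.hδ ht (h.hU t ht) (h.hV t ht))
      (fun t ht _ => ?_) h.limH0
    refine (h.Hd_le hδn ht).trans ?_
    have : 0 ≤ (c - 1 / 16) * (U t ^ 2 / Real.sqrt (t + δ)) :=
      mul_nonneg (by linarith) (by positivity)
    linarith
  · have hz : 0 < y + δ := by linarith [h.hδ]
    unfold Hf
    set s := Real.sqrt (y + δ) with hs
    have hs0 : 0 < s := Real.sqrt_pos.2 hz
    have hs2 : s ^ 2 = y + δ := Real.sq_sqrt hz.le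
    have hy1 : 1 + y = s ^ 2 + (1 - δ) := by rw [hs2]; ring
    rw [hy1, ← hs2]
    have e : s * V y ^ 2 + (s * (n / y - c) + (s - (1 - δ) ^ 2 / s ^ 3) / 8) * U y ^ 2 -
        (s ^ 2 + (1 - δ)) / (2 * s) * (U y * V y) -
        s * (n / y - (c - 1 / 16) - (1 - δ) / (8 * s ^ 2) -
          3 * (1 - δ) ^ 2 / (16 * (s ^ 2) ^ 2)) * U y ^ 2 =
        s * (V y - (s ^ 2 + (1 - δ)) / (4 * s ^ 2) * U y) ^ 2 := by
      field_simp
      ring
    have h2 : 0 ≤ s * (V y - (s ^ 2 + (1 - δ)) / (4 * s ^ 2) * U y) ^ 2 := by positivity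
    linarith

theorem Dat.part3 (h : Dat δ n c C U V) (hδn : δ * n = 3 / 16) (hc : 1 / 16 < c) {y1 : ℝ}
    (hy : 0 < y1) : IntegrableOn (fun y => U y ^ 2 / Real.sqrt (y + δ)) (Ioi y1) ∧
    (c - 1 / 16) * ∫ y in Ioi y1, U y ^ 2 / Real.sqrt (y + δ) ≤ Real.sqrt δ * n ^ 2 := by
  have hle : ∀ t, 0 < t → 0 ≤ (c - 1 / 16) * (U t ^ 2 / Real.sqrt (t + δ)) := fun t _ =>
    mul_nonneg (by linarith) (by positivity)
  obtain ⟨hi, hv⟩ := tail_facts (f := Hf δ n c U V) (f' := Hd δ n c U) (a := y1)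
    (fun t ht => Hf_deriv h.hδ (hy.trans_le ht) (h.hU t (hy.trans_le ht)) (h.hV t (hy.trans_le ht)))
    (fun t ht => (h.Hd_le hδn (hy.trans_le ht)).trans (by linarith [hle t (hy.trans_le ht)]))
    h.limHinf
  have hcont : ContinuousOn (fun y => U y ^ 2 / Real.sqrt (y + δ)) (Ioi y1) := by
    apply ContinuousOn.div
    · apply ContinuousOn.pow
      intro t ht
      exact (h.hU t (hy.trans ht)).continuousAt.continuousWithinAt
    · apply Continuous.continuousOn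
      fun_prop
    · intro t ht
      have : 0 < t + δ := by have := hy.trans ht; linarith [h.hδ]
      exact (Real.sqrt_pos.2 this).ne'
  have hmeas : AEStronglyMeasurable (fun y => U y ^ 2 / Real.sqrt (y + δ))
      (volume.restrict (Ioi y1)) := hcont.aestronglyMeasurable measurableSet_Ioi
  have hpt : ∀ t ∈ Ioi y1, (c - 1 / 16) * (U t ^ 2 / Real.sqrt (t + δ)) ≤ -(Hd δ n c U t) := by
    intro t ht
    have := h.Hd_le hδn (hy.trans ht)
    linarith
  have hint : IntegrableOn (fun y => (c - 1 / 16) * (U y ^ 2 / Real.sqrt (y + δ))) (Ioi y1) := by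
    refine Integrable.mono' hi.neg (hmeas.const_mul _) ?_
    refine (ae_restrict_iff' measurableSet_Ioi).2 (Eventually.of_forall fun t ht => ?_)
    rw [Real.norm_eq_abs, abs_of_nonneg (hle t (hy.trans ht))]
    exact hpt t ht
  have hint2 : IntegrableOn (fun y => U y ^ 2 / Real.sqrt (y + δ)) (Ioi y1) := by
    have h1 := hint.const_mul ((c - 1 / 16)⁻¹)
    have h2 : (fun y => (c - 1 / 16)⁻¹ * ((c - 1 / 16) * (U y ^ 2 / Real.sqrt (y + δ)))) =
        fun y => U y ^ 2 / Real.sqrt (y + δ) := by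
      funext t
      rw [← mul_assoc, inv_mul_cancel₀ (by linarith), one_mul]
    rw [h2] at h1
    exact h1
  refine ⟨hint2, ?_⟩
  rw [← integral_const_mul]
  calc ∫ y in Ioi y1, (c - 1 / 16) * (U y ^ 2 / Real.sqrt (y + δ)) ≤
      ∫ y in Ioi y1, -(Hd δ n c U y) := by
        apply setIntegral_mono_on hint hi.neg measurableSet_Ioi hpt
    _ = Hf δ n c U V y1 := by
        rw [integral_neg, hv, neg_neg]
    _ ≤ Real.sqrt δ * n ^ 2 := (h.part2 hδn hc.le hy).1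

theorem main : S_VIR := by
  intro hode j m hj hm
  obtain ⟨U1, C, h1, h2, h3, h4, h5⟩ := hode j m hj
  have hj' : (1 : ℝ) ≤ j := by exact_mod_cast hj
  have hm' : (1 : ℝ) ≤ m := by exact_mod_cast hm
  have hn : 1 ≤ nn j m := by
    unfold nn
    nlinarith
  have hn0 : 0 < nn j m := by linarith
  have hδ : 0 < del j m := by unfold del; positivity
  have hδ1 : del j m ≤ 1 := by
    unfold del
    rw [div_le_one (by positivity)]
    linarith
  have hC : 0 ≤ C := by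
    have := (abs_nonneg _).trans (h5 1 one_pos)
    exact nonneg_of_mul_nonneg_left this (Real.rpow_pos_of_pos (by norm_num) _)
  have hδn : del j m * nn j m = 3 / 16 := by
    unfold del
    field_simp
  have hrp : ∀ y : ℝ, 0 < y → (1 + y) ^ (-(m : ℝ) / 2) ≤ 1 / Real.sqrt (1 + y) := by
    intro y hy
    rw [Real.sqrt_eq_rpow, one_div, ← Real.rpow_neg (by linarith)]
    apply Real.rpow_le_rpow_of_exponent_le (by linarith)
    linarith
  have hD : Dat (del j m) (nn j m) ((m : ℝ) ^ 2 / 4) C (UU j m) U1 := by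
    refine ⟨hδ, hδ1, hn0, by positivity, hC, h1, h2, h3, ?_, ?_, ?_⟩
    · intro y hy
      refine (h4 y hy).trans ?_
      have : (1 + y) ^ (-1 - (m : ℝ) / 2) ≤ 1 :=
        Real.rpow_le_one_of_one_le_of_nonpos (by linarith) (by linarith)
      exact mul_le_of_le_one_right (by positivity) this
    · intro y hy
      refine (h4 y hy).trans ?_
      have e : (1 + y) ^ (-1 - (m : ℝ) / 2) = (1 + y) ^ (-1 : ℝ) * (1 + y) ^ (-(m : ℝ) / 2) := by
        rw [← Real.rpow_add (by linarith)]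
        congr 1
        ring
      have hy1 : y * (1 + y) ^ (-1 : ℝ) ≤ 1 := by
        rw [Real.rpow_neg_one, ← div_eq_mul_inv, div_le_one (by linarith)]
        linarith
      rw [e]
      calc C * y * ((1 + y) ^ (-1 : ℝ) * (1 + y) ^ (-(m : ℝ) / 2)) =
          C * ((y * (1 + y) ^ (-1 : ℝ)) * (1 + y) ^ (-(m : ℝ) / 2)) := by ring
        _ ≤ C * (1 * (1 / Real.sqrt (1 + y))) := by
          apply mul_le_mul_of_nonneg_left _ hC
          exact mul_le_mul hy1 (hrp y hy) (by positivity) zero_le_one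
        _ = C / Real.sqrt (1 + y) := by ring
    · intro y hy
      refine (h5 y hy).trans ?_
      calc C * (1 + y) ^ (-(m : ℝ) / 2) ≤ C * (1 / Real.sqrt (1 + y)) :=
          mul_le_mul_of_nonneg_left (hrp y hy) hC
        _ = C / Real.sqrt (1 + y) := by ring
  have hbet : bet m = (m : ℝ) ^ 2 / 4 - 1 / 16 := by
    unfold bet
    ring
  have hc : 1 / 16 < (m : ℝ) ^ 2 / 4 := by nlinarith
  refine ⟨fun y hy hq => hD.part1 hy (by linarith), fun y hy => ?_, fun y1 hy1 => ?_⟩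
  · rw [hbet]
    have := hD.part2 hδn hc.le hy
    exact this.2.trans this.1
  · rw [hbet]
    exact hD.part3 hδn hc hy1

end Pool.Agent.R223.RX.VIR
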