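import Pool.Agent.R223.RX.Asm
import Pool.Agent.R223.RX.ODE
import Pool.Agent.R223.RX.VIR
import Pool.Agent.R223.RX.L1
import Pool.Agent.R223.RX.KER
import Pool.Agent.R223.RX.ISO
import Pool.Agent.R223.RX.RT
import Pool.Agent.R223.RX.PLN
import Pool.Agent.R223.RX.SH
import Pool.Agent.R223.RD.TR
import Pool.Agent.R892.BR.Main

/-! # Project RX: the bounds for all angular types `k ≠ 2 n` (helper223) -/

set_option autoImplicit false

open MeasureTheory Set Filter Topology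
open scoped SchwartzMap ENNReal

namespace Pool.Agent.R223.RX.Fin

open Pool.Agent.Y282.RB (Tn Cn)

theorem pln : PlnC := PLN.main KER.main (ISO.main KER.main) RT.main (L1.main (VIR.main ODE.main))

theorem boundB (n : ℕ) (hn : 2 ≤ n) (k : ℤ) (hk : k ≠ 2 * n) (p : ℝ) (hp : 2 ≤ p) (f : 𝓢(ℂ, ℂ))
    (hf : ∀ a z : ℂ, ‖a‖ = 1 → f (a * z) = a ^ k * f z) :
    eLpNorm (Tn n f) (ENNReal.ofReal p) (volume : Measure ℂ) ≤
      ENNReal.ofReal ((13 / 2 * n) ^ (1 - 2 / p)) * eLpNorm f (ENNReal.ofReal p) volume := by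
  rcases le_or_gt k n with h | h
  · exact R892.BR.boundB n hn k h p hp f hf
  · obtain ⟨l, rfl⟩ : ∃ l : ℕ, k = l := ⟨k.toNat, (Int.toNat_of_nonneg (by omega)).symm⟩
    exact Asm.high pln SH.main RD.TR.tr2 n (by omega) l (by exact_mod_cast h)
      (by intro h2; apply hk; rw [h2]; push_cast; ring) p hp f
      (fun a z ha => by rw [hf a z ha, zpow_natCast])

theorem boundC (n : ℕ) (hn : 1 ≤ n) (k : ℤ) (hk : k ≠ 2 * n) (p : ℝ) (hp : 2 ≤ p) (f : 𝓢(ℂ, ℂ))
    (hf : ∀ a z : ℂ, ‖a‖ = 1 → f (a * z) = a ^ k * f z) :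
    eLpNorm (Tn n f) (ENNReal.ofReal p) (volume : Measure ℂ) ≤
      ENNReal.ofReal (Cn p n) * eLpNorm f (ENNReal.ofReal p) volume := by
  have hp0 : 0 < p := by linarith
  have h2p : 2 / p ≤ 1 := by rw [div_le_one hp0]; exact hp
  rcases eq_or_lt_of_le hn with h1 | h1
  · subst h1
    have h := Pool.Agent.TH55.PowA.base p hp f
    have e : Cn p 1 = p - 1 := by
      unfold Cn
      rw [Finset.prod_range_one]
      simp only [Nat.cast_zero, zero_add]
      field_simp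
    rw [e]
    have e2 : Tn 1 f = Pool.Agent.TH55.PowA.T Pool.Agent.TH55.PowA.bs f := by
      rw [Pool.Agent.Y282.RB.K.Tn_eq]
      simp only [pow_one]
    rw [e2]
    exact h
  · refine (boundB n h1 k hk p hp f hf).trans ?_
    gcongr
    refine le_trans ?_ (R892.BR.Cn_lower n h1 p hp)
    have hn' : (0 : ℝ) ≤ n := Nat.cast_nonneg n
    apply Real.rpow_le_rpow (by positivity) _ (by linarith)
    linarith

theorem boundD (n : ℕ) (hn : 1 ≤ n) (k : ℤ) (hk : k ≠ 2 * n) (p : ℝ) (hp : 2 ≤ p) (f : 𝓢(ℂ, ℂ))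
    (hf : ∀ a z : ℂ, ‖a‖ = 1 → f (a * z) = a ^ k * f z) :
    eLpNorm (Tn n f) (ENNReal.ofReal p) (volume : Measure ℂ) ≤
      ENNReal.ofReal ((n : ℝ) ^ (1 - 2 / p) * (p - 1)) * eLpNorm f (ENNReal.ofReal p) volume := by
  refine (boundC n hn k hk p hp f hf).trans ?_
  gcongr
  exact Pool.Agent.Y282.RB.N.main n p hn hp

end Pool.Agent.R223.RX.Fin
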