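import Pool.Agent.R223.RX.Stm
import Pool.Agent.R223.RD.Asm

/-! # Project RX: assembly (helper223) -/

set_option autoImplicit false

open MeasureTheory Set Filter Topology
open scoped SchwartzMap ENNReal

namespace Pool.Agent.R223.RX.Asm

open Pool.Agent.Y282.RB (Tn)
open Pool.Agent.R223.RD (Cc S_TR2)
open Pool.Agent.R223.RD.Asm

/-- nice functions of type `k > n`, `k ≠ 2 n` -/
lemma nice (hP : PlnC) (hSH : S_SH) (n : ℕ) (hn : 1 ≤ n) (k : ℕ) (hk : n < k) (hk2 : k ≠ 2 * n)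
    (p : ℝ) (hp : 2 ≤ p) (w : ℝ → ℂ) (g : 𝓢(ℂ, ℂ)) (hw : Cc w)
    (hg : ∀ z, g z = z ^ k * w (Complex.normSq z)) :
    eLpNorm (Tn n g) (ENNReal.ofReal p) (volume : Measure ℂ) ≤
      ENNReal.ofReal ((13 / 2 * (n : ℝ)) ^ (1 - 2 / p)) *
        eLpNorm (⇑g) (ENNReal.ofReal p) (volume : Measure ℂ) := by
  have h2p : 2 / p ≤ 1 := by rw [div_le_one (by linarith)]; exact hp
  rcases lt_or_gt_of_ne hk2 with h | h
  · obtain ⟨j, hj⟩ : ∃ j, k = n + j := ⟨k - n, by omega⟩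
    obtain ⟨m, hm⟩ : ∃ m, n = j + m := ⟨n - j, by omega⟩
    have hj1 : 1 ≤ j := by omega
    have hm1 : 1 ≤ m := by omega
    have hg' : ∀ z, g z = z ^ (2 * j + m) * w (Complex.normSq z) := by
      intro z
      rw [hg z]
      congr 2
      omega
    have h1 := hP j m p w g hj1 hm1 hp hw hg'
    have h2 : eLpNorm (Tn n g) (ENNReal.ofReal p) (volume : Measure ℂ) =
        eLpNorm (Tn j g) (ENNReal.ofReal p) (volume : Measure ℂ) := by
      rw [hm]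
      exact eLpNorm_congr_norm_ae (Eventually.of_forall fun z => hSH j m w g hj1 hw hg' z)
    rw [h2]
    refine h1.trans ?_
    have h3 : (j : ℝ) ≤ n := by exact_mod_cast (by omega : j ≤ n)
    gcongr
  · obtain ⟨m, hm⟩ : ∃ m, k = 2 * n + m := ⟨k - 2 * n, by omega⟩
    subst hm
    exact hP n m p w g hn (by omega) hp hw hg

theorem high (hP : PlnC) (hSH : S_SH) (hTR : S_TR2) (n : ℕ) (hn : 1 ≤ n) (k : ℕ) (hk : n < k)
    (hk2 : k ≠ 2 * n) (p : ℝ) (hp : 2 ≤ p) (f : 𝓢(ℂ, ℂ))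
    (hf : ∀ a z : ℂ, ‖a‖ = 1 → f (a * z) = a ^ k * f z) :
    eLpNorm (Tn n f) (ENNReal.ofReal p) (volume : Measure ℂ) ≤
      ENNReal.ofReal ((13 / 2 * (n : ℝ)) ^ (1 - 2 / p)) *
        eLpNorm (⇑f) (ENNReal.ofReal p) (volume : Measure ℂ) := by
  refine lim_le _ _ (ENNReal.ofReal (Pool.Agent.TH55.PowA.Cn n * (p - 1))) _
    ENNReal.ofReal_ne_top ENNReal.ofReal_ne_top fun δ hδ => ?_
  obtain ⟨w, g, hw, hg, hle, hfg⟩ := hTR k f hf p hp δ hδ
  refine (split n hn p hp f g).trans (add_le_add (by gcongr) ?_)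
  refine (nice hP hSH n hn k hk hk2 p hp w g hw hg).trans ?_
  gcongr
  exact (eLpNorm_mono hle).trans le_self_add

end Pool.Agent.R223.RX.Asm
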