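import Pool.Agent.R223.RX.Fin
import Pool.Agent.R223.RY.Ord
import Pool.Agent.R223.RD.NK

/-! # Project RX: finitely many angular types, none equal to `2 n` (helper223) -/

set_option autoImplicit false

open MeasureTheory Set Filter Topology
open scoped SchwartzMap ENNReal

namespace Pool.Agent.R223.RX.Many

open Pool.Agent.Y282.RB (Tn Cn)

theorem Cn_lower2 (n : ℕ) (hn : 2 ≤ n) (p : ℝ) (hp : 2 ≤ p) :
    (p - 1) * (93 / 100 * ((n : ℝ) + 1 / 12)) ^ (1 - 2 / p) ≤ Cn p n := by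
  have hp0 : 0 < p := by linarith
  have h2p : 2 / p ≤ 1 := by rw [div_le_one hp0]; exact hp
  have hy : 0 ≤ 1 - 2 / p := by linarith
  induction n, hn using Nat.le_induction with
  | base =>
    unfold Cn
    rw [Finset.prod_range_succ, Finset.prod_range_one]
    have e0 : (((0 : ℕ) : ℝ) + 1 - 1 / p) / (((0 : ℕ) : ℝ) + 1 / p) = p - 1 := by
      simp only [Nat.cast_zero, zero_add]
      field_simp
    rw [e0]
    have h2 := R892.BR.factor_eq p hp 1
    apply mul_le_mul_of_nonneg_left _ (by linarith)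
    refine le_trans ?_ h2
    apply Real.rpow_le_rpow (by positivity) _ hy
    have h4 : Real.exp (2 / (2 * ((1 : ℕ) : ℝ) + 1)) = Real.exp (2 / 3) := by
      congr 1
      norm_num
    rw [h4]
    have h5 : Real.exp (2 / 3) ^ 3 = Real.exp 1 ^ 2 := by
      rw [← Real.exp_nat_mul, ← Real.exp_nat_mul]
      congr 1
      norm_num
    have h6 := Real.exp_one_gt_d9
    have h7 : (2.7182818283 : ℝ) ^ 2 ≤ Real.exp 1 ^ 2 := by gcongr
    by_contra hcon
    push Not at hcon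
    have h8 : Real.exp (2 / 3) ^ 3 < (93 / 100 * (((2 : ℕ) : ℝ) + 1 / 12)) ^ 3 :=
      pow_lt_pow_left₀ hcon (Real.exp_pos _).le (by norm_num)
    rw [h5] at h8
    norm_num at h8 h7
    linarith
  | succ n hn ih =>
    have hn' : (2 : ℝ) ≤ n := by exact_mod_cast hn
    have hp1 : 0 ≤ p - 1 := by linarith
    unfold Cn at ih ⊢
    rw [Finset.prod_range_succ]
    have h1 := R892.BR.factor_eq p hp n
    have h2 : (((n : ℝ) + 13 / 12) / (n + 1 / 12)) ^ (1 - 2 / p) ≤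
        Real.exp (2 / (2 * n + 1)) ^ (1 - 2 / p) :=
      Real.rpow_le_rpow (by positivity) (R892.BR.step_exp n hn) hy
    have h3 := mul_le_mul ih (h2.trans h1) (by positivity) (le_trans (by positivity) ih)
    refine le_trans (le_of_eq ?_) h3
    rw [mul_assoc, ← Real.mul_rpow (by positivity) (by positivity)]
    congr 2
    push_cast
    field_simp
    ring

theorem many (n : ℕ) (hn : 2 ≤ n) (p : ℝ) (hp : 2 ≤ p) (S : Finset ℤ) (hS : (2 * n : ℤ) ∉ S)
    (f : ℤ → 𝓢(ℂ, ℂ)) (hf : ∀ k ∈ S, ∀ a z : ℂ, ‖a‖ = 1 → f k (a * z) = a ^ k * f k z) :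
    eLpNorm (Tn n fun z => ∑ k ∈ S, f k z) (ENNReal.ofReal p) (volume : Measure ℂ) ≤
      ENNReal.ofReal (S.card * (13 / 2 * (n : ℝ)) ^ (1 - 2 / p)) *
        eLpNorm (fun z => ∑ k ∈ S, f k z) (ENNReal.ofReal p) (volume : Measure ℂ) := by
  have hP1 : (1 : ℝ≥0∞) ≤ ENNReal.ofReal p := by
    rw [← ENNReal.ofReal_one]
    exact ENNReal.ofReal_le_ofReal (by linarith)
  set N := eLpNorm (fun z => ∑ k ∈ S, f k z) (ENNReal.ofReal p) (volume : Measure ℂ) with hN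
  have e0 : (fun z => ∑ k ∈ S, f k z) = fun z => ∑ i : ↥S, f i.1 z := by
    funext z
    exact (Finset.sum_coe_sort S (fun k => f k z)).symm
  have m1 := (RD.NK.main ↥S (fun i => i.1) p (fun i => ⇑(f i.1)) (fun a b h => Subtype.ext h) hp
    (fun i => (f i.1).continuous) (fun i => hf i.1 i.2)).1
  rw [← e0, ← hN] at m1
  have hk : ∀ k ∈ S, eLpNorm (f k) (ENNReal.ofReal p) (volume : Measure ℂ) ≤ N := by
    intro k hk
    refine le_trans (eLpNorm_mono fun z => ?_) m1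
    rw [Real.norm_of_nonneg (Real.sqrt_nonneg _)]
    apply Real.le_sqrt_of_sq_le
    exact Finset.single_le_sum (f := fun i : ↥S => ‖f i.1 z‖ ^ 2) (fun i _ => sq_nonneg _)
      (Finset.mem_univ (⟨k, hk⟩ : ↥S))
  rw [RD.Asm2.Tn_sum]
  have e1 : (fun z => ∑ i ∈ S, Tn n (f i) z) = ∑ i ∈ S, Tn n (f i) := by
    funext z
    simp
  rw [e1]
  refine (eLpNorm_sum_le (fun i _ => (RD.Asm2.T_cont n (f i)).aestronglyMeasurable) hP1).trans ?_
  have h1 : ∀ k ∈ S, eLpNorm (Tn n (f k)) (ENNReal.ofReal p) (volume : Measure ℂ) ≤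
      ENNReal.ofReal ((13 / 2 * (n : ℝ)) ^ (1 - 2 / p)) * N := by
    intro k hkS
    refine (Fin.boundB n hn k (fun h => hS (h ▸ hkS)) p hp (f k) (hf k hkS)).trans ?_
    gcongr
    exact hk k hkS
  refine (Finset.sum_le_sum h1).trans (le_of_eq ?_)
  rw [Finset.sum_const, nsmul_eq_mul, ENNReal.ofReal_mul (Nat.cast_nonneg _),
    ENNReal.ofReal_natCast, mul_assoc]

/-- the constant of `MP_3dd6d4_an` -/
theorem cmpD (n N : ℕ) (p : ℝ) (hp : 2 ≤ p) (h : N ≤ 1 ∨ 1 + 13 / 2 * (N : ℝ) ≤ p) (hn : 2 ≤ n) :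
    N * (13 / 2 * (n : ℝ)) ^ (1 - 2 / p) ≤ (n : ℝ) ^ (1 - 2 / p) * (p - 1) := by
  have hp0 : 0 < p := by linarith
  have h2p : 2 / p ≤ 1 := by rw [div_le_one hp0]; exact hp
  have h2p0 : 0 < 2 / p := by positivity
  have hy : 0 ≤ 1 - 2 / p := by linarith
  have hn' : (2 : ℝ) ≤ n := by exact_mod_cast hn
  have hN0 : (0 : ℝ) ≤ N := Nat.cast_nonneg N
  rcases h with h | h
  · have hN1 : (N : ℝ) ≤ 1 := by exact_mod_cast h
    refine (mul_le_of_le_one_left (by positivity) hN1).trans ?_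
    refine RY.Ord.le_D _ n p hp (by positivity) ?_
    apply mul_le_mul_of_nonneg_right _ (by linarith)
    have h6 := Real.exp_one_gt_d9
    have h7 : Real.exp 2 = Real.exp 1 * Real.exp 1 := by
      rw [← Real.exp_add]
      norm_num
    rw [h7]
    nlinarith
  · rw [Real.mul_rpow (by norm_num) (by linarith)]
    have h1 : (13 / 2 : ℝ) ^ (1 - 2 / p) ≤ 13 / 2 := by
      calc (13 / 2 : ℝ) ^ (1 - 2 / p) ≤ (13 / 2 : ℝ) ^ (1 : ℝ) :=
            Real.rpow_le_rpow_of_exponent_le (by norm_num) (by linarith)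
        _ = 13 / 2 := Real.rpow_one _
    have h2 : 0 ≤ (n : ℝ) ^ (1 - 2 / p) := by positivity
    have h3 : (N : ℝ) * (13 / 2 : ℝ) ^ (1 - 2 / p) ≤ p - 1 := by nlinarith
    calc (N : ℝ) * ((13 / 2 : ℝ) ^ (1 - 2 / p) * (n : ℝ) ^ (1 - 2 / p))
        = (N * (13 / 2 : ℝ) ^ (1 - 2 / p)) * (n : ℝ) ^ (1 - 2 / p) := by ring
      _ ≤ (p - 1) * (n : ℝ) ^ (1 - 2 / p) := mul_le_mul_of_nonneg_right h3 h2
      _ = _ := mul_comm _ _

/-- the constant of `MP_dd244f_an` -/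
theorem cmpC (n N : ℕ) (p : ℝ) (hp : 2 ≤ p) (h : N ≤ 1 ∨ 1 + 7 * (N : ℝ) ≤ p) (hn : 2 ≤ n) :
    N * (13 / 2 * (n : ℝ)) ^ (1 - 2 / p) ≤ Cn p n := by
  have hp0 : 0 < p := by linarith
  have h2p : 2 / p ≤ 1 := by rw [div_le_one hp0]; exact hp
  have h2p0 : 0 < 2 / p := by positivity
  have hy : 0 ≤ 1 - 2 / p := by linarith
  have hn' : (2 : ℝ) ≤ n := by exact_mod_cast hn
  have hN0 : (0 : ℝ) ≤ N := Nat.cast_nonneg N
  rcases h with h | h
  · have hN1 : (N : ℝ) ≤ 1 := by exact_mod_cast h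
    refine (mul_le_of_le_one_left (by positivity) hN1).trans ?_
    exact RY.Ord.le_C _ n hn p hp (by positivity) (by linarith)
  · refine le_trans ?_ (Cn_lower2 n hn p hp)
    have h0 : (13 / 2 * (n : ℝ)) ^ (1 - 2 / p) ≤
        7 * (93 / 100 * ((n : ℝ) + 1 / 12)) ^ (1 - 2 / p) := by
      calc (13 / 2 * (n : ℝ)) ^ (1 - 2 / p) ≤ (7 * (93 / 100 * ((n : ℝ) + 1 / 12))) ^ (1 - 2 / p) :=
            Real.rpow_le_rpow (by positivity) (by linarith) hy
        _ = (7 : ℝ) ^ (1 - 2 / p) * (93 / 100 * ((n : ℝ) + 1 / 12)) ^ (1 - 2 / p) :=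
            Real.mul_rpow (by norm_num) (by positivity)
        _ ≤ (7 : ℝ) ^ (1 : ℝ) * (93 / 100 * ((n : ℝ) + 1 / 12)) ^ (1 - 2 / p) := by
            apply mul_le_mul_of_nonneg_right _ (by positivity)
            exact Real.rpow_le_rpow_of_exponent_le (by norm_num) (by linarith)
        _ = _ := by rw [Real.rpow_one]
    have h1 : 0 ≤ (93 / 100 * ((n : ℝ) + 1 / 12)) ^ (1 - 2 / p) := by positivity
    have h2 := mul_le_mul_of_nonneg_left h0 hN0
    nlinarith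

end Pool.Agent.R223.RX.Many
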