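import Pool.Agent.R223.RD.Stm

/-!
# Project RX (helper223): powers of the Beurling transform on the angular types `k > n`, `k ≠ 2 n`

`T^n` on functions of angular type `k`.  Let `k = 2 j + m` with `j, m ≥ 1`.  On
`f z = z ^ (2 j + m) h^(j) (|z|^2)` one has `T^j f z = z ^ m HH (j + m) h j (|z|^2)`, and with
`a t = t ^ (j + m / 2) h^(j) t` (`|f| = |a (|z|^2)|`) the function
`b t = t ^ (m / 2) HH (j + m) h j t` (`|T^j f| = |b (|z|^2)|`) is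
`b t = a t - ∫_0^∞ kk y a (t (1 + y)) dy`, where
`kk y = (1 + y) ^ (-(j + m / 2)) ∑_{i < j} (-1)^i (i + 1) C(j, i + 1) C(j + m, i + 1) y^i`.

The `L^2` norm of `a ↦ b` is `1`, the `L^∞` norm is at most `1 + ∫ |kk|`, and
`∫ |kk| ≤ 13 / 2 j - 1` for all `j, m ≥ 1`; Riesz-Thorin gives the `L^p` norm.

Bound of `∫ |kk|` (`j ≥ 2`): `U y = y kk y` satisfies, with `D = (1 + y) d/dy`,
`D (D U) = -(N^2 / y - m^2 / 4) U`, `N^2 = j (j + m)`, `U ~ N^2 y` at `0`.  With `q = N^2/y - m^2/4`,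
`δ = 3 / (16 N^2)`, `z = y + δ`, `a = 1 - δ`, `g = sqrt z`, `g1 = D g`, `g2 = D g1`, `g3 = D g2`,
`H = g (DU)^2 + (g q + g2 / 2) U^2 - g1 U (DU)`:
`D H = (2 g1 q + g Dq + g3 / 2) U^2
     = - (1 + y) / sqrt z (δ N^2 / y^2 + β - 3 a^2 / (16 z^2)) U^2 ≤ - β (1 + y) / sqrt z U^2`,
`β = (4 m^2 - 1) / 16`; so `H ≤ H(0+) = sqrt δ N^4`, and `H → 0` at `∞`.
-/

set_option autoImplicit false

open MeasureTheory Set Filter Topology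
open scoped SchwartzMap

namespace Pool.Agent.R223.RX

open Pool.Agent.Y282.RB (Tn)
open Pool.Agent.Y282.RB.A2 (HH db dd)
open Pool.Agent.R223.RD (Cc)

/-- Lebesgue measure on the half line -/
noncomputable def mu : Measure ℝ := volume.restrict (Ioi (0 : ℝ))

/-- the polynomial factor of the kernel -/
noncomputable def GG (j m : ℕ) (y : ℝ) : ℝ :=
  ∑ i ∈ Finset.range j,
    (-1 : ℝ) ^ i * (((i : ℝ) + 1) * (j.choose (i + 1)) * ((j + m).choose (i + 1))) * y ^ i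

/-- the kernel -/
noncomputable def kk (j m : ℕ) (y : ℝ) : ℝ := (1 + y) ^ (-((j : ℝ) + (m : ℝ) / 2)) * GG j m y

/-- `U y = y kk y` -/
noncomputable def UU (j m : ℕ) (y : ℝ) : ℝ := y * kk j m y

/-- `N ^ 2` -/
noncomputable def nn (j m : ℕ) : ℝ := (j : ℝ) * ((j : ℝ) + m)

/-- the operator with kernel `k` -/
noncomputable def opA (k : ℝ → ℝ) (a : ℝ → ℂ) (t : ℝ) : ℂ :=
  a t - ∫ y in Ioi (0 : ℝ), (k y : ℂ) * a (t * (1 + y))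

/-- `β` and `δ` -/
noncomputable def bet (m : ℕ) : ℝ := (4 * (m : ℝ) ^ 2 - 1) / 16
noncomputable def del (j m : ℕ) : ℝ := 3 / (16 * nn j m)

/-- the differential equation of `U`.  (`U = (1 + y) ^ (-(j + m / 2)) G`, `G = y GG`, and
`y (1 + y) G'' + (1 - 2 j - m) y G' + j (j + m) G = 0` by comparing coefficients) -/
def S_ODE : Prop := ∀ j m : ℕ, 1 ≤ j → ∃ (U1 : ℝ → ℝ) (C : ℝ),
  (∀ y, 0 < y → HasDerivAt (UU j m) (U1 y / (1 + y)) y) ∧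
  (∀ y, 0 < y → HasDerivAt U1 (-(nn j m / y - (m : ℝ) ^ 2 / 4) * UU j m y / (1 + y)) y) ∧
  Tendsto U1 (𝓝[>] 0) (𝓝 (nn j m)) ∧
  (∀ y, 0 < y → |UU j m y| ≤ C * y * (1 + y) ^ (-1 - (m : ℝ) / 2)) ∧
  (∀ y, 0 < y → |U1 y| ≤ C * (1 + y) ^ (-(m : ℝ) / 2))

/-- the virial estimates -/
def S_VIR : Prop := S_ODE → ∀ j m : ℕ, 1 ≤ j → 1 ≤ m →
  (∀ y, 0 < y → (m : ℝ) ^ 2 * y ≤ 4 * nn j m → |UU j m y| ≤ nn j m * y) ∧
  (∀ y, 0 < y → Real.sqrt (y + del j m) *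
    (nn j m / y - bet m - (1 - del j m) / (8 * (y + del j m)) -
      3 * (1 - del j m) ^ 2 / (16 * (y + del j m) ^ 2)) * UU j m y ^ 2 ≤
    Real.sqrt (del j m) * nn j m ^ 2) ∧
  (∀ y1, 0 < y1 → IntegrableOn (fun y => UU j m y ^ 2 / Real.sqrt (y + del j m)) (Ioi y1) ∧
    bet m * ∫ y in Ioi y1, UU j m y ^ 2 / Real.sqrt (y + del j m) ≤
      Real.sqrt (del j m) * nn j m ^ 2)

/-- the conclusion of `S_VIR` -/
def VirC : Prop := ∀ j m : ℕ, 1 ≤ j → 1 ≤ m →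
  (∀ y, 0 < y → (m : ℝ) ^ 2 * y ≤ 4 * nn j m → |UU j m y| ≤ nn j m * y) ∧
  (∀ y, 0 < y → Real.sqrt (y + del j m) *
    (nn j m / y - bet m - (1 - del j m) / (8 * (y + del j m)) -
      3 * (1 - del j m) ^ 2 / (16 * (y + del j m) ^ 2)) * UU j m y ^ 2 ≤
    Real.sqrt (del j m) * nn j m ^ 2) ∧
  (∀ y1, 0 < y1 → IntegrableOn (fun y => UU j m y ^ 2 / Real.sqrt (y + del j m)) (Ioi y1) ∧
    bet m * ∫ y in Ioi y1, UU j m y ^ 2 / Real.sqrt (y + del j m) ≤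
      Real.sqrt (del j m) * nn j m ^ 2)

/-- the `L^1` norm of the kernel -/
def L1C : Prop := ∀ j m : ℕ, 1 ≤ j → 1 ≤ m →
  IntegrableOn (kk j m) (Ioi (0 : ℝ)) ∧ ∫ y in Ioi (0 : ℝ), |kk j m y| ≤ 13 / 2 * (j : ℝ) - 1

/-- the `L^1` estimate.  For `j = 1`, `kk = (1 + m) (1 + y) ^ (-1 - m / 2)`.  For `j ≥ 2` with
`y0 = 2 / N^2`, `y1 = N^2 / (8 β)`, `X = N β ^ (-1/4)`: the integral of `|U| / y` over `(0, y0)` is
at most `2`, over `(y0, y1)` at most `1.7947 X - 3.589`, over `(y1, ∞)` at most `1.5773 X`, and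
`X^2 ≤ (4 / sqrt 3) j (j + 1)` -/
def S_L1 : Prop := VirC → L1C

/-- the kernel formula -/
def S_KER : Prop := ∀ (j m : ℕ) (h : ℝ → ℂ), 1 ≤ j → ContDiff ℝ (⊤ : ℕ∞) h →
  (∃ R : ℝ, ∀ x, R ≤ x → h x = 0) → ∀ t : ℝ, 0 < t →
  ((t ^ ((m : ℝ) / 2) : ℝ) : ℂ) * HH (j + m) h j t =
    opA (kk j m) (fun s => ((s ^ ((j : ℝ) + (m : ℝ) / 2) : ℝ) : ℂ) * iteratedDeriv j h s) t

/-- the `L^2` bound -/
def IsoC : Prop := ∀ (j m : ℕ) (a : ℝ → ℂ), 1 ≤ j → 1 ≤ m → Cc a →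
  eLpNorm (opA (kk j m) a) 2 mu ≤ eLpNorm a 2 mu

def S_ISO : Prop := S_KER → IsoC

/-- Riesz-Thorin between `L^2` and `L^∞` -/
def S_RT : Prop := ∀ (k : ℝ → ℝ) (B p : ℝ), ContinuousOn k (Ioi (0 : ℝ)) →
  IntegrableOn k (Ioi (0 : ℝ)) → ∫ y in Ioi (0 : ℝ), |k y| ≤ B → 2 ≤ p →
  (∀ a : ℝ → ℂ, Cc a → eLpNorm (opA k a) 2 mu ≤ eLpNorm a 2 mu) →
  ∀ a : ℝ → ℂ, Cc a →
    eLpNorm (opA k a) (ENNReal.ofReal p) mu ≤
      ENNReal.ofReal ((1 + B) ^ (1 - 2 / p)) * eLpNorm a (ENNReal.ofReal p) mu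

/-- the bound of `T^j` on nice functions of type `2 j + m` -/
def PlnC : Prop := ∀ (j m : ℕ) (p : ℝ) (w : ℝ → ℂ) (f : 𝓢(ℂ, ℂ)), 1 ≤ j → 1 ≤ m → 2 ≤ p → Cc w →
  (∀ z, f z = z ^ (2 * j + m) * w (Complex.normSq z)) →
  eLpNorm (Tn j f) (ENNReal.ofReal p) (volume : Measure ℂ) ≤
    ENNReal.ofReal ((13 / 2 * (j : ℝ)) ^ (1 - 2 / p)) *
      eLpNorm (⇑f) (ENNReal.ofReal p) (volume : Measure ℂ)

def S_PLN : Prop := S_KER → IsoC → S_RT → L1C → PlnC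

/-- `T^(j + m)` and `T^j` have the same modulus on functions of type `2 j + m` -/
def S_SH : Prop := ∀ (j m : ℕ) (w : ℝ → ℂ) (f : 𝓢(ℂ, ℂ)), 1 ≤ j → Cc w →
  (∀ z, f z = z ^ (2 * j + m) * w (Complex.normSq z)) →
  ∀ z, ‖Tn (j + m) f z‖ = ‖Tn j f z‖

end Pool.Agent.R223.RX
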